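import Pool.Agent.V5helper31.CH.Rules3

set_option autoImplicit false
set_option linter.unusedSectionVars false

/-! The dimension of `R3 / X` is at least `n (n - 1 choose 3)` if `[IA, R3] ≤ X` and `R3` is not
contained in `X`. -/

namespace Pool.Agent.V5helper31.CH

open Pool.Agent.Helper460_OutF Pool.Agent.Helper460_CSP Pool.Agent.V5helper31.CF
open Pool.Agent.V5helper31.CG
open FreeGroup (of)
open scoped commutatorElement

section comb

variable {ι : Type} [DecidableEq ι] [Fintype ι]

lemma fin3 : ∀ a b c m : Fin 3, a ≠ b → a ≠ c → b ≠ c → m = a ∨ m = b ∨ m = c := by decide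

lemma three {f : Fin 3 → ι} {x1 x2 x3 : ι} (h12 : x1 ≠ x2)
    (h13 : x1 ≠ x3) (h23 : x2 ≠ x3) (e1 : ∃ m, f m = x1) (e2 : ∃ m, f m = x2)
    (e3 : ∃ m, f m = x3) : ∀ m, f m = x1 ∨ f m = x2 ∨ f m = x3 := by
  obtain ⟨m1, rfl⟩ := e1
  obtain ⟨m2, rfl⟩ := e2
  obtain ⟨m3, rfl⟩ := e3
  intro m
  rcases fin3 m1 m2 m3 m (fun h => h12 (by rw [h])) (fun h => h13 (by rw [h]))
    (fun h => h23 (by rw [h])) with rfl | rfl | rfl
  · exact Or.inl rfl
  · exact Or.inr (Or.inl rfl)
  · exact Or.inr (Or.inr rfl)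

lemma sw_at {p r q : ι} {f : Fin 3 → ι} {m : Fin 3} (h : f m = q) (hqp : q ≠ p) :
    sw p r f m = q := by rw [sw_ne (by rw [h]; exact hqp), h]

lemma sw_off {p r q : ι} {f : Fin 3 → ι} {m : Fin 3} (h : f m ≠ q) (hr : r ≠ q) :
    sw p r f m ≠ q := by
  unfold sw
  split_ifs
  · exact hr
  · exact h

end comb

variable {ι : Type} [DecidableEq ι] [Fintype ι] {X : Subgroup (MulAut (FreeGroup ι))} [X.Normal]
  [CM (HR (R3 ι) X)] {P : ℕ} [Module (ZMod P) (Additive (HR (R3 ι) X))] {h4 : 4 ≤ Fintype.card ι}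
  (h5 : 5 ≤ Fintype.card ι) (hI : Ic X)

include h5 hI

lemma killD (M : Fin 9 → ι) (hM : Function.Injective M) {f : Fin 3 → ι}
    (hf : Function.Injective f) (hr : ∀ m, f m ≠ M 1) (h1 : ∃ m, f m = M 2)
    (h2 : ∃ m, f m = M 4) (h3 : ∃ m, f m = M 6) :
    Op X P (M 8) (M 6) (Op X P (M 6) (M 7) (Op X P (M 4) (M 5) (Op X P (M 2) (M 3)
      (Op X P (M 0) (M 1) (bb X h4 (M 1) f))))) = 0 := by
  have ne : ∀ {a b : Fin 9}, a ≠ b → M a ≠ M b := fun h h' => h (hM h')
  have hall := three (ne (show (2 : Fin 9) ≠ 4 by decide)) (ne (show (2 : Fin 9) ≠ 6 by decide))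
    (ne (show (4 : Fin 9) ≠ 6 by decide)) h1 h2 h3
  obtain ⟨m1, h1⟩ := h1
  obtain ⟨m2, h2⟩ := h2
  obtain ⟨m3, h3⟩ := h3
  have n0 : ∀ m, f m ≠ M 0 := by
    intro m
    rcases hall m with h | h | h <;> rw [h] <;> exact ne (by decide)
  have n8 : ∀ m, f m ≠ M 8 := by
    intro m
    rcases hall m with h | h | h <;> rw [h] <;> exact ne (by decide)
  have once : ∀ {q : ι} {m₀ : Fin 3}, f m₀ = q → ∀ m, m ≠ m₀ → f m ≠ q := by
    rintro q m₀ rfl m hm h
    exact hm (hf h)
  rw [opD h5 hI (ne (by decide)) n0 hr, map_neg, map_neg, map_neg, map_neg,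
    opB h5 hI (ne (by decide)) (ne (by decide)) (ne (by decide)) h1 (once h1),
    opB h5 hI (ne (by decide)) (ne (by decide)) (ne (by decide)) (sw_at h2 (ne (by decide)))
      (fun m hm => sw_off (once h2 m hm) (ne (by decide))),
    opB h5 hI (ne (by decide)) (ne (by decide)) (ne (by decide))
      (sw_at (sw_at h3 (ne (by decide))) (ne (by decide)))
      (fun m hm => sw_off (sw_off (once h3 m hm) (ne (by decide))) (ne (by decide))),
    opA (ne (by decide)) (ne (by decide))
      (fun m => sw_off (sw_off (sw_off (n8 m) (ne (by decide))) (ne (by decide))) (ne (by decide))),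
    neg_zero]

/-- **The operator which isolates `bb i f`.** -/
theorem isolate (L : Fin 9 → ι) (hL : Function.Injective L) :
    (∀ (i' : ι) (f' : Fin 3 → ι), Function.Injective f' → (∀ m, f' m ≠ i') →
      ¬ (i' = L 0 ∧ (∃ m, f' m = L 1) ∧ (∃ m, f' m = L 2) ∧ ∃ m, f' m = L 3) →
      (Op X P (L 8) (L 4) * (Op X P (L 4) (L 0) * (Op X P (L 1) (L 5) * (Op X P (L 2) (L 6) *
        Op X P (L 3) (L 7))))) (bb X h4 i' f') = 0) ∧
    (Op X P (L 8) (L 4) * (Op X P (L 4) (L 0) * (Op X P (L 1) (L 5) * (Op X P (L 2) (L 6) *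
        Op X P (L 3) (L 7))))) (bb X h4 (L 0) ![L 1, L 2, L 3]) =
      bb X h4 (L 8) ![L 5, L 6, L 7] := by
  have ne : ∀ {a b : Fin 9}, a ≠ b → L a ≠ L b := fun h h' => h (hL h')
  have c12 : Commute (Op X P (L 4) (L 0)) (Op X P (L 1) (L 5)) :=
    Op_comm (ne (by decide)) (ne (by decide)) (ne (by decide))
  have c13 : Commute (Op X P (L 4) (L 0)) (Op X P (L 2) (L 6)) :=
    Op_comm (ne (by decide)) (ne (by decide)) (ne (by decide))
  have c14 : Commute (Op X P (L 4) (L 0)) (Op X P (L 3) (L 7)) :=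
    Op_comm (ne (by decide)) (ne (by decide)) (ne (by decide))
  have c23 : Commute (Op X P (L 1) (L 5)) (Op X P (L 2) (L 6)) :=
    Op_comm (ne (by decide)) (ne (by decide)) (ne (by decide))
  have c24 : Commute (Op X P (L 1) (L 5)) (Op X P (L 3) (L 7)) :=
    Op_comm (ne (by decide)) (ne (by decide)) (ne (by decide))
  have c34 : Commute (Op X P (L 2) (L 6)) (Op X P (L 3) (L 7)) :=
    Op_comm (ne (by decide)) (ne (by decide)) (ne (by decide))
  have kD : ∀ (M : Fin 9 → Fin 9), Function.Injective M → ∀ {f : Fin 3 → ι},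
      Function.Injective f → (∀ m, f m ≠ L (M 1)) → (∃ m, f m = L (M 2)) →
      (∃ m, f m = L (M 4)) → (∃ m, f m = L (M 6)) →
      Op X P (L (M 8)) (L (M 6)) (Op X P (L (M 6)) (L (M 7)) (Op X P (L (M 4)) (L (M 5))
        (Op X P (L (M 2)) (L (M 3)) (Op X P (L (M 0)) (L (M 1)) (bb X h4 (L (M 1)) f))))) = 0 :=
    fun M hM f hf hr h1 h2 h3 => killD h5 hI (L ∘ M) (hL.comp hM) hf hr h1 h2 h3
  have o1 := (c12.mul_right (c13.mul_right c14)).eq
  have o2 := (c23.mul_right c24).eq
  have o3 := c34.eq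
  constructor
  · intro i' f' hf' hif' hne
    have hap : ∀ (f g : Module.End (ZMod P) (Additive (HR (R3 ι) X))) (x : Additive (HR (R3 ι) X)),
      (f * g) x = f (g x) := fun _ _ _ => rfl
    by_cases k4 : Op X P (L 3) (L 7) (bb X h4 i' f') = 0
    · rw [hap, hap, hap, hap, k4, map_zero, map_zero, map_zero, map_zero]
    by_cases k3 : Op X P (L 2) (L 6) (bb X h4 i' f') = 0
    · rw [o3, hap, hap, hap, hap, k3, map_zero, map_zero, map_zero, map_zero]
    by_cases k2 : Op X P (L 1) (L 5) (bb X h4 i' f') = 0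
    · rw [o2, hap, hap, hap, k2, map_zero, map_zero, map_zero]
    by_cases k1 : Op X P (L 4) (L 0) (bb X h4 i' f') = 0
    · rw [o1, hap, hap, k1, map_zero, map_zero]
    have n2 : i' ≠ L 1 := by rintro rfl; exact k2 (opC h5 hI _ _ _)
    have n3 : i' ≠ L 2 := by rintro rfl; exact k3 (opC h5 hI _ _ _)
    have n4 : i' ≠ L 3 := by rintro rfl; exact k4 (opC h5 hI _ _ _)
    have n1 : i' ≠ L 4 := by rintro rfl; exact k1 (opC h5 hI _ _ _)
    have m1 : i' = L 0 ∨ ∃ m, f' m = L 4 := by
      by_contra hc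
      push Not at hc
      exact k1 (opA n1 hc.1 hc.2)
    have m2 : i' = L 5 ∨ ∃ m, f' m = L 1 := by
      by_contra hc
      push Not at hc
      exact k2 (opA n2 hc.1 hc.2)
    have m3 : i' = L 6 ∨ ∃ m, f' m = L 2 := by
      by_contra hc
      push Not at hc
      exact k3 (opA n3 hc.1 hc.2)
    have m4 : i' = L 7 ∨ ∃ m, f' m = L 3 := by
      by_contra hc
      push Not at hc
      exact k4 (opA n4 hc.1 hc.2)
    rcases m2 with rfl | m2
    · have m3' := m3.resolve_left (ne (by decide))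
      have m4' := m4.resolve_left (ne (by decide))
      have m1' := m1.resolve_left (ne (by decide))
      rw [o2, o3, hap, hap, hap, hap]
      exact kD ![1, 5, 2, 6, 3, 7, 4, 0, 8] (by decide) hf' hif' m3' m4' m1'
    rcases m3 with rfl | m3
    · have m4' := m4.resolve_left (ne (by decide))
      have m1' := m1.resolve_left (ne (by decide))
      rw [o3, ← mul_assoc (Op X P (L 1) (L 5)), c24.eq, hap, hap, hap, hap]
      exact kD ![2, 6, 1, 5, 3, 7, 4, 0, 8] (by decide) hf' hif' m2 m4' m1'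
    rcases m4 with rfl | m4
    · have m1' := m1.resolve_left (ne (by decide))
      rw [← mul_assoc (Op X P (L 1) (L 5)), c23.eq, hap, hap, hap, hap]
      exact kD ![3, 7, 1, 5, 2, 6, 4, 0, 8] (by decide) hf' hif' m2 m3 m1'
    exfalso
    have hall := three (ne (show (1 : Fin 9) ≠ 2 by decide)) (ne (show (1 : Fin 9) ≠ 3 by decide))
      (ne (show (2 : Fin 9) ≠ 3 by decide)) m2 m3 m4
    rcases m1 with rfl | ⟨m, hm⟩
    · exact hne ⟨rfl, m2, m3, m4⟩
    · rcases hall m with h | h | h <;> rw [h] at hm <;> exact ne (by decide) hm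
  · set f : Fin 3 → ι := ![L 1, L 2, L 3] with hf
    have f0 : f 0 = L 1 := rfl
    have f1 : f 1 = L 2 := rfl
    have f2 : f 2 = L 3 := rfl
    have hfall : ∀ m : Fin 3, m = 0 ∨ m = 1 ∨ m = 2 := by decide
    have nf : ∀ {a : Fin 9}, a ≠ 1 → a ≠ 2 → a ≠ 3 → ∀ m, f m ≠ L a := by
      intro a a1 a2 a3 m
      rcases hfall m with rfl | rfl | rfl
      · exact ne a1.symm
      · exact ne a2.symm
      · exact ne a3.symm
    have hap : ∀ (f g : Module.End (ZMod P) (Additive (HR (R3 ι) X))) (x : Additive (HR (R3 ι) X)),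
      (f * g) x = f (g x) := fun _ _ _ => rfl
    have q0 : ∀ m : Fin 3, m ≠ 0 → f m ≠ L 1 := by
      intro m hm
      rcases hfall m with rfl | rfl | rfl
      · exact absurd rfl hm
      · exact ne (by decide)
      · exact ne (by decide)
    have q1 : ∀ m : Fin 3, m ≠ 1 → f m ≠ L 2 := by
      intro m hm
      rcases hfall m with rfl | rfl | rfl
      · exact ne (by decide)
      · exact absurd rfl hm
      · exact ne (by decide)
    have q2 : ∀ m : Fin 3, m ≠ 2 → f m ≠ L 3 := by
      intro m hm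
      rcases hfall m with rfl | rfl | rfl
      · exact ne (by decide)
      · exact ne (by decide)
      · exact absurd rfl hm
    have e : sw (L 1) (L 5) (sw (L 2) (L 6) (sw (L 3) (L 7) f)) = ![L 5, L 6, L 7] := by
      funext m
      rcases hfall m with rfl | rfl | rfl
      · rw [sw_self (sw_at (sw_at f0 (ne (by decide))) (ne (by decide)))]
        rfl
      · rw [sw_ne, sw_self (sw_at f1 (ne (by decide)))]
        · rfl
        · rw [sw_self (sw_at f1 (ne (by decide)))]
          exact ne (by decide)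
      · rw [sw_ne, sw_ne, sw_self f2]
        · rfl
        · rw [sw_self f2]
          exact ne (by decide)
        · rw [sw_ne, sw_self f2]
          · exact ne (by decide)
          · rw [sw_self f2]
            exact ne (by decide)
    rw [o1, hap, hap, hap, hap, opD h5 hI (ne (by decide))
      (nf (by decide) (by decide) (by decide)) (nf (by decide) (by decide) (by decide)), map_neg,
      map_neg, map_neg, map_neg,
      opB h5 hI (ne (by decide)) (ne (by decide)) (ne (by decide)) f2 q2,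
      opB h5 hI (ne (by decide)) (ne (by decide)) (ne (by decide)) (sw_at f1 (ne (by decide)))
        (fun m hm => sw_off (q1 m hm) (ne (by decide))),
      opB h5 hI (ne (by decide)) (ne (by decide)) (ne (by decide))
        (sw_at (sw_at f0 (ne (by decide))) (ne (by decide)))
        (fun m hm => sw_off (sw_off (q0 m hm) (ne (by decide))) (ne (by decide))), e,
      opD h5 hI (ne (by decide)), neg_neg]
    · intro m
      rcases hfall m with rfl | rfl | rfl
      · exact ne (show (5 : Fin 9) ≠ 8 by decide)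
      · exact ne (show (6 : Fin 9) ≠ 8 by decide)
      · exact ne (show (7 : Fin 9) ≠ 8 by decide)
    · intro m
      rcases hfall m with rfl | rfl | rfl
      · exact ne (show (5 : Fin 9) ≠ 4 by decide)
      · exact ne (show (6 : Fin 9) ≠ 4 by decide)
      · exact ne (show (7 : Fin 9) ≠ 4 by decide)

end Pool.Agent.V5helper31.CH
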