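import Pool.Agent.V5helper31.CH.Rules3

set_option autoImplicit false
set_option linter.unusedSectionVars false

/-! Functionals on `R3` which are eigenvectors for the conjugation by `IA`. -/

namespace Pool.Agent.V5helper31.CH

open Pool.Agent.Helper460_OutF Pool.Agent.Helper460_CSP Pool.Agent.V5helper31.CF
open Pool.Agent.V5helper31.CG
open FreeGroup (of)
open scoped commutatorElement

/-! ### functionals on the third term of the lower central series -/

section g3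

variable {ι : Type} {k : Type*} [AddCommGroup k]

/-- additive on `γ₃` and invariant under conjugation -/
structure G3 (φ : FreeGroup ι → k) : Prop where
  mul : ∀ x ∈ g3 ι, ∀ y ∈ g3 ι, φ (x * y) = φ x + φ y
  conj : ∀ x ∈ g3 ι, ∀ g, φ (g * x * g⁻¹) = φ x

variable {φ : FreeGroup ι → k}

lemma cm_g2 (u v : FreeGroup ι) : ⁅u, v⁆ ∈ g2 ι :=
  Subgroup.commutator_mem_commutator (Subgroup.mem_top u) (Subgroup.mem_top v)

lemma cm_g3 {c : FreeGroup ι} (hc : c ∈ g2 ι) (w : FreeGroup ι) : ⁅c, w⁆ ∈ g3 ι :=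
  Subgroup.commutator_mem_commutator hc (Subgroup.mem_top w)

lemma G3.one (h : G3 φ) : φ 1 = 0 := by
  have := h.mul 1 (one_mem _) 1 (one_mem _)
  rw [mul_one] at this
  exact left_eq_add.1 this

lemma G3.inv (h : G3 φ) {x : FreeGroup ι} (hx : x ∈ g3 ι) : φ x⁻¹ = - φ x := by
  have := h.mul x hx x⁻¹ (inv_mem hx)
  rw [mul_inv_cancel, h.one] at this
  exact (neg_eq_of_add_eq_zero_right this.symm).symm

lemma G3.com (h : G3 φ) {x : FreeGroup ι} (hx : x ∈ g3 ι) (g : FreeGroup ι) : φ ⁅x, g⁆ = 0 := by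
  have hn : (g3 ι).Normal := inferInstance
  have e : ⁅x, g⁆ = x * (g * x⁻¹ * g⁻¹) := by rw [commutatorElement_def]; group
  rw [e, h.mul x hx _ (hn.conj_mem _ (inv_mem hx) g), h.conj _ (inv_mem hx), h.inv hx,
    add_neg_cancel]

lemma G3.m3 (h : G3 φ) {c : FreeGroup ι} (hc : c ∈ g2 ι) (a b : FreeGroup ι) :
    φ ⁅c, a * b⁆ = φ ⁅c, a⁆ + φ ⁅c, b⁆ := by
  have hn : (g3 ι).Normal := inferInstance
  rw [comm_mul_right', h.mul _ (cm_g3 hc a) _ (hn.conj_mem _ (cm_g3 hc b) a),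
    h.conj _ (cm_g3 hc b)]

lemma G3.m12 (h : G3 φ) {c d : FreeGroup ι} (hc : c ∈ g2 ι) (hd : d ∈ g2 ι) (w : FreeGroup ι) :
    φ ⁅c * d, w⁆ = φ ⁅c, w⁆ + φ ⁅d, w⁆ := by
  have hn : (g3 ι).Normal := inferInstance
  rw [comm_mul_left', h.mul _ (hn.conj_mem _ (cm_g3 hd w) c) _ (cm_g3 hc w),
    h.conj _ (cm_g3 hd w), add_comm]

lemma g3_g2 {c : FreeGroup ι} (hc : c ∈ g3 ι) : c ∈ g2 ι :=
  Subgroup.commutator_mono (le_top : g2 ι ≤ ⊤) le_rfl hc

lemma G3.m1 (h : G3 φ) (a b v w : FreeGroup ι) :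
    φ ⁅⁅a * b, v⁆, w⁆ = φ ⁅⁅a, v⁆, w⁆ + φ ⁅⁅b, v⁆, w⁆ := by
  have e1 : ⁅a * b, v⁆ = (⁅⁅b, v⁆, a⁆⁻¹ * ⁅b, v⁆) * ⁅a, v⁆ := by
    simp only [commutatorElement_def]; group
  have hz : ⁅⁅b, v⁆, a⁆⁻¹ ∈ g3 ι := inv_mem (cm_g3 (cm_g2 b v) a)
  rw [e1, h.m12 (mul_mem (g3_g2 hz) (cm_g2 b v)) (cm_g2 a v), h.m12 (g3_g2 hz) (cm_g2 b v),
    h.com hz, zero_add, add_comm]

lemma G3.m2 (h : G3 φ) (u a b w : FreeGroup ι) :
    φ ⁅⁅u, a * b⁆, w⁆ = φ ⁅⁅u, a⁆, w⁆ + φ ⁅⁅u, b⁆, w⁆ := by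
  have e1 : ⁅u, a * b⁆ = ⁅u, a⁆ * (⁅⁅u, b⁆, a⁆⁻¹ * ⁅u, b⁆) := by
    simp only [commutatorElement_def]; group
  have hz : ⁅⁅u, b⁆, a⁆⁻¹ ∈ g3 ι := inv_mem (cm_g3 (cm_g2 u b) a)
  rw [e1, h.m12 (cm_g2 u a) (mul_mem (g3_g2 hz) (cm_g2 u b)), h.m12 (g3_g2 hz) (cm_g2 u b),
    h.com hz, zero_add]

end g3

variable {ι : Type} [DecidableEq ι] [Fintype ι]

lemma rr_g3 (h4 : 4 ≤ Fintype.card ι) (i : ι) {w : FreeGroup ι} (hw : w ∈ g3 ι) :
    rr i w ∈ R3 ι := by
  have hcl := K3_mk.crr h4 i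
  have h2 : ∀ c ∈ g2 ι, ∀ y, Commute (QuotientGroup.mk' (R3 ι) (rr i c))
      (QuotientGroup.mk' (R3 ι) (rr i y)) := by
    intro c hc
    refine comm_ind (p := fun c => ∀ y, Commute (QuotientGroup.mk' (R3 ι) (rr i c))
      (QuotientGroup.mk' (R3 ι) (rr i y))) ?_ ?_ ?_ ?_ c hc
    · intro u _ v _ y
      exact hcl u v y
    · intro y
      rw [map_one, map_one]
      exact Commute.one_left _
    · intro u _ v _ h1 h2 y
      rw [map_mul, map_mul]
      exact (h1 y).mul_left (h2 y)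
    · intro u _ h1 y
      rw [map_inv, map_inv]
      exact (h1 y).inv_left
  have h3 : QuotientGroup.mk' (R3 ι) (rr i w) = 1 := by
    refine comm_ind (p := fun w => QuotientGroup.mk' (R3 ι) (rr i w) = 1) ?_ ?_ ?_ ?_ w hw
    · intro c hc y _
      rw [map_commutatorElement, map_commutatorElement, commutatorElement_eq_one_iff_commute]
      exact h2 c hc y
    · rw [map_one, map_one]
    · intro u _ v _ h1 h2
      rw [map_mul, map_mul, h1, h2, one_mul]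
    · intro u _ h1
      rw [map_inv, map_inv, h1, inv_one]
  exact (QuotientGroup.eq_one_iff _).1 h3

lemma IA_gen {D : Subgroup (MulAut (FreeGroup ι))} (h5 : 5 ≤ Fintype.card ι)
    (h1 : ∀ i j : ι, cc i (of j) ∈ D) (h2 : ∀ i j k : ι, rr i ⁅of j, of k⁆ ∈ D)
    (h3 : KBz ι ≤ D) : IA (FreeGroup ι) ≤ D := by
  have hKn := KBz_normal (ι := ι) h5
  have hconj : (MulAut.conj : FreeGroup ι →* MulAut (FreeGroup ι)).range ≤ D := by
    rintro _ ⟨g, rfl⟩
    induction g using FreeGroup.induction_on with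
    | C1 => rw [map_one]; exact one_mem _
    | of m =>
      have h4 : MulAut.conj (of m)⁻¹ ∈ D := by
        rw [← prod_conj]
        apply Subgroup.list_prod_mem
        intro x hx
        rw [List.mem_map] at hx
        obtain ⟨i, _, rfl⟩ := hx
        exact h1 i m
      rw [map_inv] at h4
      exact inv_mem_iff.1 h4
    | inv_of m ih =>
      show MulAut.conj (of m)⁻¹ ∈ D
      rw [map_inv]
      exact inv_mem ih
    | mul a b ha hb => rw [map_mul]; exact mul_mem ha hb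
  have hNN : NN ι ≤ D := by
    have hNN' : NN ι ≤ (MulAut.conj : FreeGroup ι →* MulAut (FreeGroup ι)).range ⊔ KBz ι := by
      have : ((MulAut.conj : FreeGroup ι →* MulAut (FreeGroup ι)).range).Normal := by
        refine ⟨?_⟩
        rintro _ ⟨x, rfl⟩ g
        refine ⟨g x, ?_⟩
        rw [eq_comm, mul_inv_eq_iff_eq_mul]
        ext y
        simp [MulAut.mul_apply, MulAut.conj_apply]
      apply Subgroup.normalClosure_le_normal
      rintro x (⟨g, rfl⟩ | ⟨i, j, k, h1, h2, rfl⟩)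
      · exact Subgroup.mem_sup_left ⟨g, rfl⟩
      · exact Subgroup.mem_sup_right (cc_mem_KBz (by omega) _ _ _)
    exact hNN'.trans (sup_le hconj h3)
  intro δ hδ
  have h4 : H0 (q0 ι) ≤ D.map (q0 ι) := by
    refine (Subgroup.closure_le _).2 ?_
    rintro a (⟨i, j, rfl⟩ | ⟨i, j, k, rfl⟩)
    · exact ⟨_, h1 i j, rfl⟩
    · exact ⟨_, h2 i j k, rfl⟩
  obtain ⟨y, hy, hxy⟩ := h4 (IA_H0 hδ)
  have h6 : y⁻¹ * δ ∈ NN ι := QuotientGroup.eq.1 hxy
  have h7 := mul_mem hy (hNN h6)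
  rwa [mul_inv_cancel_left] at h7

/-! ### eigenfunctionals -/

section ef

variable {k : Type*} [Field k]

/-- a functional on `R3` which is an eigenvector for `IA` and invariant under `KBz` -/
structure EF (f : MulAut (FreeGroup ι) → k) (χ : MulAut (FreeGroup ι) → k) : Prop where
  mul : ∀ r ∈ R3 ι, ∀ s ∈ R3 ι, f (r * s) = f r + f s
  chi : ∀ δ ∈ IA (FreeGroup ι), ∀ r ∈ R3 ι, f (δ * r * δ⁻¹) = χ δ * f r
  tri : ∀ δ ∈ KBz ι, ∀ r ∈ R3 ι, f (δ * r * δ⁻¹) = f r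

/-- the elements which fix the functional -/
def TrS (f : MulAut (FreeGroup ι) → k) : Subgroup (MulAut (FreeGroup ι)) where
  carrier := {δ | ∀ r ∈ R3 ι, f (δ * r * δ⁻¹) = f r}
  mul_mem' := by
    intro a b ha hb r hr
    have hn := (inferInstance : (R3 ι).Normal).conj_mem _ hr b
    have e : a * b * r * (a * b)⁻¹ = a * (b * r * b⁻¹) * a⁻¹ := by group
    rw [e, ha _ hn, hb r hr]
  one_mem' := by
    intro r _
    rw [one_mul, inv_one, mul_one]
  inv_mem' := by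
    intro a ha r hr
    have hn := (inferInstance : (R3 ι).Normal).conj_mem _ hr a⁻¹
    have h1 := ha _ hn
    have e : a * (a⁻¹ * r * a⁻¹⁻¹) * a⁻¹ = r := by group
    rw [e] at h1
    exact h1.symm

lemma mem_TrS {f : MulAut (FreeGroup ι) → k} {δ : MulAut (FreeGroup ι)} :
    δ ∈ TrS f ↔ ∀ r ∈ R3 ι, f (δ * r * δ⁻¹) = f r := Iff.rfl

/-- the conjugate functional -/
def cj (g : MulAut (FreeGroup ι)) (f : MulAut (FreeGroup ι) → k) : MulAut (FreeGroup ι) → k :=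
  fun r => f (g * r * g⁻¹)

variable {f χ : MulAut (FreeGroup ι) → k}

lemma EF.cj (h5 : 5 ≤ Fintype.card ι) (h : EF f χ) (g : MulAut (FreeGroup ι)) :
    EF (cj g f) (cj g χ) where
  mul := by
    intro r hr s hs
    have hn := fun r (hr : r ∈ R3 ι) => (inferInstance : (R3 ι).Normal).conj_mem _ hr g
    have e : g * (r * s) * g⁻¹ = (g * r * g⁻¹) * (g * s * g⁻¹) := by group
    show f _ = f _ + f _
    rw [e, h.mul _ (hn r hr) _ (hn s hs)]
  chi := by
    intro δ hδ r hr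
    have hn := fun r (hr : r ∈ R3 ι) => (inferInstance : (R3 ι).Normal).conj_mem _ hr g
    have e : g * (δ * r * δ⁻¹) * g⁻¹ = (g * δ * g⁻¹) * (g * r * g⁻¹) * (g * δ * g⁻¹)⁻¹ := by group
    show f _ = χ _ * f _
    rw [e, h.chi _ ((inferInstance : (IA (FreeGroup ι)).Normal).conj_mem _ hδ g) _ (hn r hr)]
  tri := by
    intro δ hδ r hr
    have hn := fun r (hr : r ∈ R3 ι) => (inferInstance : (R3 ι).Normal).conj_mem _ hr g
    have e : g * (δ * r * δ⁻¹) * g⁻¹ = (g * δ * g⁻¹) * (g * r * g⁻¹) * (g * δ * g⁻¹)⁻¹ := by group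
    show f _ = f _
    rw [e, h.tri _ ((KBz_normal (ι := ι) h5).conj_mem _ hδ g) _ (hn r hr)]

lemma EF.one (h : EF f χ) : f 1 = 0 := by
  have := h.mul 1 (one_mem _) 1 (one_mem _)
  rw [mul_one] at this
  exact left_eq_add.1 this

lemma EF.inv (h : EF f χ) {r : MulAut (FreeGroup ι)} (hr : r ∈ R3 ι) : f r⁻¹ = - f r := by
  have := h.mul r hr r⁻¹ (inv_mem hr)
  rw [mul_inv_cancel, h.one] at this
  exact (neg_eq_of_add_eq_zero_right this.symm).symm

lemma EF.of_one (h : EF f χ) {δ r : MulAut (FreeGroup ι)} (hδ : δ ∈ IA (FreeGroup ι))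
    (hr : r ∈ R3 ι) (h0 : f r ≠ 0) (h1 : f (δ * r * δ⁻¹) = f r) : δ ∈ TrS f := by
  have h2 := h.chi δ hδ r hr
  rw [h1] at h2
  have h3 : χ δ = 1 := by
    have : (χ δ - 1) * f r = 0 := by rw [sub_mul, ← h2, one_mul, sub_self]
    exact sub_eq_zero.1 ((mul_eq_zero.1 this).resolve_right h0)
  intro s hs
  rw [h.chi δ hδ s hs, h3, one_mul]

lemma EF.chi_ne (h : EF f χ) {δ r : MulAut (FreeGroup ι)} (hδ : δ ∈ IA (FreeGroup ι))
    (hr : r ∈ R3 ι) (h0 : f r ≠ 0) : χ δ ≠ 0 := by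
  intro h1
  have hn := (inferInstance : (R3 ι).Normal).conj_mem _ hr δ⁻¹
  have h2 := h.chi δ hδ _ hn
  have e : δ * (δ⁻¹ * r * δ⁻¹⁻¹) * δ⁻¹ = r := by group
  rw [e, h1, zero_mul] at h2
  exact h0 h2

/-- if the functional is fixed by all `cc j` then it is invariant under conjugation on
`rr j γ₃` -/
lemma EF.g3 (h : EF f χ) (h4 : 4 ≤ Fintype.card ι) {j : ι} (hcc : ∀ s, cc j (of s) ∈ TrS f) :
    G3 (fun w => f (rr j w)) where
  mul x hx y hy := by
    show f (rr j (x * y)) = _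
    rw [map_mul, h.mul _ (rr_g3 h4 j hx) _ (rr_g3 h4 j hy)]
  conj x hx g := by
    have h1 : cc j g ∈ TrS f := by
      induction g using FreeGroup.induction_on with
      | C1 => rw [map_one]; exact one_mem _
      | of s => exact hcc s
      | inv_of s ih =>
        show cc j (of s)⁻¹ ∈ _
        rw [map_inv]
        exact inv_mem (hcc s)
      | mul a b ha hb => rw [map_mul]; exact mul_mem ha hb
    have h2 : cc j g * rr j x * (cc j g)⁻¹ = rr j (g * x * g⁻¹) := by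
      have e1 : rr j (g * x * g⁻¹) = rr j g * rr j x * (rr j g)⁻¹ := by
        rw [map_mul, map_mul, map_inv]
      have e2 := ll_rr_comm j g (g * x * g⁻¹)
      rw [e1] at e2
      have e3 : cc j g = ll j g * rr j g := cc_eq j g
      rw [e1, e3]
      calc ll j g * rr j g * rr j x * (ll j g * rr j g)⁻¹ =
          ll j g * (rr j g * rr j x * (rr j g)⁻¹) * (ll j g)⁻¹ := by group
        _ = _ := by rw [e2]; group
    show f (rr j (g * x * g⁻¹)) = f (rr j x)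
    rw [← h2]
    exact h1 _ (rr_g3 h4 j hx)

end ef

end Pool.Agent.V5helper31.CH
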