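import Pool.Agent.V5helper31.CH.Grp
import Pool.Agent.V5helper31.CF.Series

set_option autoImplicit false
set_option linter.unusedSectionVars false

/-! Elementary abelian quotients of a normal subgroup with few generators, and central factors of
normal series with few generators. -/

namespace Pool.Agent.V5helper31.CH

open Pool.Agent.V5helper31.CF
open scoped commutatorElement

variable {A : Type} [Group A]

/-- elementary abelian quotients of `R`, by normal subgroups of `A`, with fewer than `D`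
generators are trivial -/
def Small (R : Subgroup A) (D : ℕ) : Prop :=
  ∀ (X : Subgroup A), X.Normal → ∀ p : ℕ, p.Prime → ∀ d < D, Cond R X p d → R ≤ X

section basic

variable {R X : Subgroup A} [R.Normal] [X.Normal] {p : ℕ}

/-- the vector space structure -/
@[reducible] def modOf [CM (HR R X)] (hp : ∀ r ∈ R, r ^ p ∈ X) :
    Module (ZMod p) (Additive (HR R X)) :=
  AddCommGroup.zmodModule (n := p) (by
    intro x
    have h : ∀ y : HR R X, y ^ p = 1 := by
      rintro ⟨y, r, hr, rfl⟩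
      apply Subtype.ext
      show (QuotientGroup.mk' X r) ^ p = 1
      rw [← map_pow]
      exact (QuotientGroup.eq_one_iff _).2 (hp r hr)
    exact congrArg Additive.ofMul (h x.toMul))

lemma fin_of [Fact p.Prime] [CM (HR R X)] [Module (ZMod p) (Additive (HR R X))] {d : ℕ}
    (h : Cond R X p d) : Module.Finite (ZMod p) (Additive (HR R X)) ∧
      Module.finrank (ZMod p) (Additive (HR R X)) ≤ d := by
  obtain ⟨g, hg, hgen⟩ := h.gen
  let gg : Fin d → Additive (HR R X) := fun i => cl X (hg i)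
  have key : ∀ s ∈ Subgroup.closure (Set.range g), ∃ hs : s ∈ R,
      cl X hs ∈ Submodule.span (ZMod p) (Set.range gg) := by
    intro s hs
    induction hs using Subgroup.closure_induction with
    | mem s hs =>
      obtain ⟨i, rfl⟩ := hs
      exact ⟨hg i, Submodule.subset_span ⟨i, rfl⟩⟩
    | one =>
      refine ⟨one_mem _, ?_⟩
      rw [cl_eq_zero.2 (one_mem X)]
      exact Submodule.zero_mem _
    | mul s t _ _ h1 h2 =>
      obtain ⟨hs, h1⟩ := h1
      obtain ⟨ht, h2⟩ := h2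
      refine ⟨mul_mem hs ht, ?_⟩
      rw [cl_mul hs ht]
      exact Submodule.add_mem _ h1 h2
    | inv s _ h1 =>
      obtain ⟨hs, h1⟩ := h1
      refine ⟨inv_mem hs, ?_⟩
      have h3 : cl X hs + cl X (inv_mem hs) = 0 := by
        rw [← cl_mul hs (inv_mem hs) (by rw [mul_inv_cancel]; exact one_mem _), cl_eq_zero,
          mul_inv_cancel]
        exact one_mem _
      rw [eq_neg_of_add_eq_zero_right h3]
      exact Submodule.neg_mem _ h1
  have hspan : Submodule.span (ZMod p) (Set.range gg) = ⊤ := by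
    refine Submodule.eq_top_iff'.2 fun x => ?_
    obtain ⟨r, hr, rfl⟩ := cl_surj x
    obtain ⟨s, hs, t, ht, hst⟩ := Subgroup.mem_sup_of_normal_right.1 (hgen hr)
    obtain ⟨hs', h1⟩ := key s hs
    have e : cl X hr = cl X hs' := (cl_eq_of (by rw [← hst, inv_mul_cancel_left]; exact ht)).symm
    rw [e]
    exact h1
  have hfin : Module.Finite (ZMod p) (Additive (HR R X)) :=
    ⟨Submodule.fg_def.2 ⟨Set.range gg, Set.finite_range gg, hspan⟩⟩
  refine ⟨hfin, ?_⟩
  have h2 := finrank_range_le_card (R := ZMod p) gg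
  rwa [Set.finrank, hspan, finrank_top, Fintype.card_fin] at h2

variable (R X p) in
/-- the subspace given by a subgroup -/
def MM [CM (HR R X)] [Module (ZMod p) (Additive (HR R X))] (Y : Subgroup A) :
    Submodule (ZMod p) (Additive (HR R X)) :=
  Submodule.span (ZMod p) {v | ∃ (r : A) (hr : r ∈ R), r ∈ Y ∧ v = cl X hr}

variable (p) in
lemma mem_of_MM [CM (HR R X)] [Module (ZMod p) (Additive (HR R X))] {Y : Subgroup A} (hXY : X ≤ Y)
    {r : A} (hr : r ∈ R) (h : cl X hr ∈ MM R X p Y) : r ∈ Y := by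
  let Ys : AddSubgroup (Additive (HR R X)) :=
    { carrier := {v | ∃ r, ∃ hr : r ∈ R, r ∈ Y ∧ cl X hr = v}
      add_mem' := by
        rintro _ _ ⟨r, hr, hrY, rfl⟩ ⟨s, hs, hsY, rfl⟩
        exact ⟨r * s, mul_mem hr hs, mul_mem hrY hsY, cl_mul hr hs _⟩
      zero_mem' := ⟨1, one_mem _, one_mem _, cl_eq_zero.2 (one_mem _)⟩
      neg_mem' := by
        rintro _ ⟨r, hr, hrY, rfl⟩
        refine ⟨r⁻¹, inv_mem hr, inv_mem hrY, ?_⟩
        rw [eq_neg_iff_add_eq_zero, ← cl_mul (inv_mem hr) hr (by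
          rw [inv_mul_cancel]; exact one_mem _), cl_eq_zero, inv_mul_cancel]
        exact one_mem _ }
  have h2 : MM R X p Y ≤ AddSubgroup.toZModSubmodule p Ys := by
    refine Submodule.span_le.2 ?_
    rintro _ ⟨r, hr, hrY, rfl⟩
    exact ⟨r, hr, hrY, rfl⟩
  obtain ⟨s, hs, hsY, he⟩ := h2 h
  have h2 : s⁻¹ * r ∈ X := QuotientGroup.eq.1 (cl_eq.1 he)
  have h3 := mul_mem hsY (hXY h2)
  rwa [mul_inv_cancel_left] at h3

/-- **It suffices to consider maximal proper normal subgroups.** -/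
theorem descend {D : ℕ} (H : ∀ (X : Subgroup A) [X.Normal] (p : ℕ) [Fact p.Prime]
    [CM (HR R X)] [Module (ZMod p) (Additive (HR R X))]
    [FiniteDimensional (ZMod p) (Additive (HR R X))],
    Module.finrank (ZMod p) (Additive (HR R X)) < D → X ≤ R →
    (∀ r ∈ R, ∀ s ∈ R, ⁅r, s⁆ ∈ X) →
    (∀ Y : Subgroup A, Y.Normal → X ≤ Y → Y ≤ R → Y = X ∨ R ≤ Y) → R ≤ X) : Small R D := by
  intro X hX p hp d hd h
  have : Fact p.Prime := ⟨hp⟩
  by_contra hne
  have hCM : CM (HR R X) := cm_of h.comm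
  obtain ⟨I0⟩ : Nonempty (Module (ZMod p) (Additive (HR R X))) := ⟨modOf h.pow⟩
  have hfin := (fin_of (p := p) h).1
  have hNo : IsNoetherian (ZMod p) (Additive (HR R X)) := inferInstance
  let 𝒮 : Set (Submodule (ZMod p) (Additive (HR R X))) :=
    {W | ∃ Y : Subgroup A, Y.Normal ∧ X ≤ Y ∧ Y ≤ R ∧ ¬ R ≤ Y ∧ W = MM R X p Y}
  have hS : 𝒮.Nonempty := ⟨MM R X p X, X, hX, le_rfl, h.le, hne, rfl⟩
  obtain ⟨_, ⟨Y, hY, hXY, hYR, hRY, rfl⟩, hmax⟩ :=
    set_has_maximal_iff_noetherian.2 hNo 𝒮 hS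
  apply hRY
  have hY' := h.mono hXY hYR
  have hCM' : CM (HR R Y) := cm_of hY'.comm
  obtain ⟨I1⟩ : Nonempty (Module (ZMod p) (Additive (HR R Y))) := ⟨modOf hY'.pow⟩
  obtain ⟨hfin', hf'⟩ := fin_of (p := p) hY'
  refine H Y p (lt_of_le_of_lt hf' hd) hYR hY'.comm fun Z hZ hYZ hZR => ?_
  by_cases hRZ : R ≤ Z
  · exact Or.inr hRZ
  left
  have h1 : MM R X p Y ≤ MM R X p Z := by
    refine Submodule.span_mono ?_
    rintro _ ⟨r, hr, hrY, rfl⟩
    exact ⟨r, hr, hYZ hrY, rfl⟩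
  have h2 := hmax (MM R X p Z) ⟨Z, hZ, hXY.trans hYZ, hZR, hRZ, rfl⟩
  have h3 : MM R X p Y = MM R X p Z := by
    by_contra hc
    exact h2 (lt_of_le_of_ne h1 hc)
  refine le_antisymm (fun z hz => ?_) hYZ
  have h4 : cl X (hZR hz) ∈ MM R X p Y := by
    rw [h3]
    exact Submodule.subset_span ⟨z, hZR hz, hz, rfl⟩
  exact mem_of_MM p hXY (hZR hz) h4

end basic

theorem exponent {R V : Subgroup A} [V.Normal]
    (hp : ∀ p : ℕ, p.Prime → ∀ r ∈ R, ∃ s ∈ R, QuotientGroup.mk' V r =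
      (QuotientGroup.mk' V s) ^ p) :
    ∀ m : ℕ, 0 < m → (∀ r ∈ R, r ^ m ∈ V) → R ≤ V := by
  have mk1 : ∀ x : A, QuotientGroup.mk' V x = 1 ↔ x ∈ V := fun x => QuotientGroup.eq_one_iff x
  intro m
  induction m using Nat.strong_induction_on with
  | _ m ih =>
    intro hm h
    by_cases h1 : m = 1
    · subst h1
      intro r hr
      have := h r hr
      rwa [pow_one] at this
    · have hpr := Nat.minFac_prime h1
      obtain ⟨m', hm'⟩ := Nat.minFac_dvd m
      have h2 : 0 < m' := by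
        rcases Nat.eq_zero_or_pos m' with h3 | h3
        · rw [h3, mul_zero] at hm'; omega
        · exact h3
      have h3 : m' < m := by
        have := hpr.two_le
        calc m' < 2 * m' := by omega
          _ ≤ m.minFac * m' := Nat.mul_le_mul_right _ this
          _ = m := hm'.symm
      refine ih m' h3 h2 fun r hr => ?_
      obtain ⟨s, hs, hrs⟩ := hp _ hpr r hr
      rw [← mk1, map_pow, hrs, ← pow_mul, ← hm', ← map_pow]
      exact (mk1 _).2 (h s hs)

/-- **Factors with small centre and trivial action of `R`.** -/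
theorem step_lemma {R : Subgroup A} [hRn : R.Normal] {D : ℕ} (hsmall : Small R D)
    {V U : Subgroup A} [hV : V.Normal]
    (hRU : R ≤ U) (hact : ∀ r ∈ R, ∀ x ∈ U, ⁅r, x⁆ ∈ V) {d : ℕ}
    (hd : d < D)
    (g : Fin d → A) (hg : ∀ i, g i ∈ Zm V U)
    (hgen : Zm V U ≤ Subgroup.closure (Set.range g) ⊔ V) : R ≤ V := by
  have mk1 : ∀ x : A, QuotientGroup.mk' V x = 1 ↔ x ∈ V := fun x => QuotientGroup.eq_one_iff x
  have hRZ : R ≤ Zm V U := fun r hr => mem_Zm.2 ⟨hRU hr, hact r hr⟩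
  let C : Subgroup (A ⧸ V) := (Zm V U).map (QuotientGroup.mk' V)
  have hCM : CM C := by
    refine ⟨?_⟩
    rintro ⟨_, r, hr, rfl⟩ ⟨_, s, hs, rfl⟩
    exact Subtype.ext (comm_iff'.1 ((mem_Zm.1 hr).2 s (mem_Zm.1 hs).1)).eq
  let c : Fin d → Additive C := fun i =>
    Additive.ofMul ⟨QuotientGroup.mk' V (g i), ⟨g i, hg i, rfl⟩⟩
  -- closures and spans
  have key : ∀ {m : ℕ} (b : Fin m → A) (hb : ∀ i, b i ∈ Zm V U),
      ∀ s ∈ Subgroup.closure (Set.range b), ∃ hs : s ∈ Zm V U,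
        (Additive.ofMul (⟨QuotientGroup.mk' V s, ⟨s, hs, rfl⟩⟩ : C)) ∈
          Submodule.span ℤ (Set.range fun i => (Additive.ofMul
            (⟨QuotientGroup.mk' V (b i), ⟨b i, hb i, rfl⟩⟩ : C) : Additive C)) := by
    intro m b hb s hs
    induction hs using Subgroup.closure_induction with
    | mem s hs =>
      obtain ⟨i, rfl⟩ := hs
      exact ⟨hb i, Submodule.subset_span ⟨i, rfl⟩⟩
    | one =>
      refine ⟨one_mem _, ?_⟩
      have : (⟨QuotientGroup.mk' V 1, ⟨1, one_mem _, rfl⟩⟩ : C) = 1 := Subtype.ext (map_one _)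
      rw [this]
      exact Submodule.zero_mem _
    | mul s t _ _ h1 h2 =>
      obtain ⟨hs, h1⟩ := h1
      obtain ⟨ht, h2⟩ := h2
      refine ⟨mul_mem hs ht, ?_⟩
      have h3 := Submodule.add_mem _ h1 h2
      have h4 : (⟨QuotientGroup.mk' V (s * t), ⟨s * t, mul_mem hs ht, rfl⟩⟩ : C) =
          (⟨QuotientGroup.mk' V s, ⟨s, hs, rfl⟩⟩ : C) *
            ⟨QuotientGroup.mk' V t, ⟨t, ht, rfl⟩⟩ := Subtype.ext (map_mul _ _ _)
      rw [h4]
      exact h3
    | inv s _ h1 =>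
      obtain ⟨hs, h1⟩ := h1
      refine ⟨inv_mem hs, ?_⟩
      have h3 := Submodule.neg_mem _ h1
      have h4 : (⟨QuotientGroup.mk' V s⁻¹, ⟨s⁻¹, inv_mem hs, rfl⟩⟩ : C) =
          (⟨QuotientGroup.mk' V s, ⟨s, hs, rfl⟩⟩ : C)⁻¹ := Subtype.ext (map_inv _ _)
      rw [h4]
      exact h3
  have hspan : Submodule.span ℤ (Set.range c) = ⊤ := by
    ext x
    refine ⟨fun _ => Submodule.mem_top, fun _ => ?_⟩
    obtain ⟨y, hy⟩ : ∃ y : C, Additive.ofMul y = x := ⟨Additive.toMul x, rfl⟩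
    obtain ⟨_, r, hr, rfl⟩ := y
    obtain ⟨s, hs, t, ht, hst⟩ := Subgroup.mem_sup_of_normal_right.1 (hgen hr)
    obtain ⟨hs', h1⟩ := key g hg s hs
    have e : (⟨QuotientGroup.mk' V r, ⟨r, hr, rfl⟩⟩ : C) =
        ⟨QuotientGroup.mk' V s, ⟨s, hs', rfl⟩⟩ := by
      apply Subtype.ext
      show QuotientGroup.mk' V r = QuotientGroup.mk' V s
      rw [← hst, map_mul, (mk1 _).2 ht, mul_one]
    rw [← hy, e]
    exact h1
  -- the submodule of the classes of `R`
  let B : Submodule ℤ (Additive C) := AddSubgroup.toIntSubmodule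
    (Subgroup.toAddSubgroup ((R.map (QuotientGroup.mk' V)).subgroupOf C))
  have hB : ∀ y : C, Additive.ofMul y ∈ B ↔ ∃ r ∈ R, QuotientGroup.mk' V r = y :=
    fun y => Iff.rfl
  obtain ⟨m, hm, b, hb⟩ := sub_gen c hspan B
  have hb' : ∀ i, ∃ r ∈ R, QuotientGroup.mk' V r = (Additive.toMul (b i) : C) := fun i =>
    (hB (Additive.toMul (b i))).1 (hb ▸ Submodule.subset_span ⟨i, rfl⟩)
  choose g' hg' hgb using hb'
  have hgen' : ∀ r ∈ R, ∃ s ∈ Subgroup.closure (Set.range g'), ∃ t ∈ V, s * t = r := by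
    intro r hr
    have h1 : (Additive.ofMul (⟨QuotientGroup.mk' V r, ⟨r, hRZ hr, rfl⟩⟩ : C)) ∈
        Submodule.span ℤ (Set.range b) := by
      rw [hb]
      exact (hB _).2 ⟨r, hr, rfl⟩
    have h2 : ∀ x ∈ Submodule.span ℤ (Set.range b), ∃ s ∈ Subgroup.closure (Set.range g'),
        QuotientGroup.mk' V s = (Additive.toMul x : C) := by
      intro x hx
      induction hx using Submodule.span_induction with
      | mem x hx =>
        obtain ⟨i, rfl⟩ := hx
        exact ⟨g' i, Subgroup.subset_closure ⟨i, rfl⟩, hgb i⟩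
      | zero => exact ⟨1, one_mem _, map_one _⟩
      | add x y _ _ hx hy =>
        obtain ⟨s, hs, hs'⟩ := hx
        obtain ⟨t, ht, ht'⟩ := hy
        refine ⟨s * t, mul_mem hs ht, ?_⟩
        rw [map_mul, hs', ht']
        rfl
      | smul a x _ hx =>
        obtain ⟨s, hs, hs'⟩ := hx
        refine ⟨s ^ a, zpow_mem hs a, ?_⟩
        rw [map_zpow, hs']
        rfl
    obtain ⟨s, hs, hs'⟩ := h2 _ h1
    refine ⟨s, hs, s⁻¹ * r, ?_, by group⟩
    exact QuotientGroup.eq.1 hs'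
  have hclo : Subgroup.closure (Set.range g') ≤ R := (Subgroup.closure_le _).2 (by
    rintro _ ⟨i, rfl⟩
    exact hg' i)
  have hcm : ∀ r ∈ R, ∀ s ∈ R, Commute (QuotientGroup.mk' V r) (QuotientGroup.mk' V s) :=
    fun r hr s hs => comm_iff'.1 (hact r hr s (hRU hs))
  -- divisibility
  have hdiv : ∀ p : ℕ, p.Prime → ∀ r ∈ R, ∃ s ∈ R, QuotientGroup.mk' V r =
      (QuotientGroup.mk' V s) ^ p := by
    intro p hp
    have : Fact p.Prime := ⟨hp⟩
    let X : Subgroup A :=
      { carrier := {r | r ∈ R ∧ ∃ s ∈ R, QuotientGroup.mk' V r =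
          (QuotientGroup.mk' V s) ^ p}
        mul_mem' := by
          rintro a b ⟨ha, s, hs, hs'⟩ ⟨hb, t, ht, ht'⟩
          refine ⟨mul_mem ha hb, s * t, mul_mem hs ht, ?_⟩
          rw [map_mul, map_mul, hs', ht', (hcm s hs t ht).mul_pow]
        one_mem' := ⟨one_mem _, 1, one_mem _, by rw [map_one, one_pow]⟩
        inv_mem' := by
          rintro a ⟨ha, s, hs, hs'⟩
          exact ⟨inv_mem ha, s⁻¹, inv_mem hs, by rw [map_inv, map_inv, hs', inv_pow]⟩ }
    have hmX : ∀ x, x ∈ X ↔ x ∈ R ∧ ∃ s ∈ R, QuotientGroup.mk' V x =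
      (QuotientGroup.mk' V s) ^ p := fun _ => Iff.rfl
    have hXn : X.Normal := by
      refine ⟨?_⟩
      rintro a ⟨ha, s, hs, hs'⟩ k
      refine ⟨hRn.conj_mem _ ha k, k * s * k⁻¹, hRn.conj_mem _ hs k, ?_⟩
      rw [map_mul, map_mul, map_mul, map_mul, hs', map_inv, conj_pow]
    have hX : X ≤ R := fun x hx => ((hmX x).1 hx).1
    have h1 : R ≤ X := by
      refine hsmall X hXn p hp m (by omega) ⟨hX, ?_, ?_, g', hg', ?_⟩
      · intro r hr s hs
        refine (hmX _).2 ⟨?_, 1, one_mem _, ?_⟩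
        · rw [commutatorElement_def]
          exact mul_mem (mul_mem (mul_mem hr hs) (inv_mem hr)) (inv_mem hs)
        · rw [map_one, one_pow]
          exact (mk1 _).2 (hact r hr s (hRU hs))
      · intro r hr
        exact (hmX _).2 ⟨pow_mem hr p, r, hr, map_pow _ _ _⟩
      · intro r hr
        obtain ⟨s, hs, t, ht, hst⟩ := hgen' r hr
        rw [← hst]
        refine Subgroup.mul_mem_sup hs ((hmX _).2 ⟨?_, 1, one_mem _, ?_⟩)
        · have : t = s⁻¹ * r := by rw [← hst]; group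
          rw [this]
          exact mul_mem (inv_mem (hclo hs)) hr
        · rw [map_one, one_pow]
          exact (mk1 _).2 ht
    exact fun r hr => ((hmX r).1 (h1 hr)).2
  -- a bound for the exponent
  have hfin : Module.Finite ℤ (Additive C) :=
    ⟨Submodule.fg_def.2 ⟨Set.range c, Set.finite_range c, hspan⟩⟩
  have hfg : B.FG := IsNoetherian.noetherian B
  obtain ⟨a, ha, ha'⟩ := Submodule.exists_sub_one_mem_and_smul_eq_zero_of_fg_of_le_smul
    (Ideal.span {(2 : ℤ)}) B hfg (by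
      intro x hx
      obtain ⟨r, hr, hrx⟩ := (hB (Additive.toMul x)).1 hx
      obtain ⟨s, hs, hrs⟩ := hdiv 2 Nat.prime_two r hr
      have h1 : x = (2 : ℤ) • (Additive.ofMul (⟨QuotientGroup.mk' V s, ⟨s, hRZ hs, rfl⟩⟩ : C)) := by
        apply Additive.toMul.injective
        apply Subtype.ext
        show ((Additive.toMul x : C) : A ⧸ V) =
          (QuotientGroup.mk' V s) ^ (2 : ℤ)
        rw [← hrx, hrs]
        exact (zpow_natCast _ 2).symm
      rw [h1]
      exact Submodule.smul_mem_smul (Ideal.subset_span rfl) ((hB _).2 ⟨s, hs, rfl⟩))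
  have ha0 : a ≠ 0 := by
    rintro rfl
    rw [Ideal.mem_span_singleton] at ha
    omega
  refine exponent hdiv a.natAbs (Int.natAbs_pos.2 ha0) fun r hr => ?_
  have h1 := ha' _ ((hB ⟨QuotientGroup.mk' V r, ⟨r, hRZ hr, rfl⟩⟩).2 ⟨r, hr, rfl⟩)
  have h2 : (QuotientGroup.mk' V r) ^ a = 1 :=
    congrArg Subtype.val (congrArg Additive.toMul h1)
  have h3 : r ^ a ∈ V := by
    rw [← mk1, map_zpow]
    exact h2
  rcases Int.natAbs_eq a with h4 | h4
  · rw [h4, zpow_natCast] at h3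
    exact h3
  · rw [h4, zpow_neg, zpow_natCast] at h3
    exact inv_mem_iff.1 h3

end Pool.Agent.V5helper31.CH
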