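import Mathlib

set_option autoImplicit false

/-! A lower bound `2 ^ m` for the dimension of a representation of a group in which an operator
has an eigenvalue `≠ 1`. -/

namespace Pool.Agent.V5helper31.CH

open Polynomial

section closed

variable {K V α : Type*} [Field K] [AddCommGroup V] [Module K V] [FiniteDimensional K V]
  [IsAlgClosed K] [DecidableEq α]

/-- the basic induction -/
theorem spec (z₀ : Module.End K V) (z t : α → Module.End K V) {μ₀ : K} (hμ : μ₀ ≠ 1)
    (hzz : ∀ p q, z p * z q = z q * z p) (P : Finset α)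
    (ht : ∀ p ∈ P, Function.Injective (t p)) (hz : ∀ p ∈ P, Function.Injective (z p))
    (htz : ∀ p ∈ P, ∀ q ∈ P, p ≠ q → t p * z q = z q * t p)
    (hrel : ∀ p ∈ P, t p * z p = z p * z₀ * t p) :
    ∀ W : Submodule K V, W ≠ ⊥ → (∀ v ∈ W, z₀ v = μ₀ • v) → (∀ p ∈ P, ∀ v ∈ W, z p v ∈ W) →
      (∀ p ∈ P, ∀ v ∈ W, t p v ∈ W) → 2 ^ P.card ≤ Module.finrank K W := by
  induction P using Finset.induction_on with
  | empty =>
    intro W hW _ _ _
    rw [Finset.card_empty, pow_zero]
    exact Nat.one_le_iff_ne_zero.2 (fun h => hW (Submodule.finrank_eq_zero.1 h))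
  | insert p P hp ih =>
    intro W hW h0 h1 h2
    have hpP : p ∈ insert p P := Finset.mem_insert_self p P
    have hsub : ∀ q ∈ P, q ∈ insert p P := fun q hq => Finset.mem_insert_of_mem hq
    have hne : ∀ q ∈ P, q ≠ p := fun q hq h => hp (h ▸ hq)
    -- an eigenvector of `z p` in `W`
    obtain ⟨μ, v, hvW, hv0, hv⟩ : ∃ (μ : K) (v : V), v ∈ W ∧ v ≠ 0 ∧ z p v = μ • v := by
      have hN : Nontrivial W := Submodule.nontrivial_iff_ne_bot.2 hW
      obtain ⟨μ, hμ'⟩ := Module.End.exists_eigenvalue ((z p).restrict (h1 p hpP))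
      obtain ⟨v, hv⟩ := hμ'.exists_hasEigenvector
      refine ⟨μ, v, v.2, fun h => hv.2 (Subtype.ext h), ?_⟩
      exact congrArg Subtype.val hv.apply_eq_smul
    let W1 : Submodule K V := W ⊓ LinearMap.ker (z p - μ • 1)
    have hW1 : ∀ u, u ∈ W1 ↔ u ∈ W ∧ z p u = μ • u := by
      intro u
      rw [Submodule.mem_inf, LinearMap.mem_ker, LinearMap.sub_apply, sub_eq_zero]
      rfl
    have hμ0 : μ ≠ 0 := by
      rintro rfl
      rw [zero_smul] at hv
      exact hv0 (hz p hpP (hv.trans (map_zero _).symm))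
    have hb : W1 ≠ ⊥ := by
      intro h
      have : v ∈ W1 := (hW1 v).2 ⟨hvW, hv⟩
      rw [h] at this
      exact hv0 ((Submodule.mem_bot K).1 this)
    have ih1 := ih (fun q hq => ht q (hsub q hq)) (fun q hq => hz q (hsub q hq))
      (fun q hq r hr => htz q (hsub q hq) r (hsub r hr)) (fun q hq => hrel q (hsub q hq)) W1 hb
      (fun u hu => h0 u ((hW1 u).1 hu).1) (fun q hq u hu => ?_) fun q hq u hu => ?_
    · let W2 : Submodule K V := W1.map (t p)
      have hd : Disjoint W1 W2 := by
        rw [Submodule.disjoint_def]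
        rintro _ hu ⟨u, hu', rfl⟩
        obtain ⟨a1, a2⟩ := (hW1 _).1 hu'
        obtain ⟨b1, b2⟩ := (hW1 _).1 hu
        have e1 : t p (z p u) = z p (z₀ (t p u)) := congrArg (fun f : Module.End K V => f u) (hrel p hpP)
        rw [a2, map_smul, h0 _ b1, map_smul, b2, smul_smul] at e1
        have e2 : (μ - μ₀ * μ) • t p u = 0 := by rw [sub_smul, e1, sub_self]
        rcases smul_eq_zero.1 e2 with h | h
        · exfalso
          have h3 : μ * (1 - μ₀) = 0 := by linear_combination h
          rcases mul_eq_zero.1 h3 with h4 | h4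
          · exact hμ0 h4
          · exact hμ (sub_eq_zero.1 h4).symm
        · exact h
      have hf : Module.finrank K W2 = Module.finrank K W1 :=
        (Submodule.equivMapOfInjective (t p) (ht p hpP) W1).finrank_eq.symm
      have hle : W1 ⊔ W2 ≤ W := by
        refine sup_le inf_le_left ?_
        rintro _ ⟨u, hu, rfl⟩
        exact h2 p hpP u ((hW1 u).1 hu).1
      have h3 := Submodule.finrank_mono hle
      have h4 := Submodule.finrank_sup_add_finrank_inf_eq W1 W2
      rw [hd.eq_bot, finrank_bot, add_zero] at h4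
      rw [Finset.card_insert_of_notMem hp, pow_succ]
      omega
    · obtain ⟨a1, a2⟩ := (hW1 u).1 hu
      refine (hW1 _).2 ⟨h1 q (hsub q hq) u a1, ?_⟩
      have e := congrArg (fun f : Module.End K V => f u) (hzz p q)
      change z p (z q u) = z q (z p u) at e
      rw [e, a2, map_smul]
    · obtain ⟨a1, a2⟩ := (hW1 u).1 hu
      refine (hW1 _).2 ⟨h2 q (hsub q hq) u a1, ?_⟩
      have e := congrArg (fun f : Module.End K V => f u) (htz q (hsub q hq) p hpP (hne q hq))
      change t q (z p u) = z p (t q u) at e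
      rw [← e, a2, map_smul]

/-- the dimension is at least `2 ^ m` if `z₀` has an eigenvalue `≠ 1` -/
theorem spec2 (z₀ : Module.End K V) (z t : α → Module.End K V) {μ₀ : K} (hμ : μ₀ ≠ 1)
    (hμ₀ : z₀.HasEigenvalue μ₀)
    (hzz : ∀ p q, z p * z q = z q * z p) (P : Finset α)
    (ht : ∀ p ∈ P, Function.Injective (t p)) (hz : ∀ p ∈ P, Function.Injective (z p))
    (htz : ∀ p ∈ P, ∀ q ∈ P, p ≠ q → t p * z q = z q * t p)
    (hz0 : ∀ p ∈ P, z p * z₀ = z₀ * z p) (ht0 : ∀ p ∈ P, t p * z₀ = z₀ * t p)
    (hrel : ∀ p ∈ P, t p * z p = z p * z₀ * t p) : 2 ^ P.card ≤ Module.finrank K V := by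
  have hm : ∀ f : Module.End K V, f * z₀ = z₀ * f → ∀ v ∈ z₀.eigenspace μ₀, f v ∈ z₀.eigenspace μ₀ := by
    intro f hf v hv
    rw [Module.End.mem_eigenspace_iff] at hv ⊢
    have e := congrArg (fun f : Module.End K V => f v) hf
    change f (z₀ v) = z₀ (f v) at e
    rw [← e, hv, map_smul]
  exact (spec z₀ z t hμ hzz P ht hz htz hrel (z₀.eigenspace μ₀) hμ₀
    (fun v hv => Module.End.mem_eigenspace_iff.1 hv) (fun p hp => hm _ (hz0 p hp))
    fun p hp => hm _ (ht0 p hp)).trans (Submodule.finrank_le _)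

end closed

section gen

variable {F V α : Type*} [Field F] [AddCommGroup V] [Module F V] [FiniteDimensional F V]
  [DecidableEq α]

/-- **Unipotence in small dimensions.** -/
theorem unip_small (z₀ : Module.End F V) (z t z' t' : α → Module.End F V)
    (hzz : ∀ p q, z p * z q = z q * z p) (P : Finset α)
    (ht : ∀ p, t' p * t p = 1) (hz : ∀ p, z' p * z p = 1)
    (htz : ∀ p ∈ P, ∀ q ∈ P, p ≠ q → t p * z q = z q * t p)
    (hz0 : ∀ p ∈ P, z p * z₀ = z₀ * z p) (ht0 : ∀ p ∈ P, t p * z₀ = z₀ * t p)
    (hrel : ∀ p ∈ P, t p * z p = z p * z₀ * t p) (hd : Module.finrank F V < 2 ^ P.card) :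
    IsNilpotent (z₀ - 1) := by
  let K := AlgebraicClosure F
  let b : Module.End F V →+* Module.End K (TensorProduct F K V) :=
    (Module.End.baseChangeHom F K V).toRingHom
  have hinj : ∀ f g : Module.End F V, g * f = 1 → Function.Injective (b f) := by
    intro f g h
    have h1 : b g * b f = 1 := by rw [← map_mul, h, map_one]
    exact Function.LeftInverse.injective (g := b g) fun v =>
      congrArg (fun f : Module.End K (TensorProduct F K V) => f v) h1
  have hev : ∀ μ : K, (b z₀).HasEigenvalue μ → μ = 1 := by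
    intro μ hμ
    by_contra hne
    have h := spec2 (b z₀) (fun p => b (z p)) (fun p => b (t p)) hne hμ
      (fun p q => by rw [← map_mul, hzz, map_mul]) P (fun p _ => hinj _ _ (ht p))
      (fun p _ => hinj _ _ (hz p))
      (fun p hp q hq hpq => by rw [← map_mul, htz p hp q hq hpq, map_mul])
      (fun p hp => by rw [← map_mul, hz0 p hp, map_mul])
      (fun p hp => by rw [← map_mul, ht0 p hp, map_mul])
      (fun p hp => by rw [← map_mul, hrel p hp, map_mul, map_mul])
    rw [Module.finrank_baseChange] at h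
    omega
  have hcp : (b z₀).charpoly = z₀.charpoly.map (algebraMap F K) :=
    LinearMap.charpoly_baseChange z₀ K
  have hroot : ∀ μ ∈ (b z₀).charpoly.roots, μ = 1 := by
    intro μ h
    refine hev μ ?_
    rw [Module.End.hasEigenvalue_iff_isRoot_charpoly]
    exact Polynomial.isRoot_of_mem_roots h
  have hsp : (b z₀).charpoly = (X - C 1) ^ Multiset.card (b z₀).charpoly.roots := by
    conv_lhs => rw [(IsAlgClosed.splits (b z₀).charpoly).eq_prod_roots_of_monic
      (LinearMap.charpoly_monic _)]
    rw [Multiset.eq_replicate_of_mem hroot, Multiset.map_replicate, Multiset.prod_replicate,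
      Multiset.card_replicate]
  have hcp2 : z₀.charpoly = (X - C 1) ^ Multiset.card (b z₀).charpoly.roots := by
    apply Polynomial.map_injective (algebraMap F K) (algebraMap F K).injective
    rw [← hcp]
    conv_lhs => rw [hsp]
    simp only [Polynomial.map_pow, Polynomial.map_sub, Polynomial.map_X, map_one, Polynomial.map_one]
  refine ⟨Multiset.card (b z₀).charpoly.roots, ?_⟩
  have h := LinearMap.aeval_self_charpoly z₀
  rw [hcp2, map_pow, map_sub, aeval_X, aeval_C, map_one] at h
  exact h

end gen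

end Pool.Agent.V5helper31.CH
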