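import Pool.Agent.V5helper31.CF.Dim
import Pool.Agent.V5helper31.CH.Spec

set_option autoImplicit false
set_option linter.unusedSectionVars false

/-! Elementary abelian quotients `R / X` of a normal subgroup `R` of a group `A`, with the
conjugation action of `A`. -/

namespace Pool.Agent.V5helper31.CH

open Pool.Agent.V5helper31.CF
open scoped commutatorElement

variable {A : Type} [Group A]

/-- `R / X` is elementary abelian, with `d` generators -/
structure Cond (R X : Subgroup A) (p d : ℕ) : Prop where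
  le : X ≤ R
  comm : ∀ r ∈ R, ∀ s ∈ R, ⁅r, s⁆ ∈ X
  pow : ∀ r ∈ R, r ^ p ∈ X
  gen : ∃ g : Fin d → A, (∀ i, g i ∈ R) ∧ R ≤ Subgroup.closure (Set.range g) ⊔ X

lemma Cond.mono {R X Y : Subgroup A} {p d : ℕ} (h : Cond R X p d) (h1 : X ≤ Y) (h2 : Y ≤ R) :
    Cond R Y p d where
  le := h2
  comm r hr s hs := h1 (h.comm r hr s hs)
  pow r hr := h1 (h.pow r hr)
  gen := by
    obtain ⟨g, hg, hg'⟩ := h.gen
    exact ⟨g, hg, hg'.trans (sup_le_sup_left h1 _)⟩

section basic

variable (R X : Subgroup A) [R.Normal] [X.Normal]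

/-- the image of `R` in `A / X` -/
abbrev HR : Subgroup (A ⧸ X) := R.map (QuotientGroup.mk' X)

instance HR_normal : (HR R X).Normal := Subgroup.Normal.map inferInstance _ (QuotientGroup.mk'_surjective X)

variable {R X}

lemma cm_of (hc : ∀ r ∈ R, ∀ s ∈ R, ⁅r, s⁆ ∈ X) : CM (HR R X) := by
  refine ⟨?_⟩
  rintro ⟨_, r, hr, rfl⟩ ⟨_, s, hs, rfl⟩
  apply Subtype.ext
  have h : QuotientGroup.mk' X ⁅r, s⁆ = 1 := (QuotientGroup.eq_one_iff _).2 (hc r hr s hs)
  rw [map_commutatorElement, commutatorElement_eq_one_iff_commute] at h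
  exact h.eq

variable (X) in
/-- the class of an element of `R` -/
def cl {r : A} (hr : r ∈ R) : Additive (HR R X) :=
  Additive.ofMul ⟨QuotientGroup.mk' X r, ⟨r, hr, rfl⟩⟩

lemma cl_surj (v : Additive (HR R X)) : ∃ (r : A) (hr : r ∈ R), cl X hr = v := by
  obtain ⟨y, hy⟩ : ∃ y : HR R X, Additive.ofMul y = v := ⟨Additive.toMul v, rfl⟩
  obtain ⟨_, r, hr, rfl⟩ := y
  exact ⟨r, hr, hy⟩

lemma cl_eq {r s : A} {hr : r ∈ R} {hs : s ∈ R} :
    cl X hr = cl X hs ↔ QuotientGroup.mk' X r = QuotientGroup.mk' X s :=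
  ⟨fun h => congrArg (fun v : Additive (HR R X) => ((Additive.toMul v : HR R X) : A ⧸ X)) h,
    fun h => congrArg Additive.ofMul (Subtype.ext h)⟩

lemma cl_eq_of {r s : A} {hr : r ∈ R} {hs : s ∈ R} (h : r⁻¹ * s ∈ X) : cl X hr = cl X hs :=
  cl_eq.2 ((QuotientGroup.eq (s := X)).2 h)

variable [CM (HR R X)]

lemma cl_mul {r s : A} (hr : r ∈ R) (hs : s ∈ R) (hrs : r * s ∈ R) :
    cl X hrs = cl X hr + cl X hs := by
  apply Additive.toMul.injective
  apply Subtype.ext
  exact map_mul _ _ _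

lemma cl_eq_zero {r : A} {hr : r ∈ R} : cl X hr = 0 ↔ r ∈ X := by
  constructor
  · intro h
    have h1 : QuotientGroup.mk' X r = 1 :=
      congrArg (fun v : Additive (HR R X) => ((Additive.toMul v : HR R X) : A ⧸ X)) h
    exact (QuotientGroup.eq_one_iff _).1 h1
  · intro h
    apply Additive.toMul.injective
    apply Subtype.ext
    exact (QuotientGroup.eq_one_iff _).2 h

/-- conjugation -/
lemma Cj_cl (g : A) {r : A} (hr : r ∈ R) (h : g * r * g⁻¹ ∈ R) :
    Cj (HR R X) (QuotientGroup.mk' X g) (cl X hr) = cl X h := by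
  apply Additive.toMul.injective
  apply Subtype.ext
  show ((MulAut.conjNormal (QuotientGroup.mk' X g) (⟨QuotientGroup.mk' X r, _⟩ : HR R X) :
    HR R X) : A ⧸ X) = QuotientGroup.mk' X (g * r * g⁻¹)
  rw [MulAut.conjNormal_apply, map_mul, map_mul, map_inv]

variable (p : ℕ) [Module (ZMod p) (Additive (HR R X))]

variable (R X) in
/-- the action of `A` -/
noncomputable def E : A →* Module.End (ZMod p) (Additive (HR R X)) where
  toFun g := AddMonoidHom.toZModLinearMap p (Cj (HR R X) (QuotientGroup.mk' X g))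
  map_one' := by
    refine LinearMap.ext fun v => ?_
    obtain ⟨r, hr, rfl⟩ := cl_surj v
    show Cj (HR R X) (QuotientGroup.mk' X 1) (cl X hr) = cl X hr
    rw [Cj_cl 1 hr (by rw [one_mul, inv_one, mul_one]; exact hr), cl_eq]
    congr 1
    group
  map_mul' g h := by
    refine LinearMap.ext fun v => ?_
    obtain ⟨r, hr, rfl⟩ := cl_surj v
    show Cj (HR R X) (QuotientGroup.mk' X (g * h)) (cl X hr) =
      Cj (HR R X) (QuotientGroup.mk' X g) (Cj (HR R X) (QuotientGroup.mk' X h) (cl X hr))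
    have h1 := (inferInstance : R.Normal).conj_mem _ hr h
    have h2 := (inferInstance : R.Normal).conj_mem _ h1 g
    have h3 := (inferInstance : R.Normal).conj_mem _ hr (g * h)
    rw [Cj_cl _ hr h3, Cj_cl _ hr h1, Cj_cl _ h1 h2, cl_eq]
    congr 1
    group

lemma E_cl (g : A) {r : A} (hr : r ∈ R) (h : g * r * g⁻¹ ∈ R) :
    E R X p g (cl X hr) = cl X h := Cj_cl g hr h

lemma E_fix {g : A} {r : A} (hr : r ∈ R) : E R X p g (cl X hr) = cl X hr ↔ ⁅g, r⁆ ∈ X := by
  have h := (inferInstance : R.Normal).conj_mem _ hr g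
  rw [E_cl p g hr h, cl_eq]
  rw [commutatorElement_def, ← QuotientGroup.eq_one_iff]
  constructor
  · intro h1
    show QuotientGroup.mk' X (g * r * g⁻¹ * r⁻¹) = 1
    rw [map_mul, h1, map_inv, mul_inv_cancel]
  · intro h1
    have h2 : QuotientGroup.mk' X (g * r * g⁻¹ * r⁻¹) = 1 := h1
    rw [map_mul, map_inv, mul_inv_eq_one] at h2
    exact h2

lemma E_eq_one {g : A} (h : ∀ r ∈ R, ⁅g, r⁆ ∈ X) : E R X p g = 1 := by
  refine LinearMap.ext fun v => ?_
  obtain ⟨r, hr, rfl⟩ := cl_surj v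
  exact (E_fix p hr).2 (h r hr)

lemma E_congr {N₀ : Subgroup A} (h0 : ∀ g ∈ N₀, ∀ r ∈ R, ⁅g, r⁆ ∈ X) {g g' : A}
    (h : g⁻¹ * g' ∈ N₀) : E R X p g' = E R X p g := by
  have e : g' = g * (g⁻¹ * g') := by group
  rw [e, map_mul, E_eq_one p (h0 _ h), mul_one]

lemma E_inv (g : A) : E R X p g⁻¹ * E R X p g = 1 := by
  rw [← map_mul, inv_mul_cancel, map_one]

/-- **A normal subgroup generated by unipotent elements acts trivially on a simple module.** -/
theorem triv (hX : X ≤ R) {N N₀ : Subgroup A} [N.Normal] (S : Set A) (hS : S ⊆ N)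
    (hN : N ≤ Subgroup.closure S ⊔ N₀) [N₀.Normal]
    (h0 : ∀ g ∈ N₀, ∀ r ∈ R, ⁅g, r⁆ ∈ X) (hNN : ∀ a ∈ N, ∀ b ∈ N, ⁅a, b⁆ ∈ N₀)
    (hu : ∀ s ∈ S, IsNilpotent (E R X p s - 1)) [Fact p.Prime]
    [FiniteDimensional (ZMod p) (Additive (HR R X))]
    (hmax : ∀ Y : Subgroup A, Y.Normal → X ≤ Y → Y ≤ R → Y = X ∨ R ≤ Y) :
    ∀ g ∈ N, ∀ r ∈ R, ⁅g, r⁆ ∈ X := by
  by_cases hne : R ≤ X
  · intro g _ r hr
    have h1 : X.Normal := inferInstance
    rw [commutatorElement_def]
    exact mul_mem (h1.conj_mem _ (hne hr) g) (inv_mem (hne hr))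
  -- the invariants
  let Y : Subgroup A :=
    { carrier := {r | r ∈ R ∧ ∀ g ∈ N, Commute (QuotientGroup.mk' X g) (QuotientGroup.mk' X r)}
      mul_mem' := by
        rintro a b ⟨ha, ha'⟩ ⟨hb, hb'⟩
        refine ⟨mul_mem ha hb, fun g hg => ?_⟩
        rw [map_mul]
        exact (ha' g hg).mul_right (hb' g hg)
      one_mem' := ⟨one_mem _, fun g _ => by rw [map_one]; exact Commute.one_right _⟩
      inv_mem' := by
        rintro a ⟨ha, ha'⟩
        refine ⟨inv_mem ha, fun g hg => ?_⟩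
        rw [map_inv]
        exact (ha' g hg).inv_right }
  have hcomm : ∀ a b : A, ⁅a, b⁆ ∈ X ↔ Commute (QuotientGroup.mk' X a) (QuotientGroup.mk' X b) := by
    intro a b
    rw [← commutatorElement_eq_one_iff_commute, ← map_commutatorElement]
    exact (QuotientGroup.eq_one_iff _).symm
  have hYn : Y.Normal := by
    refine ⟨?_⟩
    rintro r ⟨hr, hr'⟩ a
    refine ⟨(inferInstance : R.Normal).conj_mem _ hr a, fun g hg => ?_⟩
    have h1 := hr' (a⁻¹ * g * a) (by
      have := (inferInstance : N.Normal).conj_mem _ hg a⁻¹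
      rwa [inv_inv] at this)
    have h2 := h1.map (MulAut.conj (QuotientGroup.mk' X a)).toMonoidHom
    have e1 : (MulAut.conj (QuotientGroup.mk' X a)).toMonoidHom (QuotientGroup.mk' X (a⁻¹ * g * a)) =
        QuotientGroup.mk' X g := by
      show QuotientGroup.mk' X a * QuotientGroup.mk' X (a⁻¹ * g * a) * (QuotientGroup.mk' X a)⁻¹ = _
      rw [← map_inv, ← map_mul, ← map_mul]
      congr 1
      group
    have e2 : (MulAut.conj (QuotientGroup.mk' X a)).toMonoidHom (QuotientGroup.mk' X r) =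
        QuotientGroup.mk' X (a * r * a⁻¹) := by
      show QuotientGroup.mk' X a * QuotientGroup.mk' X r * (QuotientGroup.mk' X a)⁻¹ = _
      rw [← map_inv, ← map_mul, ← map_mul]
    rwa [e1, e2] at h2
  have hXY : X ≤ Y := by
    intro x hx
    refine ⟨hX hx, fun g _ => ?_⟩
    have : QuotientGroup.mk' X x = 1 := (QuotientGroup.eq_one_iff _).2 hx
    rw [this]
    exact Commute.one_right _
  rcases hmax Y hYn hXY (fun r hr => hr.1) with h | h
  swap
  · exact fun g hg r hr => (hcomm g r).2 ((h hr).2 g hg)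
  exfalso
  -- a minimal stable subspace
  let 𝒮 : Set (Submodule (ZMod p) (Additive (HR R X))) :=
    {W | W ≠ ⊥ ∧ ∀ g ∈ N, ∀ v ∈ W, E R X p g v ∈ W}
  have hne' : 𝒮.Nonempty := by
    refine ⟨⊤, ?_, fun _ _ _ _ => Submodule.mem_top⟩
    intro htop
    apply hne
    intro r hr
    rw [← cl_eq_zero (hr := hr)]
    have : cl X hr ∈ (⊤ : Submodule (ZMod p) (Additive (HR R X))) := Submodule.mem_top
    rw [htop] at this
    exact (Submodule.mem_bot _).1 this
  obtain ⟨W, ⟨hW0, hWs⟩, hmin⟩ := IsArtinian.set_has_minimal 𝒮 hne'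
  have hfix : ∀ s ∈ S, ∀ v ∈ W, E R X p s v = v := by
    intro s hs
    let W' : Submodule (ZMod p) (Additive (HR R X)) := W ⊓ LinearMap.ker (E R X p s - 1)
    have hW' : ∀ v, v ∈ W' ↔ v ∈ W ∧ E R X p s v = v := by
      intro v
      rw [Submodule.mem_inf, LinearMap.mem_ker, LinearMap.sub_apply, sub_eq_zero]
      rfl
    have h1 : W' ∈ 𝒮 := by
      refine ⟨?_, fun g hg v hv => ?_⟩
      · obtain ⟨k, hk⟩ := hu s hs
        obtain ⟨w, hw, hw0⟩ := Submodule.exists_mem_ne_zero_of_ne_bot hW0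
        set f : Module.End (ZMod p) (Additive (HR R X)) := E R X p s - 1 with hf
        have hstab : ∀ m : ℕ, (f ^ m) w ∈ W := by
          intro m
          induction m with
          | zero => exact hw
          | succ m ih =>
            rw [pow_succ']
            show f ((f ^ m) w) ∈ W
            rw [hf, LinearMap.sub_apply]
            exact W.sub_mem (hWs s (hS hs) _ ih) ih
        have hex : ∃ m : ℕ, (f ^ m) w = 0 := ⟨k, by rw [hk]; rfl⟩
        classical
        obtain ⟨m, hm, hm'⟩ : ∃ m : ℕ, (f ^ m) w ≠ 0 ∧ (f ^ (m + 1)) w = 0 := by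
          have h2 := Nat.find_spec hex
          have h3 : Nat.find hex ≠ 0 := by
            intro h4
            rw [h4] at h2
            exact hw0 h2
          refine ⟨Nat.find hex - 1, Nat.find_min hex (by omega), ?_⟩
          rw [Nat.sub_add_cancel (Nat.one_le_iff_ne_zero.2 h3)]
          exact h2
        intro hbot
        apply hm
        have h5 : (f ^ m) w ∈ W' := by
          refine Submodule.mem_inf.2 ⟨hstab m, ?_⟩
          rw [LinearMap.mem_ker]
          rw [pow_succ'] at hm'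
          exact hm'
        rw [hbot] at h5
        exact (Submodule.mem_bot _).1 h5
      · obtain ⟨a1, a2⟩ := (hW' v).1 hv
        refine (hW' _).2 ⟨hWs g hg v a1, ?_⟩
        have e1 : E R X p s * E R X p g = E R X p g * E R X p s := by
          rw [← map_mul, ← map_mul]
          refine E_congr p h0 ?_
          have e3 : (g * s)⁻¹ * (s * g) = ⁅s⁻¹, g⁻¹⁆ := by
            rw [commutatorElement_def]; group
          rw [e3]
          exact hNN _ (inv_mem (hS hs)) _ (inv_mem hg)
        have e2 := congrArg (fun f : Module.End (ZMod p) (Additive (HR R X)) => f v) e1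
        change E R X p s (E R X p g v) = E R X p g (E R X p s v) at e2
        rw [e2, a2]
    have h2 : ¬ W' < W := hmin W' h1
    have h3 : W' = W := by
      by_contra hc
      exact h2 (lt_of_le_of_ne inf_le_left hc)
    intro v hv
    rw [← h3] at hv
    exact ((hW' v).1 hv).2
  let Fx : Subgroup A :=
    { carrier := {g | ∀ v ∈ W, E R X p g v = v}
      mul_mem' := by
        intro a b ha hb v hv
        rw [map_mul]
        show E R X p a (E R X p b v) = v
        rw [hb v hv, ha v hv]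
      one_mem' := fun v _ => by rw [map_one]; rfl
      inv_mem' := by
        intro a ha v hv
        have h1 := congrArg (fun f : Module.End (ZMod p) (Additive (HR R X)) => f v) (E_inv (R := R) (X := X) p a)
        change E R X p a⁻¹ (E R X p a v) = v at h1
        rwa [ha v hv] at h1 }
  have hFx : N ≤ Fx := by
    refine hN.trans (sup_le ((Subgroup.closure_le _).2 fun s hs => hfix s hs) fun g hg v _ => ?_)
    rw [E_eq_one p (h0 g hg)]
    rfl
  obtain ⟨w, hw, hw0⟩ := Submodule.exists_mem_ne_zero_of_ne_bot hW0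
  obtain ⟨r, hr, rfl⟩ := cl_surj w
  have h1 : r ∈ Y := ⟨hr, fun g hg => (hcomm g r).1 ((E_fix p hr).1 (hFx hg _ hw))⟩
  rw [h] at h1
  exact hw0 (cl_eq_zero.2 h1)

end basic

end Pool.Agent.V5helper31.CH
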