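import Pool.Agent.V5helper31.CH.Small9
import Pool.Agent.V5helper31.CF.Main

set_option autoImplicit false
set_option linter.unusedSectionVars false

/-! One step of a normal series. -/

namespace Pool.Agent.V5helper31.CH

open Pool.Agent.Helper460_OutF Pool.Agent.Helper460_CSP Pool.Agent.V5helper31.CF
open Pool.Agent.V5helper31.CG
open FreeGroup (of)
open scoped commutatorElement

lemma R3_le_RR {n : ℕ} : R3 (Fin n) ≤ RR (Fin n) := R3_le fun _ _ _ _ _ _ _ _ _ _ =>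
  rr_mem_RR _ _ _

/-- the centre of `U / V` is generated by fewer than `D` elements -/
def SCn (D : ℕ) {n : ℕ} (V U : Subgroup (MulAut (FreeGroup (Fin n)))) : Prop :=
  ∃ S : Finset (MulAut (FreeGroup (Fin n))), S.card < D ∧
    (∀ s ∈ S, s ∈ U ∧ ∀ y ∈ U, ⁅s, y⁆ ∈ V) ∧
    ∀ x ∈ U, (∀ y ∈ U, ⁅x, y⁆ ∈ V) →
      ∃ s ∈ Subgroup.closure (S : Set (MulAut (FreeGroup (Fin n)))), s⁻¹ * x ∈ V

theorem step {n D : ℕ} {R : Subgroup (MulAut (FreeGroup (Fin n)))} [hR : R.Normal]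
    (hs : Small R D) {V U : Subgroup (MulAut (FreeGroup (Fin n)))}
    (hV : V.Normal) (hRU : R ≤ U) (h1 : SCn D V U)
    (hact : ∀ r ∈ R, ∀ x ∈ U, ⁅r, x⁆ ∈ V) : R ≤ V := by
  obtain ⟨S, hS, hS1, hS2⟩ := h1
  refine step_lemma hs hRU hact (d := S.card) hS
    (fun i => (S.equivFin.symm i : MulAut (FreeGroup (Fin n)))) (fun i => ?_) ?_
  · exact mem_Zm.2 (hS1 _ (S.equivFin.symm i).2)
  · intro x hx
    obtain ⟨hxU, hx⟩ := mem_Zm.1 hx
    obtain ⟨s, hs, hsx⟩ := hS2 x hxU hx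
    have h3 : Set.range (fun i => (S.equivFin.symm i : MulAut (FreeGroup (Fin n)))) =
        (S : Set (MulAut (FreeGroup (Fin n)))) := by
      ext y
      constructor
      · rintro ⟨i, rfl⟩
        exact (S.equivFin.symm i).2
      · intro hy
        exact ⟨S.equivFin ⟨y, hy⟩, by simp⟩
    rw [h3]
    have h4 : x = s * (s⁻¹ * x) := by group
    rw [h4]
    exact Subgroup.mul_mem_sup hs hsx

end Pool.Agent.V5helper31.CH
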