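import Pool.Agent.V5helper31.CH.R12

set_option autoImplicit false
set_option linter.unusedSectionVars false

/-! The automorphisms acting trivially modulo `γ₃` act unipotently on the abelianization of
`R3`. -/

namespace Pool.Agent.V5helper31.CH

open Pool.Agent.Helper460_OutF Pool.Agent.Helper460_CSP Pool.Agent.V5helper31.CF
open Pool.Agent.V5helper31.CG
open FreeGroup (of)
open scoped commutatorElement

variable {ι : Type} [DecidableEq ι] [Fintype ι]

lemma cc_R3 (h4 : 4 ≤ Fintype.card ι) (i : ι) (u v w : FreeGroup ι) :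
    cc i ⁅⁅u, v⁆, w⁆ ∈ R3 ι := by
  rw [← QuotientGroup.eq_one_iff]
  show QuotientGroup.mk' (R3 ι) _ = 1
  rw [map_commutatorElement, map_commutatorElement, commutatorElement_eq_one_iff_commute]
  exact K3_mk.ccc h4 i u v w

lemma KBz_le_of {D : Subgroup (MulAut (FreeGroup ι))} (h1 : R3 ι ≤ D)
    (h2 : ∀ i j k : ι, i ≠ j → i ≠ k → cc i ⁅of j, of k⁆ ∈ D) : KBz ι ≤ D := by
  intro δ hδ
  have h3 : ZZ (QuotientGroup.mk' (R3 ι)) ≤ D.map (QuotientGroup.mk' (R3 ι)) := by
    refine (Subgroup.closure_le _).2 ?_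
    rintro _ ⟨i, j, k, a1, a2, rfl⟩
    exact ⟨_, h2 i j k a1 a2, rfl⟩
  obtain ⟨y, hy, hxy⟩ := h3 (show QuotientGroup.mk' (R3 ι) δ ∈ _ from hδ)
  have h4 : y⁻¹ * δ ∈ R3 ι := QuotientGroup.eq.1 hxy
  have h5 := mul_mem hy (h1 h4)
  rwa [mul_inv_cancel_left] at h5

section un

variable {X : Subgroup (MulAut (FreeGroup ι))} [X.Normal] {p : ℕ}
  [CM (HR (R3 ι) X)] [Module (ZMod p) (Additive (HR (R3 ι) X))]

/-- the group elements which fix a vector -/
def St (p : ℕ) [Module (ZMod p) (Additive (HR (R3 ι) X))] (y : Additive (HR (R3 ι) X)) :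
    Subgroup (MulAut (FreeGroup ι)) where
  carrier := {g | E (R3 ι) X p g y = y}
  mul_mem' := by
    intro a b ha hb
    show E (R3 ι) X p (a * b) y = y
    rw [map_mul]
    show E (R3 ι) X p a (E (R3 ι) X p b y) = y
    rw [show E (R3 ι) X p b y = y from hb, show E (R3 ι) X p a y = y from ha]
  one_mem' := by
    show E (R3 ι) X p 1 y = y
    rw [map_one]
    rfl
  inv_mem' := by
    intro a ha
    have h1 := congrArg (fun f : Module.End (ZMod p) (Additive (HR (R3 ι) X)) => f y)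
      (E_inv (R := R3 ι) (X := X) p a)
    change E (R3 ι) X p a⁻¹ (E (R3 ι) X p a y) = y at h1
    rwa [show E (R3 ι) X p a y = y from ha] at h1

lemma mem_St {g : MulAut (FreeGroup ι)} {y : Additive (HR (R3 ι) X)} :
    g ∈ St p y ↔ E (R3 ι) X p g y = y := Iff.rfl

/-- the vector is fixed by `KBz` -/
def Fx (p : ℕ) [Module (ZMod p) (Additive (HR (R3 ι) X))] (y : Additive (HR (R3 ι) X)) : Prop :=
  KBz ι ≤ St p y

lemma Fx_zero : Fx p (0 : Additive (HR (R3 ι) X)) := fun g _ => map_zero (E (R3 ι) X p g)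

lemma Fx_add {y z : Additive (HR (R3 ι) X)} (hy : Fx p y) (hz : Fx p z) : Fx p (y + z) := by
  intro g hg
  show E (R3 ι) X p g (y + z) = y + z
  rw [map_add, hy hg, hz hg]

lemma Fx_neg {y : Additive (HR (R3 ι) X)} (hy : Fx p y) : Fx p (-y) := by
  intro g hg
  show E (R3 ι) X p g (-y) = -y
  rw [map_neg, hy hg]

lemma Fx_E (h5 : 5 ≤ Fintype.card ι) {y : Additive (HR (R3 ι) X)} (hy : Fx p y)
    (g : MulAut (FreeGroup ι)) : Fx p (E (R3 ι) X p g y) := by
  intro ζ hζ
  have h1 := (KBz_normal (ι := ι) h5).conj_mem _ hζ g⁻¹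
  rw [inv_inv] at h1
  have h2 := hy h1
  show E (R3 ι) X p ζ (E (R3 ι) X p g y) = E (R3 ι) X p g y
  have e : ζ * g = g * (g⁻¹ * ζ * g) := by group
  have h3 := congrArg (fun f : Module.End (ZMod p) (Additive (HR (R3 ι) X)) => f y)
    (show E (R3 ι) X p ζ * E (R3 ι) X p g =
      E (R3 ι) X p g * E (R3 ι) X p (g⁻¹ * ζ * g) by rw [← map_mul, e, map_mul])
  change E (R3 ι) X p ζ (E (R3 ι) X p g y) =
    E (R3 ι) X p g (E (R3 ι) X p (g⁻¹ * ζ * g) y) at h3
  rw [h3, show E (R3 ι) X p (g⁻¹ * ζ * g) y = y from h2]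

variable (h9 : 9 ≤ Fintype.card ι) (hc : ∀ r ∈ R3 ι, ∀ s ∈ R3 ι, ⁅r, s⁆ ∈ X)
include h9 hc

/-- changing the first index -/
lemma E_move {a m u v : ι} (h1 : a ≠ u) (h2 : a ≠ v) (h3 : m ≠ u) (h4 : m ≠ v) :
    E (R3 ι) X p (cc a ⁅of u, of v⁆) = E (R3 ι) X p (cc m ⁅of u, of v⁆) := by
  refine E_eq_of p hc ?_
  exact (K3_mk.indep (by omega) (Ne.symm h1) (Ne.symm h2) (Ne.symm h3) (Ne.symm h4)).symm

omit h9 hc in
lemma card_le7 (a b c d e f g : ι) : ({a, b, c, d, e, f, g} : Finset ι).card ≤ 7 := by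
  refine (Finset.card_insert_le _ _).trans ?_
  exact Nat.succ_le_succ Finset.card_le_six

lemma gen1 {i j k l a u v : ι} (hij : i ≠ j) (hik : i ≠ k) (hil : i ≠ l) (hau : a ≠ u)
    (hav : a ≠ v) (hr : rr i ⁅⁅of j, of k⁆, of l⁆ ∈ R3 ι) :
    Fx p (E (R3 ι) X p (cc a ⁅of u, of v⁆) (cl X hr) - cl X hr) := by
  have h4 : 4 ≤ Fintype.card ι := by omega
  have h5 : 5 ≤ Fintype.card ι := by omega
  -- the first letter is `i`
  have main : ∀ v a : ι, a ≠ i → a ≠ v → i ≠ v →
      Fx p (E (R3 ι) X p (cc a ⁅of i, of v⁆) (cl X hr) - cl X hr) := by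
    intro v a hai hav hiv
    set W : FreeGroup ι := of i * ⁅⁅⁅of j, of k⁆, of l⁆, of v⁆ * (of i)⁻¹ with hW
    have hWe : W = ⁅⁅of i * ⁅of j, of k⁆ * (of i)⁻¹, of i * of l * (of i)⁻¹⁆,
        of i * of v * (of i)⁻¹⁆ := by
      rw [hW]
      simp only [commutatorElement_def]
      group
    have hη : ∀ m, cc m W ∈ R3 ι := by
      intro m
      rw [hWe, conj_comm']
      exact cc_R3 h4 _ _ _ _
    have hm : ∀ m, m ≠ i → m ≠ j → m ≠ k → m ≠ l → m ≠ v →
        E (R3 ι) X p (cc a ⁅of i, of v⁆) (cl X hr) - cl X hr = - cl X (hη m) := by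
      intro m m1 m2 m3 m4 m5
      rw [E_move h9 hc hai hav m1 m5]
      set c := rr i ⁅⁅of j, of k⁆, of l⁆ with hcdef
      set z := cc m ⁅of i, of v⁆ with hz
      have hkil : kil m ⁅⁅of j, of k⁆, of l⁆ = ⁅⁅of j, of k⁆, of l⁆ := by
        rw [map_commutatorElement, kil_comm2 (Ne.symm m2) (Ne.symm m3), kil_ne (Ne.symm m4)]
      have hkili : kil i ⁅⁅of j, of k⁆, of l⁆ = ⁅⁅of j, of k⁆, of l⁆ := by
        rw [map_commutatorElement, kil_comm2 (Ne.symm hij) (Ne.symm hik), kil_ne (Ne.symm hil)]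
      have e1 : c * z * c⁻¹ = cc m W * z := by
        rw [hz, hcdef, (CF.pres_rr m1 hkil).cc, map_commutatorElement, rr_self, hkili,
          rr_ne (Ne.symm hiv), ← map_mul]
        congr 1
        rw [hW]
        simp only [commutatorElement_def]
        group
      have e2 : z * c * z⁻¹ = (cc m W)⁻¹ * c := by
        calc z * c * z⁻¹ = (cc m W)⁻¹ * (cc m W * z) * c * z⁻¹ := by group
          _ = (cc m W)⁻¹ * (c * z * c⁻¹) * c * z⁻¹ := by rw [e1]
          _ = _ := by group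
      have hcj := (inferInstance : (R3 ι).Normal).conj_mem _ hr z
      rw [E_cl p z hr hcj, sub_eq_iff_eq_add]
      have e3 : -cl X (hη m) + cl X hr = cl X (mul_mem (inv_mem (hη m)) hr) := by
        apply Additive.toMul.injective
        apply Subtype.ext
        exact (map_mul (QuotientGroup.mk' X) _ _).symm
      rw [e3]
      apply cl_eq.2
      rw [e2]
    refine KBz_le_of ?_ ?_
    · intro g hg
      show E (R3 ι) X p g _ = _
      rw [E_eq_one p (hc g hg)]
      rfl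
    · intro a' u' v' h1' h2'
      obtain ⟨m, hmo⟩ := exists_out {i, j, k, l, v, u', v'}
        (lt_of_le_of_lt (card_le7 _ _ _ _ _ _ _) (by omega))
      obtain ⟨m', hmo'⟩ := exists_out (insert m {i, j, k, l, v, u', v'})
        (lt_of_le_of_lt ((Finset.card_insert_le _ _).trans
          (Nat.succ_le_succ (card_le7 _ _ _ _ _ _ _))) (by omega))
      simp only [Finset.mem_insert, Finset.mem_singleton, not_or] at hmo hmo'
      obtain ⟨a1, a2, a3, a4, a5, a6, a7⟩ := hmo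
      obtain ⟨b0, b1, b2, b3, b4, b5, b6, b7⟩ := hmo'
      show E (R3 ι) X p (cc a' ⁅of u', of v'⁆) _ = _
      rw [hm m a1 a2 a3 a4 a5, E_move h9 hc h1' h2' b6 b7, map_neg]
      congr 1
      rw [E_fix]
      have e : cc m' ⁅of u', of v'⁆ * cc m W * (cc m' ⁅of u', of v'⁆)⁻¹ = cc m W := by
        have f1 : ∀ s, s ≠ m' → cc m' ⁅of u', of v'⁆ (of s) = of s := fun s hs => cc_ne hs _
        have f2 : cc m' ⁅of u', of v'⁆ W = W := by
          rw [hW]
          generalize cc m' ⁅of u', of v'⁆ = φ at f1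
          simp only [map_mul, map_inv, map_commutatorElement]
          rw [f1 i (Ne.symm b1), f1 j (Ne.symm b2), f1 k (Ne.symm b3), f1 l (Ne.symm b4),
            f1 v (Ne.symm b5)]
        rw [(CF.pres_cc (Ne.symm b0) (kil_comm2 (Ne.symm a6) (Ne.symm a7))).cc, f2]
      rw [commutatorElement_def, e, mul_inv_cancel]
      exact one_mem _
  by_cases hui : u = i
  · subst hui
    by_cases huv : u = v
    · subst huv
      rw [commutatorElement_self, map_one, map_one]
      show Fx p (cl X hr - cl X hr)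
      rw [sub_self]
      exact Fx_zero
    exact main v a hau hav huv
  by_cases hvi : v = i
  · subst hvi
    have h1 := main u a hav hau (Ne.symm hui)
    -- the inverse
    set y := E (R3 ι) X p (cc a ⁅of v, of u⁆) (cl X hr) - cl X hr with hy
    have e1 : cc a ⁅of u, of v⁆ = (cc a ⁅of v, of u⁆)⁻¹ := by
      rw [← commutatorElement_inv, map_inv]
    have e2 := congrArg (fun f : Module.End (ZMod p) (Additive (HR (R3 ι) X)) => f (cl X hr))
      (E_inv (R := R3 ι) (X := X) p (cc a ⁅of v, of u⁆))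
    change E (R3 ι) X p (cc a ⁅of v, of u⁆)⁻¹ (E (R3 ι) X p (cc a ⁅of v, of u⁆) (cl X hr)) =
      cl X hr at e2
    have e3 : E (R3 ι) X p (cc a ⁅of v, of u⁆) (cl X hr) = y + cl X hr := by rw [hy]; abel
    have e4 : E (R3 ι) X p (cc a ⁅of v, of u⁆)⁻¹ y = y :=
      h1 (inv_mem (cc_mem_KBz h4 a (of v) (of u)))
    rw [e3, map_add, e4] at e2
    rw [e1]
    have e5 : E (R3 ι) X p (cc a ⁅of v, of u⁆)⁻¹ (cl X hr) - cl X hr = -y := by
      rw [sub_eq_iff_eq_add, eq_neg_add_iff_add_eq]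
      exact e2
    rw [e5]
    exact Fx_neg h1
  · -- the elements commute
    obtain ⟨m, hmo⟩ := exists_out {i, j, k, l, u, v, u}
        (lt_of_le_of_lt (card_le7 _ _ _ _ _ _ _) (by omega))
    simp only [Finset.mem_insert, Finset.mem_singleton, not_or] at hmo
    obtain ⟨a1, a2, a3, a4, a5, a6, -⟩ := hmo
    rw [E_move h9 hc hau hav a5 a6]
    have hkil : kil m ⁅⁅of j, of k⁆, of l⁆ = ⁅⁅of j, of k⁆, of l⁆ := by
      rw [map_commutatorElement, kil_comm2 (Ne.symm a2) (Ne.symm a3), kil_ne (Ne.symm a4)]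
    have e : Commute (rr i ⁅⁅of j, of k⁆, of l⁆) (cc m ⁅of u, of v⁆) := by
      apply commute_of_conj'
      rw [(CF.pres_rr a1 hkil).cc, map_commutatorElement, rr_ne hui, rr_ne hvi]
    have e2 : E (R3 ι) X p (cc m ⁅of u, of v⁆) (cl X hr) = cl X hr := by
      rw [E_fix, commutatorElement_eq_one_iff_commute.2 e.symm]
      exact one_mem _
    rw [e2, sub_self]
    exact Fx_zero

/-- **`(ζ - 1) (ζ' - 1) = 0` for all `ζ`, `ζ'` in `KBz`** -/
theorem sqz : ∀ r, ∀ hr : r ∈ R3 ι, ∀ ζ ∈ KBz ι,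
    Fx p (E (R3 ι) X p ζ (cl X hr) - cl X hr) := by
  have h5 : 5 ≤ Fintype.card ι := by omega
  let Q : Subgroup (MulAut (FreeGroup ι)) :=
    { carrier := {r | ∃ hr : r ∈ R3 ι, ∀ ζ ∈ KBz ι,
        Fx p (E (R3 ι) X p ζ (cl X hr) - cl X hr)}
      mul_mem' := by
        rintro r s ⟨hr, h1⟩ ⟨hs, h2⟩
        refine ⟨mul_mem hr hs, fun ζ hζ => ?_⟩
        rw [cl_mul hr hs, map_add]
        have e : E (R3 ι) X p ζ (cl X hr) + E (R3 ι) X p ζ (cl X hs) - (cl X hr + cl X hs) =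
            (E (R3 ι) X p ζ (cl X hr) - cl X hr) + (E (R3 ι) X p ζ (cl X hs) - cl X hs) := by abel
        rw [e]
        exact Fx_add (h1 ζ hζ) (h2 ζ hζ)
      one_mem' := by
        refine ⟨one_mem _, fun ζ _ => ?_⟩
        rw [cl_eq_zero.2 (one_mem X), map_zero, sub_zero]
        exact Fx_zero
      inv_mem' := by
        rintro r ⟨hr, h1⟩
        refine ⟨inv_mem hr, fun ζ hζ => ?_⟩
        have e0 : cl X (inv_mem hr) = - cl X hr := rfl
        rw [e0, map_neg]
        have e : -E (R3 ι) X p ζ (cl X hr) - -cl X hr =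
            -(E (R3 ι) X p ζ (cl X hr) - cl X hr) := by abel
        rw [e]
        exact Fx_neg (h1 ζ hζ) }
  have hQn : Q.Normal := by
    refine ⟨?_⟩
    rintro r ⟨hr, h1⟩ g
    have hgr := (inferInstance : (R3 ι).Normal).conj_mem _ hr g
    refine ⟨hgr, fun ζ hζ => ?_⟩
    have h2 := (KBz_normal (ι := ι) h5).conj_mem _ hζ g⁻¹
    rw [inv_inv] at h2
    rw [← E_cl p g hr hgr]
    have e : ζ * g = g * (g⁻¹ * ζ * g) := by group
    have h3 := congrArg (fun f : Module.End (ZMod p) (Additive (HR (R3 ι) X)) => f (cl X hr))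
      (show E (R3 ι) X p ζ * E (R3 ι) X p g =
        E (R3 ι) X p g * E (R3 ι) X p (g⁻¹ * ζ * g) by rw [← map_mul, e, map_mul])
    change E (R3 ι) X p ζ (E (R3 ι) X p g (cl X hr)) =
      E (R3 ι) X p g (E (R3 ι) X p (g⁻¹ * ζ * g) (cl X hr)) at h3
    rw [h3, ← map_sub]
    exact Fx_E h5 (h1 _ h2) g
  have hR : R3 ι ≤ Q := by
    apply R3_le
    intro i j k l hij hik hil _ _ _
    have hr : rr i ⁅⁅of j, of k⁆, of l⁆ ∈ R3 ι :=
      Subgroup.subset_normalClosure ⟨i, j, k, l, hij, hik, hil, by assumption, by assumption,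
        by assumption, rfl⟩
    refine ⟨hr, ?_⟩
    let D : Subgroup (MulAut (FreeGroup ι)) :=
      { carrier := {g | g ∈ KBz ι ∧ Fx p (E (R3 ι) X p g (cl X hr) - cl X hr)}
        mul_mem' := by
          rintro a b ⟨ha, ha'⟩ ⟨hb, hb'⟩
          refine ⟨mul_mem ha hb, ?_⟩
          have e1 : E (R3 ι) X p (a * b) (cl X hr) =
              E (R3 ι) X p a (E (R3 ι) X p b (cl X hr)) := by rw [map_mul]; rfl
          have e2 : E (R3 ι) X p (a * b) (cl X hr) - cl X hr =
              E (R3 ι) X p a (E (R3 ι) X p b (cl X hr) - cl X hr) +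
                (E (R3 ι) X p a (cl X hr) - cl X hr) := by
            rw [e1, map_sub]; abel
          rw [e2]
          exact Fx_add (Fx_E h5 hb' a) ha'
        one_mem' := by
          refine ⟨one_mem _, ?_⟩
          rw [map_one]
          show Fx p (cl X hr - cl X hr)
          rw [sub_self]
          exact Fx_zero
        inv_mem' := by
          rintro a ⟨ha, ha'⟩
          refine ⟨inv_mem ha, ?_⟩
          have e2 := congrArg (fun f : Module.End (ZMod p) (Additive (HR (R3 ι) X)) =>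
            f (cl X hr)) (E_inv (R := R3 ι) (X := X) p a)
          change E (R3 ι) X p a⁻¹ (E (R3 ι) X p a (cl X hr)) = cl X hr at e2
          have e3 : E (R3 ι) X p a⁻¹ (cl X hr) - cl X hr =
              -E (R3 ι) X p a⁻¹ (E (R3 ι) X p a (cl X hr) - cl X hr) := by
            rw [map_sub, e2]; abel
          rw [e3]
          exact Fx_neg (Fx_E h5 ha' _) }
    have hD : KBz ι ≤ D := by
      refine KBz_le_of ?_ ?_
      · intro g hg
        refine ⟨?_, ?_⟩
        · show QuotientGroup.mk' (R3 ι) g ∈ ZZ (QuotientGroup.mk' (R3 ι))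
          rw [(QuotientGroup.eq_one_iff g).2 hg |> (fun h : QuotientGroup.mk' (R3 ι) g = 1 => h)]
          exact one_mem _
        · rw [E_eq_one p (hc g hg)]
          show Fx p (cl X hr - cl X hr)
          rw [sub_self]
          exact Fx_zero
      · intro a u v h1 h2
        exact ⟨cc_mem_KBz (by omega) _ _ _, gen1 h9 hc hij hik hil h1 h2 hr⟩
    exact fun ζ hζ => (hD hζ).2
  intro r hr ζ hζ
  exact (hR hr).2 ζ hζ

/-- Round 1 without a condition on the dimension. -/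
theorem round1' [Fact p.Prime] [FiniteDimensional (ZMod p) (Additive (HR (R3 ι) X))]
    (hX : X ≤ R3 ι)
    (hmax : ∀ Y : Subgroup (MulAut (FreeGroup ι)), Y.Normal → X ≤ Y → Y ≤ R3 ι →
      Y = X ∨ R3 ι ≤ Y) : ∀ g ∈ KBz ι, ∀ r ∈ R3 ι, ⁅g, r⁆ ∈ X := by
  have h5 : 5 ≤ Fintype.card ι := by omega
  have hKn := KBz_normal (ι := ι) h5
  refine triv p hX (N := KBz ι) (N₀ := R3 ι) (KBz ι) (fun _ h => h) ?_ hc ?_ ?_ hmax
  · rw [Subgroup.closure_eq]
    exact le_sup_left
  · intro a ha b hb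
    rw [← QuotientGroup.eq_one_iff]
    show QuotientGroup.mk' (R3 ι) ⁅a, b⁆ = 1
    rw [map_commutatorElement, commutatorElement_eq_one_iff_commute]
    exact K3_mk.ZZ_comm h5 ha hb
  · intro s hs
    refine ⟨2, LinearMap.ext fun v => ?_⟩
    obtain ⟨r, hr, rfl⟩ := cl_surj v
    rw [pow_two]
    show (E (R3 ι) X p s - 1) ((E (R3 ι) X p s - 1) (cl X hr)) = 0
    rw [LinearMap.sub_apply (E (R3 ι) X p s) 1 (cl X hr)]
    have h1 := sqz (p := p) h9 hc r hr s hs hs
    rw [LinearMap.sub_apply, sub_eq_zero]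
    exact h1

end un

end Pool.Agent.V5helper31.CH
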