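import Pool.Agent.V5helper31.CH.EF
import Pool.Agent.V5helper31.CH.Un1
import Pool.Agent.V5helper31.CH.Dim3

set_option autoImplicit false
set_option linter.unusedSectionVars false

/-! A nonzero eigenfunctional of `IA` on `R3` is fixed by `IA`. -/

namespace Pool.Agent.V5helper31.CH

open Pool.Agent.Helper460_OutF Pool.Agent.Helper460_CSP Pool.Agent.V5helper31.CF
open Pool.Agent.V5helper31.CG
open FreeGroup (of)
open scoped commutatorElement

variable {ι : Type} [DecidableEq ι] [Fintype ι] {k : Type*} [Field k]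
  {f χ : MulAut (FreeGroup ι) → k}

lemma TC_g3 (t : Fin 3 → ι) : TC t ∈ g3 ι := cm_g3 (cm_g2 _ _) _

lemma rr_TC (h4 : 4 ≤ Fintype.card ι) (i : ι) (t : Fin 3 → ι) : rr i (TC t) ∈ R3 ι :=
  rr_g3 h4 i (TC_g3 t)

/-- **Lemma U.** If the functional does not vanish on `rr i [[x, y], z]` then it is fixed by the
generators of `IA` which move another letter `j`. -/
lemma lemU (h : EF f χ) (h5 : 5 ≤ Fintype.card ι) {i j : ι} {t : Fin 3 → ι} (hti : ∀ m, t m ≠ i)
    (hb : f (rr i (TC t)) ≠ 0) (hji : j ≠ i) (htj : ∀ m, t m ≠ j) :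
    (∀ s : ι, cc j (of s) ∈ TrS f) ∧ (∀ q s : ι, rr j ⁅of q, of s⁆ ∈ TrS f) := by
  have h4 : 4 ≤ Fintype.card ι := by omega
  set w := TC t with hw
  have hwg : w ∈ g3 ι := TC_g3 t
  have hcR : rr i w ∈ R3 ι := rr_g3 h4 i hwg
  have hki : kil i w = w := kil_TC hti
  have hkj : kil j w = w := kil_TC htj
  -- letters different from `i`
  have U1 : ∀ s, s ≠ i → cc j (of s) ∈ TrS f := by
    intro s hs
    refine h.of_one (cc_mem_IA _ _) hcR hb ?_
    have e := (CF.pres_rr (i := j) (p := i) hji hkj).cc (of s)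
    rw [rr_ne hs] at e
    have e2 : cc j (of s) * rr i w * (cc j (of s))⁻¹ = rr i w := by
      calc cc j (of s) * rr i w * (cc j (of s))⁻¹ =
          (rr i w * cc j (of s) * (rr i w)⁻¹) * rr i w * (cc j (of s))⁻¹ := by rw [e]
        _ = rr i w := by group
    rw [e2]
  -- the letter `i`
  have hη : f (cc j w) = 0 := by
    obtain ⟨m, m1, m2, m3, m4⟩ := out4 h5 j (t 0) (t 1) (t 2)
    have e := K3_mk.indep h4 (q := QuotientGroup.mk' (R3 ι)) (i := m) (m := j) (j := t 0)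
      (k := t 1) (Ne.symm m2) (Ne.symm m3) (htj 0) (htj 1)
    have hr : (cc m ⁅of (t 0), of (t 1)⁆)⁻¹ * cc j ⁅of (t 0), of (t 1)⁆ ∈ R3 ι :=
      QuotientGroup.eq.1 e
    set ζ := cc m ⁅of (t 0), of (t 1)⁆ with hζ
    set r := ζ⁻¹ * cc j ⁅of (t 0), of (t 1)⁆ with hrd
    set e' := cc j (of (t 2)) with he'
    have hcomm : Commute ζ e' := by
      have e1 := cc_cc' (j := t 0) (k := t 1) (l := t 2) (m := m) (p := j) m1 m4
        (Ne.symm (htj 0)) (Ne.symm (htj 1))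
      rw [commutatorElement_eq_one_iff_commute] at e1
      exact e1.symm
    have e2 : cc j w = ζ * (r * (e' * r⁻¹ * e'⁻¹)) * ζ⁻¹ := by
      have e3 : cc j w = ⁅cc j ⁅of (t 0), of (t 1)⁆, e'⁆ := by
        rw [hw]; unfold TC; rw [map_commutatorElement]
      have e4 : cc j ⁅of (t 0), of (t 1)⁆ = ζ * r := by rw [hrd]; group
      rw [e3, e4, commutatorElement_def]
      have e5 : ζ⁻¹ * e'⁻¹ = e'⁻¹ * ζ⁻¹ := hcomm.inv_inv.eq
      calc ζ * r * e' * (ζ * r)⁻¹ * e'⁻¹ = ζ * r * e' * r⁻¹ * (ζ⁻¹ * e'⁻¹) := by group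
        _ = ζ * r * e' * r⁻¹ * (e'⁻¹ * ζ⁻¹) := by rw [e5]
        _ = ζ * (r * (e' * r⁻¹ * e'⁻¹)) * ζ⁻¹ := by group
    have hr2 := (inferInstance : (R3 ι).Normal).conj_mem _ (inv_mem hr) e'
    rw [e2, h.tri _ (cc_mem_KBz h4 _ _ _) _ (mul_mem hr hr2), h.mul _ hr _ hr2,
      U1 _ (hti 2) _ (inv_mem hr), h.inv hr, add_neg_cancel]
  have hηR : cc j w ∈ R3 ι := cc_R3 h4 j _ _ _
  have U2 : cc j (of i) ∈ TrS f := by
    have e := (CF.pres_rr (i := j) (p := i) hji hkj).cc (of i)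
    rw [rr_self, hki, map_mul] at e
    have e2 : (cc j (of i))⁻¹ * rr i w * (cc j (of i))⁻¹⁻¹ = cc j w * rr i w := by
      calc (cc j (of i))⁻¹ * rr i w * (cc j (of i))⁻¹⁻¹ =
          (cc j (of i))⁻¹ * (rr i w * cc j (of i) * (rr i w)⁻¹) * rr i w := by group
        _ = _ := by rw [e]; group
    have h1 : (cc j (of i))⁻¹ ∈ TrS f := by
      refine h.of_one (inv_mem (cc_mem_IA _ _)) hcR hb ?_
      rw [e2, h.mul _ hηR _ hcR, hη, zero_add]
    exact inv_mem_iff.1 h1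
  have hcc : ∀ s, cc j (of s) ∈ TrS f := by
    intro s
    by_cases hs : s = i
    · subst hs; exact U2
    · exact U1 s hs
  have hG := h.g3 h4 hcc
  have U5 : ∀ s, s ≠ i → rr j ⁅of i, of s⁆ ∈ TrS f := by
    intro s hs
    refine h.of_one (rr_comm_mem_IA _ _ _) hcR hb ?_
    have e := (CF.pres_rr (i := j) (p := i) hji hkj).rr ⁅of i, of s⁆
    have e1 : rr i w ⁅of i, of s⁆ = (of i * ⁅w, of s⁆ * (of i)⁻¹) * ⁅of i, of s⁆ := by
      rw [map_commutatorElement, rr_self, hki, rr_ne hs]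
      simp only [commutatorElement_def]
      group
    rw [e1, map_mul] at e
    set θ := rr j (of i * ⁅w, of s⁆ * (of i)⁻¹) with hθ
    have hn : (g3 ι).Normal := inferInstance
    have hθR : θ ∈ R3 ι := rr_g3 h4 j (hn.conj_mem _ (cm_g3 (g3_g2 hwg) _) _)
    have hθ0 : f θ = 0 := by
      have e3 := hG.conj _ (cm_g3 (g3_g2 hwg) (of s)) (of i)
      have e4 := hG.com hwg (of s)
      exact e3.trans e4
    have e2 : rr j ⁅of i, of s⁆ * rr i w * (rr j ⁅of i, of s⁆)⁻¹ = θ⁻¹ * rr i w := by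
      calc rr j ⁅of i, of s⁆ * rr i w * (rr j ⁅of i, of s⁆)⁻¹ =
          θ⁻¹ * (θ * rr j ⁅of i, of s⁆) * rr i w * (rr j ⁅of i, of s⁆)⁻¹ := by group
        _ = θ⁻¹ * (rr i w * rr j ⁅of i, of s⁆ * (rr i w)⁻¹) * rr i w *
            (rr j ⁅of i, of s⁆)⁻¹ := by rw [e]
        _ = _ := by group
    rw [e2, h.mul _ (inv_mem hθR) _ hcR, h.inv hθR, hθ0, neg_zero, zero_add]
  refine ⟨hcc, fun q s => ?_⟩
  by_cases hq : q = i
  · subst hq
    by_cases hs : s = q
    · subst hs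
      rw [commutatorElement_self, map_one]
      exact one_mem _
    · exact U5 s hs
  · by_cases hs : s = i
    · subst hs
      rw [← commutatorElement_inv, map_inv]
      exact inv_mem (U5 q hq)
    · refine h.of_one (rr_comm_mem_IA _ _ _) hcR hb ?_
      have e := (CF.pres_rr (i := j) (p := i) hji hkj).rr ⁅of q, of s⁆
      rw [map_commutatorElement (rr i w), rr_ne hq, rr_ne hs] at e
      have e2 : rr j ⁅of q, of s⁆ * rr i w * (rr j ⁅of q, of s⁆)⁻¹ = rr i w := by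
        calc rr j ⁅of q, of s⁆ * rr i w * (rr j ⁅of q, of s⁆)⁻¹ =
            (rr i w * rr j ⁅of q, of s⁆ * (rr i w)⁻¹) * rr i w * (rr j ⁅of q, of s⁆)⁻¹ := by
              rw [e]
          _ = rr i w := by group
      rw [e2]

lemma cj_back {g : MulAut (FreeGroup ι)} (h : IA (FreeGroup ι) ≤ TrS (cj g f)) :
    IA (FreeGroup ι) ≤ TrS f := by
  intro δ hδ r hr
  have h1 := (inferInstance : (IA (FreeGroup ι)).Normal).conj_mem _ hδ g⁻¹
  have h2 := (inferInstance : (R3 ι).Normal).conj_mem _ hr g⁻¹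
  have h3 := h h1 _ h2
  change f (g * _ * g⁻¹) = f (g * _ * g⁻¹) at h3
  have e1 : g * (g⁻¹ * δ * g⁻¹⁻¹ * (g⁻¹ * r * g⁻¹⁻¹) * (g⁻¹ * δ * g⁻¹⁻¹)⁻¹) * g⁻¹ =
      δ * r * δ⁻¹ := by group
  have e2 : g * (g⁻¹ * r * g⁻¹⁻¹) * g⁻¹ = r := by group
  rwa [e1, e2] at h3

lemma mv_inv {i p r : ι} {t : Fin 3 → ι} (h1 : i ≠ p) (h2 : i ≠ r) (h3 : ∀ m, t m ≠ p) :
    cj (rr p (of r)) f (rr i (TC t)) = f (rr i (TC t)) :=
  congrArg f (ruleA h1 h2 h3)

lemma mv_slot {i p r : ι} {t : Fin 3 → ι}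
    (hG : G3 (fun w => f (rr i w))) (h1 : i ≠ p)
    (h2 : i ≠ r) (hpr : p ≠ r) {m₀ : Fin 3} (h3 : t m₀ = p) (h6 : ∀ m, m ≠ m₀ → t m ≠ p) :
    cj (rr p (of r)) f (rr i (TC t)) = f (rr i (TC t)) + f (rr i (TC (sw p r t))) := by
  show f _ = _
  rw [(CF.pres_rr h1 (kil_of_letter h2)).rr]
  have hp : rr p (of r) (of (t m₀)) = of (t m₀) * of r := by
    rw [h3, rr_self, kil_of_letter hpr]
  have hn : ∀ m, m ≠ m₀ → rr p (of r) (of (t m)) = of (t m) := fun m hm => rr_ne (h6 m hm) _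
  have hs : sw p r t m₀ = r := sw_self h3
  have hs' : ∀ m, m ≠ m₀ → sw p r t m = t m := fun m hm => sw_ne (h6 m hm)
  unfold TC
  rw [map_commutatorElement (rr p (of r)), map_commutatorElement (rr p (of r))]
  have hcases : m₀ = 0 ∨ m₀ = 1 ∨ m₀ = 2 := by
    fin_cases m₀ <;> simp
  rcases hcases with rfl | rfl | rfl
  · rw [hp, hn 1 (by decide), hn 2 (by decide), hs, hs' 1 (by decide), hs' 2 (by decide)]
    exact hG.m1 _ _ _ _
  · rw [hp, hn 0 (by decide), hn 2 (by decide), hs, hs' 0 (by decide), hs' 2 (by decide)]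
    exact hG.m2 _ _ _ _
  · rw [hp, hn 0 (by decide), hn 1 (by decide), hs, hs' 0 (by decide), hs' 1 (by decide)]
    exact hG.m3 (cm_g2 _ _) _ _

lemma ccrr (j : ι) (g x : FreeGroup ι) :
    cc j g * rr j x * (cc j g)⁻¹ = rr j g * rr j x * (rr j g)⁻¹ := by
  have e1 : rr j (g * x * g⁻¹) = rr j g * rr j x * (rr j g)⁻¹ := by
    rw [map_mul, map_mul, map_inv]
  have e2 := ll_rr_comm j g (g * x * g⁻¹)
  rw [e1] at e2
  have e3 : cc j g = ll j g * rr j g := cc_eq j g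
  rw [e3]
  calc ll j g * rr j g * rr j x * (ll j g * rr j g)⁻¹ =
      ll j g * (rr j g * rr j x * (rr j g)⁻¹) * (ll j g)⁻¹ := by group
    _ = _ := by rw [e2]; group

lemma exD {p r : ι} {t : Fin 3 → ι} (hpr : p ≠ r) (h1 : ∀ m, t m ≠ p) (h2 : ∀ m, t m ≠ r) :
    rr p (of r) * rr r (TC t) * (rr p (of r))⁻¹ =
      rr r (TC t) * (rr p (of r) * rr p (TC t) * (rr p (of r))⁻¹)⁻¹ := by
  set c := rr r (TC t) with hc
  set s := rr p (TC t) with hs
  set u := rr p (of r) with hu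
  have hcw : c (TC t) = TC t := aut_TC _ fun m => rr_ne (h2 m) _
  have e0 : c * u * c⁻¹ = u * s := by
    rw [hu, (CF.pres_rr hpr (kil_TC h1)).rr, rr_self, kil_TC h2, map_mul]
  have e2 : c * s * c⁻¹ = s := by
    rw [hs, (CF.pres_rr hpr (kil_TC h1)).rr, hcw]
  have e3 : c * (u * s⁻¹) * c⁻¹ = u := by
    calc c * (u * s⁻¹) * c⁻¹ = (c * u * c⁻¹) * (c * s * c⁻¹)⁻¹ := by group
      _ = _ := by rw [e0, e2]; group
  have e1 : c⁻¹ * u * c = u * s⁻¹ := by
    calc c⁻¹ * u * c = c⁻¹ * (c * (u * s⁻¹) * c⁻¹) * c := by rw [e3]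
      _ = _ := by group
  calc u * c * u⁻¹ = c * (c⁻¹ * u * c) * u⁻¹ := by group
    _ = _ := by rw [e1]; group

/-! ### the steps -/

section steps

variable (h5 : 5 ≤ Fintype.card ι) (L : Fin 8 → ι) (hL : Function.Injective L)

omit [DecidableEq ι] [Fintype ι] in
lemma v3 {a b c j : ι} (h1 : a ≠ j) (h2 : b ≠ j) (h3 : c ≠ j) : ∀ m, (![a, b, c] : Fin 3 → ι) m ≠ j := by
  intro m
  fin_cases m
  · exact h1
  · exact h2
  · exact h3

include h5 hL

lemma L4 (h : EF f χ) (n1 : f (rr (L 0) (TC ![L 1, L 2, L 3])) ≠ 0)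
    (n2 : f (rr (L 4) (TC ![L 1, L 2, L 3])) ≠ 0) (n3 : f (rr (L 0) (TC ![L 5, L 2, L 3])) ≠ 0)
    (n4 : f (rr (L 0) (TC ![L 1, L 6, L 3])) ≠ 0) (n5 : f (rr (L 0) (TC ![L 1, L 2, L 7])) ≠ 0) :
    IA (FreeGroup ι) ≤ TrS f := by
  have ne : ∀ {a b : Fin 8}, a ≠ b → L a ≠ L b := fun h h' => h (hL h')
  have key : ∀ j, (∀ s : ι, cc j (of s) ∈ TrS f) ∧ (∀ q s : ι, rr j ⁅of q, of s⁆ ∈ TrS f) := by
    intro j
    by_cases j0 : j = L 0
    · subst j0
      exact lemU h h5 (v3 (ne (by decide)) (ne (by decide)) (ne (by decide))) n2 (ne (by decide))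
        (v3 (ne (by decide)) (ne (by decide)) (ne (by decide)))
    by_cases j1 : j = L 1
    · subst j1
      exact lemU h h5 (v3 (ne (by decide)) (ne (by decide)) (ne (by decide))) n3 (ne (by decide))
        (v3 (ne (by decide)) (ne (by decide)) (ne (by decide)))
    by_cases j2 : j = L 2
    · subst j2
      exact lemU h h5 (v3 (ne (by decide)) (ne (by decide)) (ne (by decide))) n4 (ne (by decide))
        (v3 (ne (by decide)) (ne (by decide)) (ne (by decide)))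
    by_cases j3 : j = L 3
    · subst j3
      exact lemU h h5 (v3 (ne (by decide)) (ne (by decide)) (ne (by decide))) n5 (ne (by decide))
        (v3 (ne (by decide)) (ne (by decide)) (ne (by decide)))
    exact lemU h h5 (v3 (ne (by decide)) (ne (by decide)) (ne (by decide))) n1 j0
      (v3 (Ne.symm j1) (Ne.symm j2) (Ne.symm j3))
  exact IA_gen h5 (fun i j => (key i).1 j) (fun i j k => (key i).2 j k) fun δ hδ r hr =>
    h.tri δ hδ r hr

/-- the functional is invariant on the transvections of the letter `L 0` -/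
lemma hG0 (h : EF f χ) (n2 : f (rr (L 4) (TC ![L 1, L 2, L 3])) ≠ 0) :
    G3 (fun w => f (rr (L 0) w)) := by
  have ne : ∀ {a b : Fin 8}, a ≠ b → L a ≠ L b := fun h h' => h (hL h')
  exact h.g3 (by omega) (lemU h h5 (v3 (ne (by decide)) (ne (by decide)) (ne (by decide))) n2
    (ne (by decide)) (v3 (ne (by decide)) (ne (by decide)) (ne (by decide)))).1

lemma L3 (h : EF f χ) (n1 : f (rr (L 0) (TC ![L 1, L 2, L 3])) ≠ 0)
    (n2 : f (rr (L 4) (TC ![L 1, L 2, L 3])) ≠ 0) (n3 : f (rr (L 0) (TC ![L 5, L 2, L 3])) ≠ 0)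
    (n4 : f (rr (L 0) (TC ![L 1, L 6, L 3])) ≠ 0) : IA (FreeGroup ι) ≤ TrS f := by
  have ne : ∀ {a b : Fin 8}, a ≠ b → L a ≠ L b := fun h h' => h (hL h')
  by_cases n5 : f (rr (L 0) (TC ![L 1, L 2, L 7])) = 0
  swap
  · exact L4 h5 L hL h n1 n2 n3 n4 n5
  have hG := hG0 h5 L hL h n2
  have e : sw (L 7) (L 3) ![L 1, L 2, L 7] = ![L 1, L 2, L 3] := by
    funext m
    fin_cases m
    · exact sw_ne (f := ![L 1, L 2, L 7]) (m := 0) (ne (by decide))
    · exact sw_ne (f := ![L 1, L 2, L 7]) (m := 1) (ne (by decide))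
    · exact sw_self (f := ![L 1, L 2, L 7]) (m := 2) rfl
  apply cj_back (g := rr (L 7) (of (L 3)))
  refine L4 h5 L hL (h.cj h5 _) ?_ ?_ ?_ ?_ ?_
  · rwa [mv_inv (ne (by decide)) (ne (by decide))
      (v3 (ne (by decide)) (ne (by decide)) (ne (by decide)))]
  · rwa [mv_inv (ne (by decide)) (ne (by decide))
      (v3 (ne (by decide)) (ne (by decide)) (ne (by decide)))]
  · rwa [mv_inv (ne (by decide)) (ne (by decide))
      (v3 (ne (by decide)) (ne (by decide)) (ne (by decide)))]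
  · rwa [mv_inv (ne (by decide)) (ne (by decide))
      (v3 (ne (by decide)) (ne (by decide)) (ne (by decide)))]
  · rw [mv_slot hG (ne (by decide)) (ne (by decide)) (ne (by decide)) (m₀ := 2) rfl, e,
      n5, zero_add]
    · exact n1
    · intro m hm
      fin_cases m
      · exact ne (show (1 : Fin 8) ≠ 7 by decide)
      · exact ne (show (2 : Fin 8) ≠ 7 by decide)
      · exact absurd rfl hm

lemma L2 (h : EF f χ) (n1 : f (rr (L 0) (TC ![L 1, L 2, L 3])) ≠ 0)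
    (n2 : f (rr (L 4) (TC ![L 1, L 2, L 3])) ≠ 0) (n3 : f (rr (L 0) (TC ![L 5, L 2, L 3])) ≠ 0) :
    IA (FreeGroup ι) ≤ TrS f := by
  have ne : ∀ {a b : Fin 8}, a ≠ b → L a ≠ L b := fun h h' => h (hL h')
  by_cases n4 : f (rr (L 0) (TC ![L 1, L 6, L 3])) = 0
  swap
  · exact L3 h5 L hL h n1 n2 n3 n4
  have hG := hG0 h5 L hL h n2
  have e : sw (L 6) (L 2) ![L 1, L 6, L 3] = ![L 1, L 2, L 3] := by
    funext m
    fin_cases m
    · exact sw_ne (f := ![L 1, L 6, L 3]) (m := 0) (ne (by decide))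
    · exact sw_self (f := ![L 1, L 6, L 3]) (m := 1) rfl
    · exact sw_ne (f := ![L 1, L 6, L 3]) (m := 2) (ne (by decide))
  apply cj_back (g := rr (L 6) (of (L 2)))
  refine L3 h5 L hL (h.cj h5 _) ?_ ?_ ?_ ?_
  · rwa [mv_inv (ne (by decide)) (ne (by decide))
      (v3 (ne (by decide)) (ne (by decide)) (ne (by decide)))]
  · rwa [mv_inv (ne (by decide)) (ne (by decide))
      (v3 (ne (by decide)) (ne (by decide)) (ne (by decide)))]
  · rwa [mv_inv (ne (by decide)) (ne (by decide))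
      (v3 (ne (by decide)) (ne (by decide)) (ne (by decide)))]
  · rw [mv_slot hG (ne (by decide)) (ne (by decide)) (ne (by decide)) (m₀ := 1) rfl, e,
      n4, zero_add]
    · exact n1
    · intro m hm
      fin_cases m
      · exact ne (show (1 : Fin 8) ≠ 6 by decide)
      · exact absurd rfl hm
      · exact ne (show (3 : Fin 8) ≠ 6 by decide)

lemma L1 (h : EF f χ) (n1 : f (rr (L 0) (TC ![L 1, L 2, L 3])) ≠ 0)
    (n2 : f (rr (L 4) (TC ![L 1, L 2, L 3])) ≠ 0) : IA (FreeGroup ι) ≤ TrS f := by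
  have ne : ∀ {a b : Fin 8}, a ≠ b → L a ≠ L b := fun h h' => h (hL h')
  by_cases n3 : f (rr (L 0) (TC ![L 5, L 2, L 3])) = 0
  swap
  · exact L2 h5 L hL h n1 n2 n3
  have hG := hG0 h5 L hL h n2
  have e : sw (L 5) (L 1) ![L 5, L 2, L 3] = ![L 1, L 2, L 3] := by
    funext m
    fin_cases m
    · exact sw_self (f := ![L 5, L 2, L 3]) (m := 0) rfl
    · exact sw_ne (f := ![L 5, L 2, L 3]) (m := 1) (ne (by decide))
    · exact sw_ne (f := ![L 5, L 2, L 3]) (m := 2) (ne (by decide))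
  apply cj_back (g := rr (L 5) (of (L 1)))
  refine L2 h5 L hL (h.cj h5 _) ?_ ?_ ?_
  · rwa [mv_inv (ne (by decide)) (ne (by decide))
      (v3 (ne (by decide)) (ne (by decide)) (ne (by decide)))]
  · rwa [mv_inv (ne (by decide)) (ne (by decide))
      (v3 (ne (by decide)) (ne (by decide)) (ne (by decide)))]
  · rw [mv_slot hG (ne (by decide)) (ne (by decide)) (ne (by decide)) (m₀ := 0) rfl, e,
      n3, zero_add]
    · exact n1
    · intro m hm
      fin_cases m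
      · exact absurd rfl hm
      · exact ne (show (2 : Fin 8) ≠ 5 by decide)
      · exact ne (show (3 : Fin 8) ≠ 5 by decide)

lemma L0 (h : EF f χ) (n1 : f (rr (L 0) (TC ![L 1, L 2, L 3])) ≠ 0) :
    IA (FreeGroup ι) ≤ TrS f := by
  have h4 : 4 ≤ Fintype.card ι := by omega
  have ne : ∀ {a b : Fin 8}, a ≠ b → L a ≠ L b := fun h h' => h (hL h')
  by_cases n2 : f (rr (L 4) (TC ![L 1, L 2, L 3])) = 0
  swap
  · exact L1 h5 L hL h n1 n2
  have hR := rr_TC h4 (L 0) ![L 1, L 2, L 3]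
  have hR4 := rr_TC h4 (L 4) ![L 1, L 2, L 3]
  have e1 : f (rr (L 0) (of (L 4)) * rr (L 0) (TC ![L 1, L 2, L 3]) * (rr (L 0) (of (L 4)))⁻¹) =
      χ (cc (L 0) (of (L 4))) * f (rr (L 0) (TC ![L 1, L 2, L 3])) := by
    rw [← ccrr, h.chi _ (cc_mem_IA _ _) _ hR]
  have hχ := h.chi_ne (cc_mem_IA (L 0) (of (L 4))) hR n1
  have hn := (inferInstance : (R3 ι).Normal).conj_mem _ hR (rr (L 0) (of (L 4)))
  apply cj_back (g := rr (L 0) (of (L 4)))
  refine L1 h5 L hL (h.cj h5 _) ?_ ?_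
  · show f _ ≠ 0
    rw [e1]
    exact mul_ne_zero hχ n1
  · show f _ ≠ 0
    rw [exD (ne (by decide)) (v3 (ne (by decide)) (ne (by decide)) (ne (by decide)))
      (v3 (ne (by decide)) (ne (by decide)) (ne (by decide))), h.mul _ hR4 _ (inv_mem hn),
      h.inv hn, e1, n2, zero_add]
    exact neg_ne_zero.2 (mul_ne_zero hχ n1)

end steps

lemma eight (h8 : 8 ≤ Fintype.card ι) {i x y z : ι} (h1 : i ≠ x) (h2 : i ≠ y) (h3 : i ≠ z)
    (h4 : x ≠ y) (h5 : x ≠ z) (h6 : y ≠ z) : ∃ L : Fin 8 → ι, Function.Injective L ∧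
    L 0 = i ∧ L 1 = x ∧ L 2 = y ∧ L 3 = z := by
  obtain ⟨e⟩ := Function.Embedding.nonempty_of_card_le (α := Fin 8) (β := ι) (by
    rw [Fintype.card_fin]; exact h8)
  have ne : ∀ {a b : Fin 8}, a ≠ b → e a ≠ e b := fun h h' => h (e.injective h')
  obtain ⟨σ, s1, s2, s3, s4⟩ := exists_perm4 (i := e 0) (j := e 1) (k := e 2) (l := e 3)
    (i' := i) (j' := x) (k' := y) (l' := z) (ne (by decide)) (ne (by decide))
    (ne (by decide)) (ne (by decide)) (ne (by decide)) (ne (by decide)) h1 h2 h3 h4 h5 h6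
  exact ⟨σ ∘ e, σ.injective.comp e.injective, s1, s2, s3, s4⟩

/-- **A nonzero eigenfunctional is fixed by `IA`.** -/
theorem ef_trivial (h8 : 8 ≤ Fintype.card ι) (h : EF f χ) {r : MulAut (FreeGroup ι)}
    (hr : r ∈ R3 ι) (h0 : f r ≠ 0) : IA (FreeGroup ι) ≤ TrS f := by
  have h5 : 5 ≤ Fintype.card ι := by omega
  have h4 : 4 ≤ Fintype.card ι := by omega
  obtain ⟨g, i, x, y, z, h1, h2, h3, h6, h7, h9, hne⟩ : ∃ (g : MulAut (FreeGroup ι)) (i x y z : ι),
      i ≠ x ∧ i ≠ y ∧ i ≠ z ∧ x ≠ y ∧ x ≠ z ∧ y ≠ z ∧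
        cj g f (rr i ⁅⁅of x, of y⁆, of z⁆) ≠ 0 := by
    by_contra hc
    push Not at hc
    let Z : Subgroup (MulAut (FreeGroup ι)) :=
      { carrier := {r | r ∈ R3 ι ∧ ∀ g, f (g * r * g⁻¹) = 0}
        mul_mem' := by
          rintro a b ⟨ha, ha'⟩ ⟨hb, hb'⟩
          refine ⟨mul_mem ha hb, fun g => ?_⟩
          have e : g * (a * b) * g⁻¹ = (g * a * g⁻¹) * (g * b * g⁻¹) := by group
          rw [e, h.mul _ ((inferInstance : (R3 ι).Normal).conj_mem _ ha g) _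
            ((inferInstance : (R3 ι).Normal).conj_mem _ hb g), ha', hb', add_zero]
        one_mem' := by
          refine ⟨one_mem _, fun g => ?_⟩
          rw [mul_one, mul_inv_cancel, h.one]
        inv_mem' := by
          rintro a ⟨ha, ha'⟩
          refine ⟨inv_mem ha, fun g => ?_⟩
          have e : g * a⁻¹ * g⁻¹ = (g * a * g⁻¹)⁻¹ := by group
          rw [e, h.inv ((inferInstance : (R3 ι).Normal).conj_mem _ ha g), ha', neg_zero] }
    have hZ : Z.Normal := by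
      refine ⟨?_⟩
      rintro a ⟨ha, ha'⟩ g
      refine ⟨(inferInstance : (R3 ι).Normal).conj_mem _ ha g, fun g' => ?_⟩
      have e : g' * (g * a * g⁻¹) * g'⁻¹ = (g' * g) * a * (g' * g)⁻¹ := by group
      rw [e, ha']
    have hRZ : R3 ι ≤ Z := R3_le fun i x y z a1 a2 a3 a4 a5 a6 =>
      ⟨Subgroup.subset_normalClosure ⟨i, x, y, z, a1, a2, a3, a4, a5, a6, rfl⟩,
        fun g => hc g i x y z a1 a2 a3 a4 a5 a6⟩
    have h6 := (hRZ hr).2 1
    rw [one_mul, inv_one, mul_one] at h6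
    exact h0 h6
  obtain ⟨L, hL, l0, l1, l2, l3⟩ := eight h8 h1 h2 h3 h6 h7 h9
  apply cj_back (g := g)
  refine L0 h5 L hL (h.cj h5 g) ?_
  rw [l0, l1, l2, l3]
  exact hne

end Pool.Agent.V5helper31.CH
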