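import Pool.Agent.V5helper31.CH.Gen
import Pool.Agent.V5helper31.CG.D

set_option autoImplicit false
set_option linter.unusedSectionVars false

/-! `IA_n` acts trivially on simple quotients of dimension `< 2 ^ (n - 3)` of the normal closure
of the triple commutator transvections. -/

namespace Pool.Agent.V5helper31.CH

open Pool.Agent.Helper460_OutF Pool.Agent.Helper460_CSP Pool.Agent.V5helper31.CF
open Pool.Agent.V5helper31.CG
open FreeGroup (of)
open scoped commutatorElement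

section gen

variable {A : Type} [Group A] {R X : Subgroup A} [R.Normal] [X.Normal] [CM (HR R X)] (p : ℕ)
  [Module (ZMod p) (Additive (HR R X))]

lemma E_eq_of {N₀ : Subgroup A} [N₀.Normal] (h0 : ∀ g ∈ N₀, ∀ r ∈ R, ⁅g, r⁆ ∈ X) {g g' : A}
    (h : QuotientGroup.mk' N₀ g = QuotientGroup.mk' N₀ g') : E R X p g' = E R X p g :=
  E_congr p h0 (QuotientGroup.eq.1 h)

lemma E_comm_of {N₀ : Subgroup A} [N₀.Normal] (h0 : ∀ g ∈ N₀, ∀ r ∈ R, ⁅g, r⁆ ∈ X) {g g' : A}
    (h : Commute (QuotientGroup.mk' N₀ g) (QuotientGroup.mk' N₀ g')) :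
    E R X p g * E R X p g' = E R X p g' * E R X p g := by
  rw [← map_mul, ← map_mul]
  apply E_eq_of p h0
  rw [map_mul, map_mul]
  exact h.eq.symm

lemma E_comm_exact {g g' : A} (h : Commute g g') :
    E R X p g * E R X p g' = E R X p g' * E R X p g := by
  rw [← map_mul, ← map_mul, h.eq]

end gen

lemma nil_conj {M : Type*} [Ring M] {u v x : M} (h : v * u = 1) (h' : u * v = 1)
    (hx : IsNilpotent (x - 1)) : IsNilpotent (u * x * v - 1) := by
  obtain ⟨k, hk⟩ := hx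
  refine ⟨k, ?_⟩
  have e : u * x * v - 1 = u * (x - 1) * v := by
    rw [mul_sub, sub_mul, mul_one, h']
  have h2 : ∀ m : ℕ, (u * (x - 1) * v) ^ m = u * (x - 1) ^ m * v := by
    intro m
    induction m with
    | zero => rw [pow_zero, pow_zero, mul_one, h']
    | succ m ih =>
      rw [pow_succ, ih, pow_succ]
      calc u * (x - 1) ^ m * v * (u * (x - 1) * v) = u * (x - 1) ^ m * (v * u) * (x - 1) * v := by
            noncomm_ring
        _ = _ := by rw [h]; noncomm_ring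
  rw [e, h2, hk, mul_zero, zero_mul]

variable {ι : Type} [DecidableEq ι] [Fintype ι]

lemma card_diff (s : Finset ι) (c : ℕ) (hs : s.card ≤ c) :
    Fintype.card ι - c ≤ (Finset.univ \ s).card := by
  have h1 := Finset.le_card_sdiff s (Finset.univ : Finset ι)
  rw [Finset.card_univ] at h1
  omega

/-! ### commutators of `IA` -/

lemma IA_AT1 {φ : MulAut (FreeGroup ι)} (h : φ ∈ IA (FreeGroup ι)) : φ ∈ AT ι 1 := by
  intro x
  have h1 : φ x * x⁻¹ ∈ (Abelianization.of (G := FreeGroup ι)).ker := by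
    rw [MonoidHom.mem_ker, map_mul, map_inv, mul_inv_eq_one]
    exact h x
  rw [Abelianization.ker_of] at h1
  exact h1

lemma cen {c : FreeGroup ι} (hc : c ∈ g2 ι) (y : FreeGroup ι) :
    Commute (QuotientGroup.mk' (g3 ι) c) (QuotientGroup.mk' (g3 ι) y) := by
  rw [← commutatorElement_eq_one_iff_commute, ← map_commutatorElement]
  exact (QuotientGroup.eq_one_iff _).2
    (Subgroup.commutator_mem_commutator hc (Subgroup.mem_top y))

lemma comm_cen {G : Type*} [Group G] {c d x y : G} (hc : ∀ z, Commute c z) (hd : ∀ z, Commute d z) :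
    ⁅c * x, d * y⁆ = ⁅x, y⁆ := by
  simp only [commutatorElement_def, mul_inv_rev]
  rw [(hc x).eq, (hd y).eq]
  have h1 := (hc (y * d)).eq
  calc x * c * (y * d) * (x⁻¹ * c⁻¹) * (y⁻¹ * d⁻¹)
      = x * (c * (y * d)) * x⁻¹ * c⁻¹ * y⁻¹ * d⁻¹ := by group
    _ = x * y * (d * (c * (x⁻¹ * c⁻¹ * y⁻¹))) * d⁻¹ := by rw [h1]; group
    _ = x * y * (c * x⁻¹ * c⁻¹ * y⁻¹) := by rw [(hd _).eq]; group
    _ = _ := by rw [(hc _).eq]; group

lemma AT1_g2 {φ : MulAut (FreeGroup ι)} (h : φ ∈ AT ι 1) {c : FreeGroup ι} (hc : c ∈ g2 ι) :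
    QuotientGroup.mk' (g3 ι) (φ c) = QuotientGroup.mk' (g3 ι) c := by
  refine comm_ind (p := fun c => QuotientGroup.mk' (g3 ι) (φ c) = QuotientGroup.mk' (g3 ι) c)
    ?_ ?_ ?_ ?_ c hc
  · intro x _ y _
    have e : ∀ z, φ z = (φ z * z⁻¹) * z := fun z => by group
    rw [map_commutatorElement φ, e x, e y, map_commutatorElement, map_mul _ (φ x * x⁻¹),
      map_mul _ (φ y * y⁻¹), map_commutatorElement]
    exact comm_cen (fun z => by
        obtain ⟨z, rfl⟩ := QuotientGroup.mk'_surjective _ z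
        exact cen (h x) z) fun z => by
        obtain ⟨z, rfl⟩ := QuotientGroup.mk'_surjective _ z
        exact cen (h y) z
  · rw [map_one]
  · intro x _ y _ h1 h2
    rw [map_mul, map_mul, h1, h2, map_mul]
  · intro x _ h1
    rw [map_inv, map_inv, h1, map_inv]

lemma AT1_comm {φ ψ : MulAut (FreeGroup ι)} (h1 : φ ∈ AT ι 1) (h2 : ψ ∈ AT ι 1) :
    ⁅φ, ψ⁆ ∈ AT ι 2 := by
  intro y
  obtain ⟨x, rfl⟩ : ∃ x, y = ψ (φ x) := ⟨φ⁻¹ (ψ⁻¹ y), by
    rw [MulAut.apply_inv_self, MulAut.apply_inv_self]⟩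
  have e1 : ⁅φ, ψ⁆ (ψ (φ x)) = φ (ψ x) := by
    have : ⁅φ, ψ⁆ * (ψ * φ) = φ * ψ := by rw [commutatorElement_def]; group
    exact congrArg (fun f : MulAut (FreeGroup ι) => f x) this
  rw [e1]
  show φ (ψ x) * (ψ (φ x))⁻¹ ∈ g3 ι
  rw [← QuotientGroup.eq_one_iff]
  show QuotientGroup.mk' (g3 ι) _ = 1
  have e2 : φ (ψ x) = φ (ψ x * x⁻¹) * ((φ x * x⁻¹) * x) := by
    rw [map_mul, map_inv]; group
  have e3 : ψ (φ x) = ψ (φ x * x⁻¹) * ((ψ x * x⁻¹) * x) := by
    rw [map_mul, map_inv]; group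
  have key : ∀ a b c : FreeGroup ι, QuotientGroup.mk' (g3 ι) (a * (b * c)) =
      QuotientGroup.mk' (g3 ι) a * (QuotientGroup.mk' (g3 ι) b * QuotientGroup.mk' (g3 ι) c) :=
    fun a b c => by rw [map_mul, map_mul]
  have f1 : QuotientGroup.mk' (g3 ι) (φ (ψ x)) = QuotientGroup.mk' (g3 ι) (ψ x * x⁻¹) *
      (QuotientGroup.mk' (g3 ι) (φ x * x⁻¹) * QuotientGroup.mk' (g3 ι) x) := by
    rw [e2, key, AT1_g2 h1 (h2 x)]
  have f2 : QuotientGroup.mk' (g3 ι) (ψ (φ x)) = QuotientGroup.mk' (g3 ι) (φ x * x⁻¹) *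
      (QuotientGroup.mk' (g3 ι) (ψ x * x⁻¹) * QuotientGroup.mk' (g3 ι) x) := by
    rw [e3, key, AT1_g2 h2 (h1 x)]
  rw [map_mul, map_inv, mul_inv_eq_one, f1, f2, ← mul_assoc, ← mul_assoc, (cen (h2 x) _).eq]

lemma IA_comm_KBz [LinearOrder ι] (h5 : 5 ≤ Fintype.card ι) {φ ψ : MulAut (FreeGroup ι)}
    (h1 : φ ∈ IA (FreeGroup ι)) (h2 : ψ ∈ IA (FreeGroup ι)) : ⁅φ, ψ⁆ ∈ KBz ι :=
  AT2_le h5 (AT1_comm (IA_AT1 h1) (IA_AT1 h2))

/-- the normal closure of the partial conjugations contains `IA` -/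
lemma IA_le_normal (h4 : 4 ≤ Fintype.card ι) {D : Subgroup (MulAut (FreeGroup ι))}
    [hD : D.Normal] (h : ∀ i j : ι, i ≠ j → cc i (of j) ∈ D) : IA (FreeGroup ι) ≤ D := by
  have hcc : ∀ i j : ι, cc i (of j) ∈ D := by
    intro i j
    by_cases hij : i = j
    · subst hij; rw [cc_of_self]; exact one_mem _
    · exact h i j hij
  refine IA_le_of h4 (RR_le fun j i k hji hjk hik => ?_) hcc
  have h1 : rr j ⁅of i, (of k)⁻¹⁆ ∈ D := by
    have e := E4 (Ne.symm hji) hik hjk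
    have e2 : rr j ⁅of i, (of k)⁻¹⁆ =
        (rr j (of i) * cc i (of k) * (rr j (of i))⁻¹) * (cc i (of k))⁻¹ := by
      rw [e]; group
    rw [e2]
    exact mul_mem (hD.conj_mem _ (hcc i k) _) (inv_mem (hcc i k))
  have h2 : QuotientGroup.mk' D (rr j ⁅of i, (of k)⁻¹⁆) = 1 := (QuotientGroup.eq_one_iff _).2 h1
  have h3 : QuotientGroup.mk' D (rr j ⁅of i, of k⁆) = 1 := by
    rw [map_commutatorElement, map_commutatorElement, commutatorElement_eq_one_iff_commute] at h2 ⊢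
    rw [map_inv, map_inv] at h2
    simpa using h2
  exact (QuotientGroup.eq_one_iff _).1 h3

section rounds

variable {X : Subgroup (MulAut (FreeGroup ι))} [X.Normal] {p : ℕ} [Fact p.Prime]
  [CM (HR (R3 ι) X)] [Module (ZMod p) (Additive (HR (R3 ι) X))]
  [FiniteDimensional (ZMod p) (Additive (HR (R3 ι) X))]

theorem round1 (h5 : 5 ≤ Fintype.card ι)
    (hfr : Module.finrank (ZMod p) (Additive (HR (R3 ι) X)) < 2 ^ (Fintype.card ι - 3))
    (hX : X ≤ R3 ι) (hc : ∀ r ∈ R3 ι, ∀ s ∈ R3 ι, ⁅r, s⁆ ∈ X)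
    (hmax : ∀ Y : Subgroup (MulAut (FreeGroup ι)), Y.Normal → X ≤ Y → Y ≤ R3 ι →
      Y = X ∨ R3 ι ≤ Y) : ∀ g ∈ KBz ι, ∀ r ∈ R3 ι, ⁅g, r⁆ ∈ X := by
  have h4 : 4 ≤ Fintype.card ι := by omega
  have hK3 : K3 (QuotientGroup.mk' (R3 ι)) := K3_mk
  have hKn := KBz_normal (ι := ι) h5
  refine triv p hX (N := KBz ι) (N₀ := R3 ι)
    {x | ∃ i j k : ι, i ≠ j ∧ i ≠ k ∧ x = cc i ⁅of j, of k⁆} ?_ ?_ hc ?_ ?_ hmax
  · rintro _ ⟨i, j, k, _, _, rfl⟩
    exact cc_mem_KBz h4 _ _ _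
  · intro δ hδ
    have h1 : ZZ (QuotientGroup.mk' (R3 ι)) ≤
        (Subgroup.closure {x | ∃ i j k : ι, i ≠ j ∧ i ≠ k ∧ x = cc i ⁅of j, of k⁆}).map
          (QuotientGroup.mk' (R3 ι)) := by
      refine (Subgroup.closure_le _).2 ?_
      rintro _ ⟨i, j, k, h1, h2, rfl⟩
      exact ⟨_, Subgroup.subset_closure ⟨i, j, k, h1, h2, rfl⟩, rfl⟩
    obtain ⟨y, hy, hxy⟩ := h1 (show QuotientGroup.mk' (R3 ι) δ ∈ _ from hδ)
    have h2 : y⁻¹ * δ ∈ R3 ι := QuotientGroup.eq.1 hxy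
    have h3 : δ = y * (y⁻¹ * δ) := by group
    rw [h3]
    exact Subgroup.mul_mem_sup hy h2
  · intro a ha b hb
    rw [← QuotientGroup.eq_one_iff]
    show QuotientGroup.mk' (R3 ι) ⁅a, b⁆ = 1
    rw [map_commutatorElement, commutatorElement_eq_one_iff_commute]
    exact hK3.ZZ_comm h5 ha hb
  · rintro _ ⟨m, j, k, hmj, hmk, rfl⟩
    have hcl := hK3.ccc h4 m
    refine unip_small (E (R3 ι) X p (cc m ⁅of j, of k⁆))
      (fun q => E (R3 ι) X p (cc m ⁅of j, of q⁆)) (fun q => E (R3 ι) X p (rr q (of k)))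
      (fun q => E (R3 ι) X p (cc m ⁅of j, of q⁆)⁻¹) (fun q => E (R3 ι) X p (rr q (of k))⁻¹)
      (fun a b => E_comm_of p hc (hcl (of j) (of a) ⁅of j, of b⁆)) (Finset.univ \ {j, k, m})
      (fun a => E_inv p _) (fun a => E_inv p _) ?_ ?_ ?_ ?_ ?_
    · intro a ha b hb hab
      simp only [Finset.mem_sdiff, Finset.mem_univ, true_and, Finset.mem_insert,
        Finset.mem_singleton, not_or] at ha hb
      refine E_comm_exact p (commute_of_conj' ?_)
      rw [(CF.pres_rr (i := m) (Ne.symm ha.2.2) (kil_ne (Ne.symm hmk))).cc, map_commutatorElement,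
        rr_ne (Ne.symm ha.1), rr_ne (Ne.symm hab)]
    · intro a _
      exact E_comm_of p hc (hcl (of j) (of a) ⁅of j, of k⁆)
    · intro a ha
      simp only [Finset.mem_sdiff, Finset.mem_univ, true_and, Finset.mem_insert,
        Finset.mem_singleton, not_or] at ha
      refine E_comm_exact p (commute_of_conj' ?_)
      rw [(CF.pres_rr (i := m) (Ne.symm ha.2.2) (kil_ne (Ne.symm hmk))).cc, map_commutatorElement,
        rr_ne (Ne.symm ha.1), rr_ne (Ne.symm ha.2.1)]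
    · intro a ha
      simp only [Finset.mem_sdiff, Finset.mem_univ, true_and, Finset.mem_insert,
        Finset.mem_singleton, not_or] at ha
      rw [← map_mul, ← map_mul, ← map_mul]
      apply E_eq_of p hc
      have e := (CF.pres_rr (i := m) (Ne.symm ha.2.2) (kil_ne (Ne.symm hmk))).cc ⁅of j, of a⁆
      rw [map_commutatorElement (rr a (of k)), rr_ne (Ne.symm ha.1), rr_self,
        kil_ne (Ne.symm ha.2.1), mul_inv_eq_iff_eq_mul] at e
      have e2 := hcl.mul_right (of j) (of a) (of k)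
      simp only [MonoidHom.comp_apply] at e2
      rw [e, map_mul, map_mul, map_mul, e2]
    · refine lt_of_lt_of_le hfr (Nat.pow_le_pow_right (by norm_num) (card_diff _ 3 ?_))
      exact Finset.card_le_three

theorem round2 [LinearOrder ι] (h5 : 5 ≤ Fintype.card ι)
    (hfr : Module.finrank (ZMod p) (Additive (HR (R3 ι) X)) < 2 ^ (Fintype.card ι - 3))
    (hX : X ≤ R3 ι) (hc : ∀ r ∈ R3 ι, ∀ s ∈ R3 ι, ⁅r, s⁆ ∈ X)
    (hmax : ∀ Y : Subgroup (MulAut (FreeGroup ι)), Y.Normal → X ≤ Y → Y ≤ R3 ι →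
      Y = X ∨ R3 ι ≤ Y) : ∀ g ∈ IA (FreeGroup ι), ∀ r ∈ R3 ι, ⁅g, r⁆ ∈ X := by
  have h4 : 4 ≤ Fintype.card ι := by omega
  have h0 := round1 h5 hfr hX hc hmax
  have hKn := KBz_normal (ι := ι) h5
  have hIn : (IA (FreeGroup ι)).Normal := inferInstance
  refine triv p hX (N := IA (FreeGroup ι)) (N₀ := KBz ι)
    (Group.conjugatesOfSet {x | ∃ m l : ι, m ≠ l ∧ x = cc m (of l)}) ?_ ?_ h0 ?_ ?_ hmax
  · intro x hx
    rw [Group.mem_conjugatesOfSet_iff] at hx
    obtain ⟨_, ⟨m, l, _, rfl⟩, hx⟩ := hx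
    rw [isConj_iff] at hx
    obtain ⟨c, rfl⟩ := hx
    exact hIn.conj_mem _ (cc_mem_IA _ _) c
  · refine le_trans ?_ le_sup_left
    show _ ≤ Subgroup.normalClosure {x | ∃ m l : ι, m ≠ l ∧ x = cc m (of l)}
    exact IA_le_normal h4 fun i j hij => Subgroup.subset_normalClosure ⟨i, j, hij, rfl⟩
  · exact fun a ha b hb => IA_comm_KBz h5 ha hb
  · intro x hx
    rw [Group.mem_conjugatesOfSet_iff] at hx
    obtain ⟨_, ⟨m, l, hml, rfl⟩, hx⟩ := hx
    rw [isConj_iff] at hx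
    obtain ⟨c, rfl⟩ := hx
    rw [map_mul, map_mul]
    refine nil_conj (E_inv p c) (by rw [← map_mul, mul_inv_cancel, map_one]) ?_
    have hcm : ∀ a b : ι, Commute (QuotientGroup.mk' (KBz ι) (cc m (of a)))
        (QuotientGroup.mk' (KBz ι) (cc m (of b))) := by
      intro a b
      rw [← commutatorElement_eq_one_iff_commute, ← map_commutatorElement,
        ← map_commutatorElement]
      exact (QuotientGroup.eq_one_iff _).2 (cc_mem_KBz h4 _ _ _)
    refine unip_small (E (R3 ι) X p (cc m (of l)))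
      (fun q => E (R3 ι) X p (cc m (of q))) (fun q => E (R3 ι) X p (rr q (of l)))
      (fun q => E (R3 ι) X p (cc m (of q))⁻¹) (fun q => E (R3 ι) X p (rr q (of l))⁻¹)
      (fun a b => E_comm_of p h0 (hcm a b)) (Finset.univ \ {l, m})
      (fun a => E_inv p _) (fun a => E_inv p _) ?_ ?_ ?_ ?_ ?_
    · intro a ha b hb hab
      simp only [Finset.mem_sdiff, Finset.mem_univ, true_and, Finset.mem_insert,
        Finset.mem_singleton, not_or] at ha hb
      refine E_comm_exact p (commute_of_conj' ?_)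
      rw [(CF.pres_rr (i := m) (Ne.symm ha.2) (kil_ne (Ne.symm hml))).cc, rr_ne (Ne.symm hab)]
    · intro a _
      exact E_comm_of p h0 (hcm a l)
    · intro a ha
      simp only [Finset.mem_sdiff, Finset.mem_univ, true_and, Finset.mem_insert,
        Finset.mem_singleton, not_or] at ha
      refine E_comm_exact p (commute_of_conj' ?_)
      rw [(CF.pres_rr (i := m) (Ne.symm ha.2) (kil_ne (Ne.symm hml))).cc, rr_ne (Ne.symm ha.1)]
    · intro a ha
      simp only [Finset.mem_sdiff, Finset.mem_univ, true_and, Finset.mem_insert,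
        Finset.mem_singleton, not_or] at ha
      rw [← map_mul, ← map_mul, ← map_mul]
      congr 1
      have e := (CF.pres_rr (i := m) (Ne.symm ha.2) (kil_ne (Ne.symm hml))).cc (of a)
      rw [rr_self, kil_ne (Ne.symm ha.1), mul_inv_eq_iff_eq_mul, map_mul] at e
      exact e
    · refine lt_of_lt_of_le hfr (Nat.pow_le_pow_right (by norm_num) (card_diff _ 3 ?_))
      exact Finset.card_le_two.trans (by norm_num)

end rounds

end Pool.Agent.V5helper31.CH
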