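import Pool.Agent.V5helper31.CH.R12

set_option autoImplicit false
set_option linter.unusedSectionVars false

/-! The action of the transvections on `R3 / X` if `[IA, R3] ≤ X ≤ R3`. -/

namespace Pool.Agent.V5helper31.CH

open Pool.Agent.Helper460_OutF Pool.Agent.Helper460_CSP Pool.Agent.V5helper31.CF
open Pool.Agent.V5helper31.CG
open FreeGroup (of)
open scoped commutatorElement

section cl3

variable {ι : Type} {G : Type} [Group G] {ρ : FreeGroup ι →* G}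

/-- the image is nilpotent of class at most three -/
def Cl3 (ρ : FreeGroup ι →* G) : Prop :=
  ∀ u v w g : FreeGroup ι, Commute (ρ ⁅⁅u, v⁆, w⁆) (ρ g)

lemma Cl3.mul3 (h : Cl3 ρ) (u v a b : FreeGroup ι) :
    ρ ⁅⁅u, v⁆, a * b⁆ = ρ ⁅⁅u, v⁆, a⁆ * ρ ⁅⁅u, v⁆, b⁆ := by
  rw [comm_mul_right', map_mul, map_mul, map_mul, map_inv, conj_of_commute (h u v b a)]

lemma Cl3.swap (h : Cl3 ρ) (u v w : FreeGroup ι) : ρ ⁅⁅v, u⁆, w⁆ = (ρ ⁅⁅u, v⁆, w⁆)⁻¹ := by
  rw [← commutatorElement_inv u v, comm_inv_left', map_mul, map_mul, map_inv, map_inv,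
    conj_of_commute' ((h u v w ⁅u, v⁆).inv_left)]

lemma Cl3.mul1 (h : Cl3 ρ) (a b v w : FreeGroup ι) :
    ρ ⁅⁅a * b, v⁆, w⁆ = ρ ⁅⁅a, v⁆, w⁆ * ρ ⁅⁅b, v⁆, w⁆ := by
  have e1 : ⁅a * b, v⁆ = (⁅a, ⁅b, v⁆⁆ * ⁅b, v⁆) * ⁅a, v⁆ := by
    simp only [commutatorElement_def]; group
  have hz : ∀ g, Commute (ρ ⁅a, ⁅b, v⁆⁆) (ρ g) := by
    intro g
    rw [← commutatorElement_inv ⁅b, v⁆ a, map_inv]
    exact (h b v a g).inv_left
  have e2 : ρ ⁅⁅a, ⁅b, v⁆⁆ * ⁅b, v⁆, w⁆ = ρ ⁅⁅b, v⁆, w⁆ := by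
    rw [comm_mul_left', map_mul, map_mul, map_mul, map_inv, conj_of_commute (hz _).symm,
      map_commutatorElement ρ ⁅a, ⁅b, v⁆⁆ w, commutatorElement_eq_one_iff_commute.2 (hz w), mul_one]
  rw [e1, comm_mul_left', map_mul, map_mul, map_mul, map_inv, conj_of_commute (h a v w _), e2]

lemma Cl3.mul2 (h : Cl3 ρ) (u a b w : FreeGroup ι) :
    ρ ⁅⁅u, a * b⁆, w⁆ = ρ ⁅⁅u, a⁆, w⁆ * ρ ⁅⁅u, b⁆, w⁆ := by
  rw [h.swap (a * b) u w, h.mul1, mul_inv_rev, ← h.swap b u w, ← h.swap a u w]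
  exact (h u b w _).eq

end cl3

variable {ι : Type} [DecidableEq ι] [Fintype ι]

/-- the triple commutator of three letters -/
def TC (f : Fin 3 → ι) : FreeGroup ι := ⁅⁅of (f 0), of (f 1)⁆, of (f 2)⁆

lemma rr_R3 (h4 : 4 ≤ Fintype.card ι) (i : ι) (u v w : FreeGroup ι) :
    rr i ⁅⁅u, v⁆, w⁆ ∈ R3 ι := by
  rw [← QuotientGroup.eq_one_iff]
  show QuotientGroup.mk' (R3 ι) _ = 1
  rw [map_commutatorElement, map_commutatorElement, commutatorElement_eq_one_iff_commute]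
  exact K3_mk.crr h4 i u v w

lemma aut_TC (φ : MulAut (FreeGroup ι)) {f : Fin 3 → ι} (h : ∀ m, φ (of (f m)) = of (f m)) :
    φ (TC f) = TC f := by
  unfold TC
  rw [map_commutatorElement, map_commutatorElement, h, h, h]

lemma kil_TC {p : ι} {f : Fin 3 → ι} (h : ∀ m, f m ≠ p) : kil p (TC f) = TC f := by
  unfold TC
  rw [map_commutatorElement, map_commutatorElement, kil_ne (h 0), kil_ne (h 1), kil_ne (h 2)]

/-- substitution of a letter -/
def sw (p r : ι) (f : Fin 3 → ι) : Fin 3 → ι := fun m => if f m = p then r else f m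

lemma sw_self {p r : ι} {f : Fin 3 → ι} {m : Fin 3} (h : f m = p) : sw p r f m = r := if_pos h

lemma sw_ne {p r : ι} {f : Fin 3 → ι} {m : Fin 3} (h : f m ≠ p) : sw p r f m = f m := if_neg h

section rules

variable {X : Subgroup (MulAut (FreeGroup ι))} [X.Normal]

/-- the hypothesis -/
def Ic (X : Subgroup (MulAut (FreeGroup ι))) : Prop :=
  ∀ g ∈ IA (FreeGroup ι), ∀ r ∈ R3 ι, ⁅g, r⁆ ∈ X

variable (h5 : 5 ≤ Fintype.card ι) (hI : Ic X)

include hI

omit [Fintype ι] in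
lemma qc {g r : MulAut (FreeGroup ι)} (hg : g ∈ IA (FreeGroup ι)) (hr : r ∈ R3 ι) :
    Commute (QuotientGroup.mk' X g) (QuotientGroup.mk' X r) := comm_iff.1 (hI g hg r hr)

include h5

lemma ccX (i : ι) : Cl2 ((QuotientGroup.mk' X).comp (cc i)) := by
  have h4 : 4 ≤ Fintype.card ι := by omega
  apply Cl2.of_gen
  intro j k l
  show Commute (QuotientGroup.mk' X (cc i ⁅of j, of k⁆)) (QuotientGroup.mk' X (cc i (of l)))
  by_cases h1 : i = j
  · subst h1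
    rw [map_commutatorElement, cc_of_self, commutatorElement_one_left, map_one]
    exact Commute.one_left _
  by_cases h2 : i = k
  · subst h2
    rw [map_commutatorElement, cc_of_self, commutatorElement_one_right, map_one]
    exact Commute.one_left _
  by_cases h3 : i = l
  · subst h3
    rw [cc_of_self, map_one]
    exact Commute.one_right _
  obtain ⟨m, m1, m2, m3, m4⟩ := out4 h5 i j k l
  have e := K3_mk.indep h4 (q := QuotientGroup.mk' (R3 ι)) (i := i) (m := m) (j := j) (k := k)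
    (Ne.symm h1) (Ne.symm h2) (Ne.symm m2) (Ne.symm m3)
  have hr : (cc m ⁅of j, of k⁆)⁻¹ * cc i ⁅of j, of k⁆ ∈ R3 ι := QuotientGroup.eq.1 e.symm
  have h6 : QuotientGroup.mk' X (cc i ⁅of j, of k⁆) = QuotientGroup.mk' X (cc m ⁅of j, of k⁆) *
      QuotientGroup.mk' X ((cc m ⁅of j, of k⁆)⁻¹ * cc i ⁅of j, of k⁆) := by
    rw [← map_mul, mul_inv_cancel_left]
  rw [h6]
  refine Commute.mul_left ?_ (qc hI (cc_mem_IA _ _) hr).symm
  have e2 := cc_cc' (j := j) (k := k) (l := l) (m := m) (p := i) m1 m4 h1 h2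
  rw [commutatorElement_eq_one_iff_commute] at e2
  exact (e2.map (QuotientGroup.mk' X)).symm

lemma rrX (i : ι) : Cl3 ((QuotientGroup.mk' X).comp (rr i)) := by
  intro u v w g
  show Commute (QuotientGroup.mk' X (rr i ⁅⁅u, v⁆, w⁆)) (QuotientGroup.mk' X (rr i g))
  have h1 : QuotientGroup.mk' X (cc i ⁅⁅u, v⁆, w⁆) = 1 := by
    rw [map_commutatorElement, map_commutatorElement, commutatorElement_eq_one_iff_commute]
    exact ccX h5 hI i u v w
  rw [cc_eq, map_mul] at h1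
  rw [eq_inv_of_mul_eq_one_right h1]
  exact (ll_rr_comm' i _ g).inv_left

/-- rule C -/
lemma ruleC (p : ι) (g u v w : FreeGroup ι) :
    QuotientGroup.mk' X (rr p g * rr p ⁅⁅u, v⁆, w⁆ * (rr p g)⁻¹) =
      QuotientGroup.mk' X (rr p ⁅⁅u, v⁆, w⁆) := by
  have h : Commute (QuotientGroup.mk' X (rr p ⁅⁅u, v⁆, w⁆)) (QuotientGroup.mk' X (rr p g)) :=
    rrX h5 hI p u v w g
  rw [map_mul, map_mul, map_inv, conj_of_commute h]

omit h5 hI in
/-- rule A -/
lemma ruleA {i p r : ι} {f : Fin 3 → ι} (h1 : i ≠ p) (h2 : i ≠ r) (h3 : ∀ m, f m ≠ p) :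
    rr p (of r) * rr i (TC f) * (rr p (of r))⁻¹ = rr i (TC f) := by
  rw [(CF.pres_rr h1 (kil_of_letter h2)).rr, aut_TC _ fun m => rr_ne (h3 m) _]

/-- rule B -/
lemma ruleB {i p r : ι} {f : Fin 3 → ι} (h1 : i ≠ p) (h2 : i ≠ r) (hpr : p ≠ r) {m₀ : Fin 3}
    (h3 : f m₀ = p) (h6 : ∀ m, m ≠ m₀ → f m ≠ p) :
    QuotientGroup.mk' X (rr p (of r) * rr i (TC f) * (rr p (of r))⁻¹) =
      QuotientGroup.mk' X (rr i (TC f)) * QuotientGroup.mk' X (rr i (TC (sw p r f))) := by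
  have hc := rrX h5 hI i
  rw [(CF.pres_rr h1 (kil_of_letter h2)).rr]
  have hp : rr p (of r) (of (f m₀)) = of (f m₀) * of r := by
    rw [h3, rr_self, kil_of_letter hpr]
  have hn : ∀ m, m ≠ m₀ → rr p (of r) (of (f m)) = of (f m) := fun m hm => rr_ne (h6 m hm) _
  have hs : sw p r f m₀ = r := sw_self h3
  have hs' : ∀ m, m ≠ m₀ → sw p r f m = f m := fun m hm => sw_ne (h6 m hm)
  unfold TC
  rw [map_commutatorElement (rr p (of r)), map_commutatorElement (rr p (of r))]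
  have hcases : m₀ = 0 ∨ m₀ = 1 ∨ m₀ = 2 := by
    fin_cases m₀ <;> simp
  rcases hcases with rfl | rfl | rfl
  · rw [hp, hn 1 (by decide), hn 2 (by decide), hs, hs' 1 (by decide), hs' 2 (by decide)]
    exact hc.mul1 _ _ _ _
  · rw [hp, hn 0 (by decide), hn 2 (by decide), hs, hs' 0 (by decide), hs' 2 (by decide)]
    exact hc.mul2 _ _ _ _
  · rw [hp, hn 0 (by decide), hn 1 (by decide), hs, hs' 0 (by decide), hs' 1 (by decide)]
    exact hc.mul3 _ _ _ _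

/-- rule D -/
lemma ruleD {p r : ι} {f : Fin 3 → ι} (hpr : p ≠ r) (h1 : ∀ m, f m ≠ p) (h2 : ∀ m, f m ≠ r) :
    QuotientGroup.mk' X (rr p (of r) * rr r (TC f) * (rr p (of r))⁻¹) =
      QuotientGroup.mk' X (rr r (TC f)) * (QuotientGroup.mk' X (rr p (TC f)))⁻¹ := by
  set c := rr r (TC f) with hc
  set s := rr p (TC f) with hs
  set t := rr p (of r) with ht
  have hcw : c (TC f) = TC f := aut_TC _ fun m => rr_ne (h2 m) _
  have e0 : c * t * c⁻¹ = t * s := by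
    rw [ht, (CF.pres_rr hpr (kil_TC h1)).rr, rr_self, kil_TC h2, map_mul]
  have e1 : c⁻¹ * t * c = t * s⁻¹ := by
    have e2 : c * s * c⁻¹ = s := by
      rw [hs, (CF.pres_rr hpr (kil_TC h1)).rr, hcw]
    have e3 : c * (t * s⁻¹) * c⁻¹ = t := by
      calc c * (t * s⁻¹) * c⁻¹ = (c * t * c⁻¹) * (c * s * c⁻¹)⁻¹ := by group
        _ = _ := by rw [e0, e2]; group
    calc c⁻¹ * t * c = c⁻¹ * (c * (t * s⁻¹) * c⁻¹) * c := by rw [e3]
      _ = _ := by group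
  have e4 : t * c * t⁻¹ = c * (t * s * t⁻¹)⁻¹ := by
    calc t * c * t⁻¹ = c * (c⁻¹ * t * c) * t⁻¹ := by group
      _ = _ := by rw [e1]; group
  have e5 := ruleC h5 hI p (of r) (of (f 0)) (of (f 1)) (of (f 2))
  change QuotientGroup.mk' X (t * s * t⁻¹) = QuotientGroup.mk' X s at e5
  rw [e4, map_mul, map_inv, e5]

end rules

/-! ### the operators -/

section ops

variable {X : Subgroup (MulAut (FreeGroup ι))} [X.Normal] [CM (HR (R3 ι) X)] {P : ℕ}
  [Module (ZMod P) (Additive (HR (R3 ι) X))]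

variable (X P) in
/-- the operators -/
noncomputable def Op (p r : ι) : Module.End (ZMod P) (Additive (HR (R3 ι) X)) :=
  E (R3 ι) X P (rr p (of r)) - 1

variable (X) in
/-- the class of the transvection -/
def bb (h4 : 4 ≤ Fintype.card ι) (i : ι) (f : Fin 3 → ι) : Additive (HR (R3 ι) X) :=
  cl X (rr_R3 h4 i (of (f 0)) (of (f 1)) (of (f 2)))

lemma Op_of {h4 : 4 ≤ Fintype.card ι} {p r i : ι} {f : Fin 3 → ι} {v : Additive (HR (R3 ι) X)}
    (h : E (R3 ι) X P (rr p (of r)) (bb X h4 i f) = bb X h4 i f + v) :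
    Op X P p r (bb X h4 i f) = v := by
  unfold Op
  rw [LinearMap.sub_apply, h]
  exact add_sub_cancel_left _ _

lemma E_bb {h4 : 4 ≤ Fintype.card ι} {p r i : ι} {f : Fin 3 → ι} :
    E (R3 ι) X P (rr p (of r)) (bb X h4 i f) =
      cl X ((inferInstance : (R3 ι).Normal).conj_mem _ (rr_R3 h4 i (of (f 0)) (of (f 1)) (of (f 2)))
        (rr p (of r))) := E_cl P _ _ _

lemma Op_comm {p r p' r' : ι} (h1 : p ≠ p') (h2 : p ≠ r') (h3 : p' ≠ r) :
    Commute (Op X P p r) (Op X P p' r') := by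
  have h : Commute (rr p (of r)) (rr p' (of r')) := by
    apply commute_of_conj'
    rw [(CF.pres_rr (i := p') (p := p) (Ne.symm h1) (kil_of_letter h3)).rr, rr_ne (Ne.symm h2)]
  have h4 : Commute (E (R3 ι) X P (rr p (of r))) (E (R3 ι) X P (rr p' (of r'))) :=
    E_comm_exact P h
  exact (h4.sub_right (Commute.one_right _)).sub_left ((Commute.one_left _))

variable {h4 : 4 ≤ Fintype.card ι}

lemma opA {i p r : ι} {f : Fin 3 → ι} (h1 : i ≠ p) (h2 : i ≠ r) (h3 : ∀ m, f m ≠ p) :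
    Op X P p r (bb X h4 i f) = 0 := by
  apply Op_of
  rw [E_bb, add_zero]
  apply cl_eq.2
  exact congrArg (QuotientGroup.mk' X) (ruleA h1 h2 h3)

variable (h5 : 5 ≤ Fintype.card ι) (hI : Ic X)
include h5 hI

lemma opC (p r : ι) (f : Fin 3 → ι) : Op X P p r (bb X h4 p f) = 0 := by
  apply Op_of
  rw [E_bb, add_zero]
  apply cl_eq.2
  exact ruleC h5 hI p _ _ _ _

lemma opB {i p r : ι} {f : Fin 3 → ι} (h1 : i ≠ p) (h2 : i ≠ r) (hpr : p ≠ r) {m₀ : Fin 3}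
    (h3 : f m₀ = p) (h6 : ∀ m, m ≠ m₀ → f m ≠ p) :
    Op X P p r (bb X h4 i f) = bb X h4 i (sw p r f) := by
  apply Op_of
  rw [E_bb]
  unfold bb
  rw [← cl_mul _ _ (mul_mem (rr_R3 h4 _ _ _ _) (rr_R3 h4 _ _ _ _))]
  apply cl_eq.2
  rw [map_mul]
  exact ruleB h5 hI h1 h2 hpr h3 h6

lemma opD {p r : ι} {f : Fin 3 → ι} (hpr : p ≠ r) (h1 : ∀ m, f m ≠ p) (h2 : ∀ m, f m ≠ r) :
    Op X P p r (bb X h4 r f) = - bb X h4 p f := by
  apply Op_of
  rw [E_bb]
  have e : bb X h4 r f + -bb X h4 p f = cl X (mul_mem (rr_R3 h4 r (of (f 0)) (of (f 1)) (of (f 2)))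
      (inv_mem (rr_R3 h4 p (of (f 0)) (of (f 1)) (of (f 2))))) := by
    apply Additive.toMul.injective
    apply Subtype.ext
    exact (map_mul (QuotientGroup.mk' X) _ _).symm
  rw [e]
  apply cl_eq.2
  rw [map_mul, map_inv]
  exact ruleD h5 hI hpr h1 h2

end ops

end Pool.Agent.V5helper31.CH
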