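import Pool.Agent.V5helper31.CH.Dim3

set_option autoImplicit false
set_option linter.unusedSectionVars false

/-! Elementary abelian quotients of `R3` with fewer than `n (n - 1 choose 3)` generators are
trivial if `n ≥ 16`. -/

namespace Pool.Agent.V5helper31.CH

open Pool.Agent.Helper460_OutF Pool.Agent.Helper460_CSP Pool.Agent.V5helper31.CF
open Pool.Agent.V5helper31.CG
open FreeGroup (of)
open scoped commutatorElement

/-- the numerical condition -/
lemma num {n : ℕ} (h : 16 ≤ n) : n * (n - 1).choose 3 ≤ 2 ^ (n - 3) := by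
  induction n, h using Nat.le_induction with
  | base => decide
  | succ n hn ih =>
    obtain ⟨m, rfl⟩ : ∃ m, n = m + 3 := ⟨n - 3, by omega⟩
    have h1 := Nat.choose_mul_succ_eq (m + 2) 3
    have e1 : m + 3 + 1 - 1 = m + 3 := by omega
    have e2 : m + 3 - 1 = m + 2 := by omega
    have e3 : m + 3 - 3 = m := by omega
    have e4 : m + 3 + 1 - 3 = m + 1 := by omega
    have e5 : m + 2 + 1 - 3 = m := by omega
    rw [e5] at h1
    rw [e2, e3] at ih
    rw [e1, e4, pow_succ]
    have h2 : (m + 3 + 1) * (m + 3).choose 3 ≤ 2 * ((m + 3).choose 3 * m) := by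
      have : m + 3 + 1 ≤ 2 * m := by omega
      calc (m + 3 + 1) * (m + 3).choose 3 ≤ (2 * m) * (m + 3).choose 3 :=
            Nat.mul_le_mul_right _ this
        _ = _ := by ring
    have h3 : (m + 3).choose 3 * m = (m + 3) * (m + 2).choose 3 := by
      rw [show m + 3 = m + 2 + 1 from rfl, ← h1]
      ring
    rw [h3] at h2
    omega

section card

variable (ι : Type) [DecidableEq ι] [Fintype ι]

/-- the index set -/
abbrev PP3 : Type := (i : ι) × {s : Finset ι // s ∈ Finset.powersetCard 3 (Finset.univ.erase i)}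

lemma card_PP3 : Fintype.card (PP3 ι) = Fintype.card ι * (Fintype.card ι - 1).choose 3 := by
  rw [Fintype.card_sigma]
  calc _ = ∑ _i : ι, (Fintype.card ι - 1).choose 3 := Finset.sum_congr rfl fun i _ => by
        rw [Fintype.card_coe, Finset.card_powersetCard,
          Finset.card_erase_of_mem (Finset.mem_univ _), Finset.card_univ]
    _ = _ := by rw [Finset.sum_const, Finset.card_univ, smul_eq_mul]

variable {ι}

/-- an enumeration of the letters -/
noncomputable def en (y : PP3 ι) : Fin 3 → ι := fun m =>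
  ((y.2.1.equivFinOfCardEq (Finset.mem_powersetCard.1 y.2.2).2).symm m : ι)

lemma en_mem (y : PP3 ι) (m : Fin 3) : en y m ∈ y.2.1 :=
  ((y.2.1.equivFinOfCardEq (Finset.mem_powersetCard.1 y.2.2).2).symm m).2

lemma en_inj (y : PP3 ι) : Function.Injective (en y) := fun _ _ h =>
  (y.2.1.equivFinOfCardEq (Finset.mem_powersetCard.1 y.2.2).2).symm.injective (Subtype.ext h)

lemma en_ne (y : PP3 ι) (m : Fin 3) : en y m ≠ y.1 := fun h =>
  Finset.notMem_erase y.1 Finset.univ
    (h ▸ (Finset.mem_powersetCard.1 y.2.2).1 (en_mem y m) : y.1 ∈ Finset.univ.erase y.1)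

lemma en_surj (y : PP3 ι) {t : ι} (ht : t ∈ y.2.1) : ∃ m, en y m = t :=
  ⟨y.2.1.equivFinOfCardEq (Finset.mem_powersetCard.1 y.2.2).2 ⟨t, ht⟩, by
    unfold en
    rw [Equiv.symm_apply_apply]⟩

lemma en_eq {x y : PP3 ι} (h1 : y.1 = x.1) (h2 : ∀ m, ∃ m', en y m' = en x m) : y = x := by
  have h3 : x.2.1 ⊆ y.2.1 := by
    intro t ht
    obtain ⟨m, rfl⟩ := en_surj x ht
    obtain ⟨m', hm'⟩ := h2 m
    rw [← hm']
    exact en_mem y m'
  have h4 : x.2.1 = y.2.1 := Finset.eq_of_subset_of_card_le h3 (by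
    rw [(Finset.mem_powersetCard.1 x.2.2).2, (Finset.mem_powersetCard.1 y.2.2).2])
  obtain ⟨y1, y2, y3⟩ := y
  obtain ⟨x1, x2, x3⟩ := x
  simp only at h1 h4
  subst h1
  subst h4
  rfl

/-- nine letters -/
lemma nine (h9 : 9 ≤ Fintype.card ι) (x : PP3 ι) : ∃ L : Fin 9 → ι, Function.Injective L ∧
    L 0 = x.1 ∧ L 1 = en x 0 ∧ L 2 = en x 1 ∧ L 3 = en x 2 := by
  obtain ⟨e⟩ := Function.Embedding.nonempty_of_card_le (α := Fin 9) (β := ι) (by
    rw [Fintype.card_fin]; exact h9)
  have ne : ∀ {a b : Fin 9}, a ≠ b → e a ≠ e b := fun h h' => h (e.injective h')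
  have ni := en_inj x
  obtain ⟨σ, s1, s2, s3, s4⟩ := exists_perm4 (i := e 0) (j := e 1) (k := e 2) (l := e 3)
    (i' := x.1) (j' := en x 0) (k' := en x 1) (l' := en x 2) (ne (by decide)) (ne (by decide))
    (ne (by decide)) (ne (by decide)) (ne (by decide)) (ne (by decide)) (Ne.symm (en_ne x 0))
    (Ne.symm (en_ne x 1)) (Ne.symm (en_ne x 2)) (fun h => absurd (ni h) (by decide))
    (fun h => absurd (ni h) (by decide)) (fun h => absurd (ni h) (by decide))
  exact ⟨σ ∘ e, σ.injective.comp e.injective, s1, s2, s3, s4⟩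

end card

variable {ι : Type} [DecidableEq ι] [Fintype ι]

theorem dim3 {X : Subgroup (MulAut (FreeGroup ι))} [X.Normal] [CM (HR (R3 ι) X)] {P : ℕ}
    [Fact P.Prime] [Module (ZMod P) (Additive (HR (R3 ι) X))]
    [FiniteDimensional (ZMod P) (Additive (HR (R3 ι) X))]
    (h9 : 9 ≤ Fintype.card ι) (hI : Ic X)
    (hd : Module.finrank (ZMod P) (Additive (HR (R3 ι) X)) <
      Fintype.card ι * (Fintype.card ι - 1).choose 3) : R3 ι ≤ X := by
  by_contra hne
  have h4 : 4 ≤ Fintype.card ι := by omega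
  have h5 : 5 ≤ Fintype.card ι := by omega
  let b : PP3 ι → Additive (HR (R3 ι) X) := fun y => bb X h4 y.1 (en y)
  have hli : LinearIndependent (ZMod P) b := by
    apply linInd
    intro x
    obtain ⟨L, hL, l0, l1, l2, l3⟩ := nine h9 x
    obtain ⟨i1, i2⟩ := isolate (X := X) (P := P) (h4 := h4) h5 hI L hL
    refine ⟨_, fun y hy => i1 y.1 (en y) (en_inj y) (en_ne y) ?_, ?_⟩
    · rintro ⟨e1, e2, e3, e4⟩
      apply hy
      refine en_eq (e1.trans l0) fun m => ?_
      have hfall : ∀ m : Fin 3, m = 0 ∨ m = 1 ∨ m = 2 := by decide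
      rcases hfall m with rfl | rfl | rfl
      · rw [← l1]; exact e2
      · rw [← l2]; exact e3
      · rw [← l3]; exact e4
    · have e : b x = bb X h4 (L 0) ![L 1, L 2, L 3] := by
        show bb X h4 x.1 (en x) = _
        rw [l0, l1, l2, l3]
        congr 1
        funext m
        fin_cases m <;> rfl
      intro h0
      rw [e, i2] at h0
      have h1 : rr (L 8) ⁅⁅of (L 5), of (L 6)⁆, of (L 7)⁆ ∈ X := cl_eq_zero.1 h0
      have ne : ∀ {a b : Fin 9}, a ≠ b → L a ≠ L b := fun h h' => h (hL h')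
      exact hne (R3_of_one (ne (by decide)) (ne (by decide)) (ne (by decide)) (ne (by decide))
        (ne (by decide)) (ne (by decide)) h1)
  have h1 := hli.fintype_card_le_finrank
  rw [card_PP3] at h1
  omega

/-- **Small elementary abelian quotients of `R3` are trivial.** -/
theorem small3 [LinearOrder ι] (h16 : 16 ≤ Fintype.card ι) :
    Small (R3 ι) (Fintype.card ι * (Fintype.card ι - 1).choose 3) := by
  apply descend
  intro X hXn p hp hCM hM hfd hfr hX hc hmax
  exact dim3 (by omega)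
    (round2 (by omega) (lt_of_lt_of_le hfr (num h16)) hX hc hmax) hfr

end Pool.Agent.V5helper31.CH
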