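import Pool.Agent.V5helper31.CH.Mv

set_option autoImplicit false
set_option linter.unusedSectionVars false

/-! `IA_n` acts trivially on the simple finite-dimensional quotients of `R3`. -/

namespace Pool.Agent.V5helper31.CH

open Polynomial

section lin

variable {F V : Type*} [Field F] [AddCommGroup V] [Module F V] [FiniteDimensional F V]

/-- an operator all of whose eigenvalues are `1` is unipotent -/
theorem nil_of_eigen (z₀ : Module.End F V)
    (hev : ∀ μ : AlgebraicClosure F,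
      (Module.End.baseChangeHom F (AlgebraicClosure F) V z₀).HasEigenvalue μ → μ = 1) :
    IsNilpotent (z₀ - 1) := by
  let K := AlgebraicClosure F
  let b : Module.End F V →+* Module.End K (TensorProduct F K V) :=
    (Module.End.baseChangeHom F K V).toRingHom
  have hcp : (b z₀).charpoly = z₀.charpoly.map (algebraMap F K) :=
    LinearMap.charpoly_baseChange z₀ K
  have hroot : ∀ μ ∈ (b z₀).charpoly.roots, μ = 1 := by
    intro μ h
    refine hev μ ?_
    show (b z₀).HasEigenvalue μ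
    rw [Module.End.hasEigenvalue_iff_isRoot_charpoly]
    exact Polynomial.isRoot_of_mem_roots h
  have hsp : (b z₀).charpoly = (X - C 1) ^ Multiset.card (b z₀).charpoly.roots := by
    conv_lhs => rw [(IsAlgClosed.splits (b z₀).charpoly).eq_prod_roots_of_monic
      (LinearMap.charpoly_monic _)]
    rw [Multiset.eq_replicate_of_mem hroot, Multiset.map_replicate, Multiset.prod_replicate,
      Multiset.card_replicate]
  have hcp2 : z₀.charpoly = (X - C 1) ^ Multiset.card (b z₀).charpoly.roots := by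
    apply Polynomial.map_injective (algebraMap F K) (algebraMap F K).injective
    rw [← hcp]
    conv_lhs => rw [hsp]
    simp only [Polynomial.map_pow, Polynomial.map_sub, Polynomial.map_X, map_one, Polynomial.map_one]
  refine ⟨Multiset.card (b z₀).charpoly.roots, ?_⟩
  have h := LinearMap.aeval_self_charpoly z₀
  rw [hcp2, map_pow, map_sub, aeval_X, aeval_C, map_one] at h
  exact h

/-- a simultaneous eigenvector of commuting operators in a given stable subspace -/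
theorem sim_eigen {K D α : Type*} [Field K] [IsAlgClosed K] [AddCommGroup D] [Module K D]
    [FiniteDimensional K D] (T : α → Module.End K D) (hcomm : ∀ a b, T a * T b = T b * T a)
    (W₀ : Submodule K D) (hW₀ : W₀ ≠ ⊥) (hst : ∀ a, ∀ v ∈ W₀, T a v ∈ W₀) :
    ∃ v ∈ W₀, v ≠ 0 ∧ ∃ c : α → K, ∀ a, T a v = c a • v := by
  let 𝒮 : Set (Submodule K D) := {W | W ≠ ⊥ ∧ W ≤ W₀ ∧ ∀ a, ∀ v ∈ W, T a v ∈ W}
  have hne : 𝒮.Nonempty := ⟨W₀, hW₀, le_rfl, hst⟩
  obtain ⟨W, ⟨hW0, hWW, hWs⟩, hmin⟩ := IsArtinian.set_has_minimal 𝒮 hne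
  have hN : Nontrivial W := Submodule.nontrivial_iff_ne_bot.2 hW0
  have key : ∀ a, ∃ c : K, ∀ v ∈ W, T a v = c • v := by
    intro a
    obtain ⟨c, hc⟩ := Module.End.exists_eigenvalue ((T a).restrict (hWs a))
    obtain ⟨u, hu⟩ := hc.exists_hasEigenvector
    have hu1 : T a u = c • (u : D) := congrArg Subtype.val hu.apply_eq_smul
    have hu0 : (u : D) ≠ 0 := fun h => hu.2 (Subtype.ext h)
    let W1 : Submodule K D := W ⊓ LinearMap.ker (T a - c • 1)
    have hW1 : ∀ v, v ∈ W1 ↔ v ∈ W ∧ T a v = c • v := by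
      intro v
      rw [Submodule.mem_inf, LinearMap.mem_ker, LinearMap.sub_apply, sub_eq_zero]
      rfl
    have h1 : W1 ∈ 𝒮 := by
      refine ⟨?_, inf_le_left.trans hWW, fun b v hv => ?_⟩
      · intro h
        have : (u : D) ∈ W1 := (hW1 u).2 ⟨u.2, hu1⟩
        rw [h] at this
        exact hu0 ((Submodule.mem_bot K).1 this)
      · obtain ⟨v1, v2⟩ := (hW1 v).1 hv
        refine (hW1 _).2 ⟨hWs b v v1, ?_⟩
        have h2 := congrArg (fun g : Module.End K D => g v) (hcomm a b)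
        change T a (T b v) = T b (T a v) at h2
        rw [h2, v2, map_smul]
    have h2 : W1 = W := by
      by_contra hc
      exact hmin W1 h1 (lt_of_le_of_ne inf_le_left hc)
    refine ⟨c, fun v hv => ?_⟩
    rw [← h2] at hv
    exact ((hW1 v).1 hv).2
  choose c hc using key
  obtain ⟨v, hv, hv0⟩ := Submodule.exists_mem_ne_zero_of_ne_bot hW0
  exact ⟨v, hWW hv, hv0, c, fun a => hc a v hv⟩

end lin

open Pool.Agent.Helper460_OutF Pool.Agent.Helper460_CSP Pool.Agent.V5helper31.CF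
open Pool.Agent.V5helper31.CG
open FreeGroup (of)
open scoped commutatorElement TensorProduct

variable {ι : Type} [DecidableEq ι] [Fintype ι]

section rounds

variable {X : Subgroup (MulAut (FreeGroup ι))} [X.Normal] {p : ℕ} [Fact p.Prime]
  [CM (HR (R3 ι) X)] [Module (ZMod p) (Additive (HR (R3 ι) X))]
  [FiniteDimensional (ZMod p) (Additive (HR (R3 ι) X))]

/-- elements of `IA` act unipotently if `KBz` acts trivially -/
theorem IA_unip [LinearOrder ι] (h8 : 8 ≤ Fintype.card ι)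
    (h0 : ∀ g ∈ KBz ι, ∀ r ∈ R3 ι, ⁅g, r⁆ ∈ X) {δ₀ : MulAut (FreeGroup ι)}
    (hδ₀ : δ₀ ∈ IA (FreeGroup ι)) : IsNilpotent (E (R3 ι) X p δ₀ - 1) := by
  have h5 : 5 ≤ Fintype.card ι := by omega
  apply nil_of_eigen
  intro μ hμ
  by_contra hne
  let K := AlgebraicClosure (ZMod p)
  let V := Additive (HR (R3 ι) X)
  let b : Module.End (ZMod p) V →+* Module.End K (K ⊗[ZMod p] V) :=
    (Module.End.baseChangeHom (ZMod p) K V).toRingHom
  have hbt : ∀ (g : Module.End (ZMod p) V) (v : V), b g ((1 : K) ⊗ₜ[ZMod p] v) =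
      (1 : K) ⊗ₜ[ZMod p] (g v) := fun g v => LinearMap.baseChange_tmul _ _ _
  have hμ' : (b (E (R3 ι) X p δ₀)).HasEigenvalue μ := hμ
  let T : {δ : MulAut (FreeGroup ι) // δ ∈ IA (FreeGroup ι)} →
      Module.End K (Module.Dual K (K ⊗[ZMod p] V)) :=
    fun δ => (b (E (R3 ι) X p δ.1)).dualMap
  have hcomm : ∀ x y, T x * T y = T y * T x := by
    intro x y
    have h1 : E (R3 ι) X p x.1 * E (R3 ι) X p y.1 = E (R3 ι) X p y.1 * E (R3 ι) X p x.1 := by
      have hKn := KBz_normal (ι := ι) h5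
      refine E_comm_of p h0 ?_
      rw [← commutatorElement_eq_one_iff_commute, ← map_commutatorElement]
      exact (QuotientGroup.eq_one_iff _).2 (IA_comm_KBz h5 x.2 y.2)
    have h2 : b (E (R3 ι) X p x.1) * b (E (R3 ι) X p y.1) =
        b (E (R3 ι) X p y.1) * b (E (R3 ι) X p x.1) := by rw [← map_mul, h1, map_mul]
    refine LinearMap.ext fun φ => LinearMap.ext fun v => ?_
    show φ (b (E (R3 ι) X p y.1) (b (E (R3 ι) X p x.1) v)) =
      φ (b (E (R3 ι) X p x.1) (b (E (R3 ι) X p y.1) v))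
    have h3 := congrArg (fun g : Module.End K (K ⊗[ZMod p] V) => g v) h2
    change b (E (R3 ι) X p x.1) (b (E (R3 ι) X p y.1) v) =
      b (E (R3 ι) X p y.1) (b (E (R3 ι) X p x.1) v) at h3
    rw [h3]
  let W₀ : Submodule K (Module.Dual K (K ⊗[ZMod p] V)) := LinearMap.ker (T ⟨δ₀, hδ₀⟩ - μ • 1)
  have hW₀ : ∀ φ, φ ∈ W₀ ↔ T ⟨δ₀, hδ₀⟩ φ = μ • φ := by
    intro φ
    rw [LinearMap.mem_ker, LinearMap.sub_apply, sub_eq_zero]
    rfl
  have hne0 : W₀ ≠ ⊥ := by
    intro hbot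
    -- the operator `b (E δ₀) - μ` is not surjective
    have h1 : LinearMap.range (b (E (R3 ι) X p δ₀) - μ • 1) < ⊤ := by
      rw [lt_top_iff_ne_top]
      intro htop
      have h2 := (LinearMap.range_eq_top.1 htop)
      have h3 := LinearMap.injective_iff_surjective.2 h2
      obtain ⟨v, hv⟩ := hμ'.exists_hasEigenvector
      apply hv.2
      apply h3
      rw [map_zero, LinearMap.sub_apply, hv.apply_eq_smul]
      show μ • v - μ • v = 0
      rw [sub_self]
    obtain ⟨φ, hφ0, hφ⟩ := Submodule.exists_le_ker_of_lt_top _ h1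
    apply hφ0
    have h2 : φ ∈ W₀ := by
      rw [hW₀]
      refine LinearMap.ext fun v => ?_
      have h3 : φ ((b (E (R3 ι) X p δ₀) - μ • 1) v) = 0 := hφ ⟨v, rfl⟩
      rw [LinearMap.sub_apply, map_sub, sub_eq_zero] at h3
      show φ (b (E (R3 ι) X p δ₀) v) = μ • φ v
      rw [h3]
      exact map_smul φ μ v
    rw [hbot] at h2
    exact (Submodule.mem_bot K).1 h2
  obtain ⟨φ, hφW, hφ0, c, hc⟩ := sim_eigen T hcomm W₀ hne0 (by
    intro a φ hφ
    rw [hW₀] at hφ ⊢
    have h2 := congrArg (fun g : Module.End K (Module.Dual K (K ⊗[ZMod p] V)) => g φ)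
      (hcomm ⟨δ₀, hδ₀⟩ a)
    change T ⟨δ₀, hδ₀⟩ (T a φ) = T a (T ⟨δ₀, hδ₀⟩ φ) at h2
    rw [h2, hφ, map_smul])
  classical
  let f : MulAut (FreeGroup ι) → K := fun r =>
    if h : r ∈ R3 ι then φ ((1 : K) ⊗ₜ[ZMod p] (cl X h : V)) else 0
  have hf : ∀ r (h : r ∈ R3 ι), f r = φ ((1 : K) ⊗ₜ[ZMod p] (cl X h : V)) :=
    fun r h => dif_pos h
  let χ : MulAut (FreeGroup ι) → K := fun δ => if h : δ ∈ IA (FreeGroup ι) then c ⟨δ, h⟩ else 0
  have hχ : ∀ δ (h : δ ∈ IA (FreeGroup ι)), χ δ = c ⟨δ, h⟩ := fun δ h => dif_pos h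
  have hEF : EF f χ := by
    refine ⟨fun r hr s hs => ?_, fun δ hδ r hr => ?_, fun δ hδ r hr => ?_⟩
    · rw [hf _ (mul_mem hr hs), hf r hr, hf s hs, cl_mul hr hs, TensorProduct.tmul_add, map_add]
    · have hn := (inferInstance : (R3 ι).Normal).conj_mem _ hr δ
      rw [hf _ hn, hf r hr, hχ δ hδ, ← E_cl p δ hr hn, ← hbt]
      have h1 := congrArg (fun g : Module.Dual K (K ⊗[ZMod p] V) =>
        g ((1 : K) ⊗ₜ[ZMod p] (cl X hr : V))) (hc ⟨δ, hδ⟩)
      exact h1
    · have hn := (inferInstance : (R3 ι).Normal).conj_mem _ hr δ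
      rw [hf _ hn, hf r hr]
      congr 2
      rw [← E_cl p δ hr hn]
      exact (E_fix p hr).2 (h0 δ hδ r hr)
  -- the functional is not zero
  obtain ⟨r, hr, hr0⟩ : ∃ r, ∃ _ : r ∈ R3 ι, f r ≠ 0 := by
    by_contra hcon
    push Not at hcon
    apply hφ0
    refine LinearMap.ext fun v => ?_
    induction v using TensorProduct.induction_on with
    | zero => rw [map_zero, map_zero]
    | tmul a v =>
      obtain ⟨r, hr, rfl⟩ := cl_surj v
      have h1 : (a ⊗ₜ[ZMod p] (cl X hr : V) : K ⊗[ZMod p] V) =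
          a • ((1 : K) ⊗ₜ[ZMod p] (cl X hr : V)) := by
        rw [TensorProduct.smul_tmul', smul_eq_mul, mul_one]
      rw [h1, map_smul, ← hf r hr, hcon r hr, smul_zero]
      rfl
    | add x y hx hy => rw [map_add, hx, hy, LinearMap.zero_apply, LinearMap.zero_apply,
        LinearMap.zero_apply, add_zero]
  have h1 := ef_trivial h8 hEF hr hr0 hδ₀ r hr
  have h2 := hEF.chi δ₀ hδ₀ r hr
  rw [h1, hχ δ₀ hδ₀] at h2
  have h3 : μ * f r = c ⟨δ₀, hδ₀⟩ * f r := by
    have h4 := hc ⟨δ₀, hδ₀⟩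
    rw [(hW₀ φ).1 hφW] at h4
    have h5 := congrArg (fun g : Module.Dual K (K ⊗[ZMod p] V) =>
        g ((1 : K) ⊗ₜ[ZMod p] (cl X hr : V))) h4
    rw [hf r hr]
    exact h5
  rw [← h3] at h2
  have h4 : (μ - 1) * f r = 0 := by rw [sub_mul, ← h2, one_mul, sub_self]
  exact (mul_ne_zero (sub_ne_zero.2 hne) hr0) h4

end rounds

/-- Round 2 without a condition on the dimension. -/
theorem round2' {X : Subgroup (MulAut (FreeGroup ι))} [X.Normal] (p : ℕ) [Fact p.Prime]
    [CM (HR (R3 ι) X)] [Module (ZMod p) (Additive (HR (R3 ι) X))]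
    [FiniteDimensional (ZMod p) (Additive (HR (R3 ι) X))] [LinearOrder ι]
    (h9 : 9 ≤ Fintype.card ι)
    (hX : X ≤ R3 ι) (hc : ∀ r ∈ R3 ι, ∀ s ∈ R3 ι, ⁅r, s⁆ ∈ X)
    (hmax : ∀ Y : Subgroup (MulAut (FreeGroup ι)), Y.Normal → X ≤ Y → Y ≤ R3 ι →
      Y = X ∨ R3 ι ≤ Y) : ∀ g ∈ IA (FreeGroup ι), ∀ r ∈ R3 ι, ⁅g, r⁆ ∈ X := by
  have h5 : 5 ≤ Fintype.card ι := by omega
  have h0 := round1' (p := p) h9 hc hX hmax
  have hKn := KBz_normal (ι := ι) h5
  have hIn : (IA (FreeGroup ι)).Normal := inferInstance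
  refine triv p hX (N := IA (FreeGroup ι)) (N₀ := KBz ι) (IA (FreeGroup ι)) (fun _ h => h) ?_ h0
    ?_ ?_ hmax
  · rw [Subgroup.closure_eq]
    exact le_sup_left
  · exact fun a ha b hb => IA_comm_KBz h5 ha hb
  · exact fun s hs => IA_unip (by omega) h0 hs

end Pool.Agent.V5helper31.CH
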