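import Pool.Agent.V5helper31.CH.Small3
import Pool.Agent.V5helper31.CH.Un2

set_option autoImplicit false
set_option linter.unusedSectionVars false

/-! Elementary abelian quotients of `R3` with fewer than `n (n - 1 choose 3)` generators are
trivial if `n ≥ 9`. -/

namespace Pool.Agent.V5helper31.CH

open Pool.Agent.Helper460_OutF Pool.Agent.Helper460_CSP Pool.Agent.V5helper31.CF
open Pool.Agent.V5helper31.CG

variable {ι : Type} [DecidableEq ι] [Fintype ι]

/-- **Small elementary abelian quotients of `R3` are trivial.** -/
theorem small9 [LinearOrder ι] (h9 : 9 ≤ Fintype.card ι) :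
    Small (R3 ι) (Fintype.card ι * (Fintype.card ι - 1).choose 3) := by
  apply descend
  intro X hXn p hp hCM hM hfd hfr hX hc hmax
  exact dim3 h9 (round2' p h9 hX hc hmax) hfr

end Pool.Agent.V5helper31.CH
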